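import Mathlib

/-!
# The Grigorchuk group and its word problem: definitions
-/

set_option autoImplicit false

namespace Pool.Agent.H39.Gri

/-- The four generators. -/
inductive Gen : Type
  | a | b | c | d
  deriving DecidableEq

/-- The endomorphism `σ` of the free group on `a, b, c, d`:
`a ↦ aca`, `b ↦ d`, `c ↦ b`, `d ↦ c`. -/
def sigma : FreeGroup Gen →* FreeGroup Gen :=
  FreeGroup.lift (fun x => match x with
    | Gen.a => FreeGroup.of Gen.a * FreeGroup.of Gen.c * FreeGroup.of Gen.a
    | Gen.b => FreeGroup.of Gen.d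
    | Gen.c => FreeGroup.of Gen.b
    | Gen.d => FreeGroup.of Gen.c)

/-- The finite set `R₀`: `bcd`, `(ad)⁴`, `(adacac)⁴` and the squares of the generators. -/
def R0 : Set (FreeGroup Gen) :=
  {FreeGroup.of Gen.b * FreeGroup.of Gen.c * FreeGroup.of Gen.d,
    (FreeGroup.of Gen.a * FreeGroup.of Gen.d) ^ 4,
    (FreeGroup.of Gen.a * FreeGroup.of Gen.d * FreeGroup.of Gen.a * FreeGroup.of Gen.c *
      FreeGroup.of Gen.a * FreeGroup.of Gen.c) ^ 4} ∪
  {r | ∃ x : Gen, r = FreeGroup.of x ^ 2}

/-- The relators `σⁿ(r)`, `n ≥ 0`, `r ∈ R₀`. -/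
def relators : Set (FreeGroup Gen) := {w | ∃ (n : ℕ) (r : FreeGroup Gen), r ∈ R0 ∧ w = sigma^[n] r}

/-- The first Grigorchuk group. -/
abbrev Grig : Type := PresentedGroup relators

/-- The value in the group of a letter: `(x, true)` stands for `x` and `(x, false)` for `x⁻¹`. -/
def letterVal (z : Gen × Bool) : Grig :=
  if z.2 then PresentedGroup.of z.1 else (PresentedGroup.of z.1)⁻¹

/-- The word problem: the words over the eight letters that represent the identity. -/
def wordProblem : Set (List (Gen × Bool)) := {w | (w.map letterVal).prod = 1}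

end Pool.Agent.H39.Gri
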