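import Mathlib

/-!
# Commutation relations in the Grigorchuk group

Everything is done in a group with four elements satisfying a few of the defining relations, and
an endomorphism acting on them as the substitution does.
-/

set_option autoImplicit false

namespace Pool.Agent.H39.Gri

variable {H : Type} [Group H]

theorem comm_of_sq {u v : H} (hu : u * u = 1) (hv : v * v = 1) (h : u * v * (u * v) = 1) :
    Commute u v := by
  have h1 : u * v = (u * v)⁻¹ := eq_inv_of_mul_eq_one_left h
  have h2 : (u * v)⁻¹ = v * u := by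
    rw [mul_inv_rev, ← eq_inv_of_mul_eq_one_left hu, ← eq_inv_of_mul_eq_one_left hv]
  exact h1.trans h2

/-- conjugation of a commuting pair -/
theorem comm_conj {G : Type} [Group G] {u v : G} (g : G) (h : Commute u v) :
    Commute (g * u * g⁻¹) (g * v * g⁻¹) := by
  have : (g * u * g⁻¹) * (g * v * g⁻¹) = g * (u * v) * g⁻¹ := by group
  have h2 : (g * v * g⁻¹) * (g * u * g⁻¹) = g * (v * u) * g⁻¹ := by group
  show _ = _
  rw [this, h2, h.eq]

/-- Four elements satisfying some of the defining relations of the Grigorchuk group. -/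
structure Rels (a b c d : H) : Prop where
  ha : a * a = 1
  hb : b * b = 1
  hc : c * c = 1
  hd : d * d = 1
  hbcd : b * c * d = 1
  had : (a * d) ^ 4 = 1
  hadac : (a * d * a * c * a * c) ^ 4 = 1
  hac : (a * c) ^ 8 = 1

section

variable {a b c d : H}

theorem cd_eq (hb : b * b = 1) (hbcd : b * c * d = 1) : c * d = b := by
  have h1 : c * d = b⁻¹ := by
    rw [mul_assoc] at hbcd
    exact eq_inv_of_mul_eq_one_right hbcd
  rw [h1]; exact (eq_inv_of_mul_eq_one_left hb).symm

theorem dc_eq (hb : b * b = 1) (hc : c * c = 1) (hd : d * d = 1) (hbcd : b * c * d = 1) :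
    d * c = b := by
  have h1 := cd_eq hb hbcd
  have h2 : (c * d)⁻¹ = d * c := by
    rw [mul_inv_rev, ← eq_inv_of_mul_eq_one_left hc, ← eq_inv_of_mul_eq_one_left hd]
  rw [← h2, h1]; exact (eq_inv_of_mul_eq_one_left hb).symm

/-- in a group where in addition `(ab)² = 1`, also `(acad)² = 1` -/
theorem acad_sq (ha : a * a = 1) (hb : b * b = 1) (hc : c * c = 1) (hd : d * d = 1)
    (hbcd : b * c * d = 1) (had : (a * d) ^ 4 = 1) (hab : (a * b) ^ 2 = 1) :
    (a * c * a * d) ^ 2 = 1 := by
  have hcd := cd_eq hb hbcd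
  have hdc := dc_eq hb hc hd hbcd
  have hcab : Commute b a := (comm_of_sq ha hb (by rw [← pow_two]; exact hab)).symm
  have hbd : b * d = c := by rw [← hcd, mul_assoc, hd, mul_one]
  have hdb : d * b = c := by rw [← hdc, ← mul_assoc, hd, one_mul]
  have hcbd : Commute b d := hbd.trans hdb.symm
  have e1 : a * c * a * d = b * (a * d) ^ 2 := by
    rw [← hbd, pow_two]
    calc a * (b * d) * a * d = (a * b) * (d * a * d) := by group
      _ = (b * a) * (d * a * d) := by rw [hcab.eq]
      _ = _ := by group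
  have hc2 : Commute b ((a * d) ^ 2) := (hcab.mul_right hcbd).pow_right 2
  rw [e1, hc2.mul_pow, ← pow_mul, had, mul_one, pow_two, hb]

variable (R : Rels a b c d)

include R

theorem comm_ada_d : Commute d (a * d * a) := by
  have h1 : (a * d * a) * (a * d * a) = 1 := by
    calc (a * d * a) * (a * d * a) = a * d * (a * a) * d * a := by group
      _ = a * (d * d) * a := by rw [R.ha]; group
      _ = 1 := by rw [R.hd, mul_one, R.ha]
  refine (comm_of_sq h1 R.hd ?_).symm
  calc a * d * a * d * (a * d * a * d) = (a * d) ^ 4 := by simp only [pow_succ, pow_zero]; group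
    _ = 1 := R.had

/-- the four elements -/
def Om (a c d : H) (z : H) : Prop :=
  z = a * d * a ∨ z = c * (a * d * a) * c ∨ z = a * c * a * (c * (a * d * a) * c) * (a * c * a) ∨
    z = c * (a * c * a * (c * (a * d * a) * c) * (a * c * a)) * c

theorem a_cancel (x : H) : a * (a * x) = x := by rw [← mul_assoc, R.ha, one_mul]
theorem b_cancel (x : H) : b * (b * x) = x := by rw [← mul_assoc, R.hb, one_mul]
theorem c_cancel (x : H) : c * (c * x) = x := by rw [← mul_assoc, R.hc, one_mul]
theorem d_cancel (x : H) : d * (d * x) = x := by rw [← mul_assoc, R.hd, one_mul]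
theorem dc_swap : d * c = c * d := (dc_eq R.hb R.hc R.hd R.hbcd).trans (cd_eq R.hb R.hbcd).symm
theorem dc_swap' (x : H) : d * (c * x) = c * (d * x) := by
  rw [← mul_assoc, dc_swap R, mul_assoc]

theorem aca_y0 : a * c * a * (a * d * a) * (a * c * a) = a * d * a := by
  simp only [mul_assoc, a_cancel R, c_cancel R, dc_swap' R]

theorem aca_sq (x : H) : a * c * a * (a * c * a * x * (a * c * a)) * (a * c * a) = x := by
  simp only [mul_assoc, a_cancel R, c_cancel R]
  rw [R.ha, mul_one]

theorem Om_c {z : H} (hz : Om a c d z) : Om a c d (c * z * c) := by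
  rcases hz with rfl | rfl | rfl | rfl
  · exact Or.inr (Or.inl rfl)
  · left
    simp only [mul_assoc, c_cancel R]
    rw [R.hc, mul_one]
  · exact Or.inr (Or.inr (Or.inr rfl))
  · right; right; left
    simp only [mul_assoc, c_cancel R]
    rw [R.hc, mul_one]

theorem ac4 : a * c * (a * c) * (a * c) * (a * c) = c * a * (c * a) * (c * a) * (c * a) := by
  have h1 : (a * c) ^ 4 * (a * c) ^ 4 = 1 := by rw [← pow_add]; exact R.hac
  have h2 : (a * c) ^ 4 = ((a * c) ^ 4)⁻¹ := eq_inv_of_mul_eq_one_left h1
  have h3 : ((a * c) ^ 4)⁻¹ = (c * a) ^ 4 := by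
    rw [← inv_pow, mul_inv_rev, ← eq_inv_of_mul_eq_one_left R.ha,
      ← eq_inv_of_mul_eq_one_left R.hc]
  have h4 := h2.trans h3
  simpa only [pow_succ, pow_zero, one_mul] using h4

theorem Om_aca {z : H} (hz : Om a c d z) : Om a c d (a * c * a * z * (a * c * a)) := by
  rcases hz with rfl | rfl | rfl | rfl
  · left; exact aca_y0 R
  · exact Or.inr (Or.inr (Or.inl rfl))
  · right; left
    exact aca_sq R _
  · right; right; right
    have h := ac4 R
    set u := a * c * (a * c) * (a * c) * (a * c) with hu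
    have e1 : a * c * a * (c * (a * c * a * (c * (a * d * a) * c) * (a * c * a)) * c) * (a * c * a) =
        u * (a * d * a) * (c * a * (c * a) * (c * a) * (c * a)) := by
      rw [hu]; simp only [mul_assoc]
    have e2 : c * (a * c * a * (c * (a * d * a) * c) * (a * c * a)) * c =
        (c * a * (c * a) * (c * a) * (c * a)) * (a * c * a * (a * d * a) * (a * c * a)) *
          (a * c * (a * c) * (a * c) * (a * c)) := by
      simp only [mul_assoc, a_cancel R, c_cancel R]
    rw [e1, e2, aca_y0 R, ← hu, ← h]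

theorem comm_y2 : Commute d (a * c * a * (c * (a * d * a) * c) * (a * c * a)) := by
  set y := a * c * a * (c * (a * d * a) * c) * (a * c * a) with hy
  have h1 : y * y = 1 := by
    rw [hy]
    simp only [mul_assoc, a_cancel R, c_cancel R, d_cancel R]
    exact R.ha
  refine comm_of_sq R.hd h1 ?_
  have e1 : a * (d * y * (d * y)) * a = (a * d * a * c * a * c) ^ 4 := by
    rw [hy]
    simp only [pow_succ, pow_zero, one_mul, mul_assoc]
    rw [R.ha, mul_one]
  rw [R.hadac] at e1
  calc d * y * (d * y) = a * (a * (d * y * (d * y)) * a) * a := by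
        simp only [mul_assoc, a_cancel R]
        rw [R.ha, mul_one]
    _ = 1 := by rw [e1, mul_one, R.ha]

theorem Om_comm {z : H} (hz : Om a c d z) : Commute d z := by
  have hcd : Commute d c := dc_swap R
  rcases hz with rfl | rfl | rfl | rfl
  · exact comm_ada_d R
  · exact (hcd.mul_right (comm_ada_d R)).mul_right hcd
  · exact comm_y2 R
  · exact (hcd.mul_right (comm_y2 R)).mul_right hcd

theorem Om_d {z : H} (hz : Om a c d z) : d * z * d = z := by
  rw [(Om_comm R hz).eq, mul_assoc, R.hd, mul_one]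

theorem Om_b {z : H} (hz : Om a c d z) : Om a c d (b * z * b) := by
  have e : b * z * b = c * (d * z * d) * c := by
    calc b * z * b = (c * d) * z * (d * c) := by
          rw [cd_eq R.hb R.hbcd, dc_eq R.hb R.hc R.hd R.hbcd]
      _ = _ := by group
  rw [e, Om_d R hz]
  exact Om_c R hz

end

section endo

variable {a b c d : H} (R : Rels a b c d) (S : H →* H) (Sa : S a = a * c * a) (Sb : S b = d)
  (Sc : S c = b) (Sd : S d = c)
  (hgen : ∀ p : H → Prop, p 1 → (∀ x, p x → p (a * x) ∧ p (b * x) ∧ p (c * x) ∧ p (d * x)) →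
    ∀ x, p x)

include R

theorem inv_a : a⁻¹ = a := (eq_inv_of_mul_eq_one_left R.ha).symm
theorem inv_b : b⁻¹ = b := (eq_inv_of_mul_eq_one_left R.hb).symm
theorem inv_c : c⁻¹ = c := (eq_inv_of_mul_eq_one_left R.hc).symm
theorem inv_d : d⁻¹ = d := (eq_inv_of_mul_eq_one_left R.hd).symm
theorem inv_aca : (a * c * a)⁻¹ = a * c * a := by
  rw [mul_inv_rev, mul_inv_rev, inv_a R, inv_c R, mul_assoc]

include Sa Sb Sc Sd hgen

theorem Om_inv (x : H) : ∀ z, Om a c d z → Om a c d (S x * z * (S x)⁻¹) := by
  refine hgen (fun x => ∀ z, Om a c d z → Om a c d (S x * z * (S x)⁻¹)) ?_ ?_ x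
  · intro z hz; simpa using hz
  · intro x ih
    refine ⟨?_, ?_, ?_, ?_⟩
    · intro z hz
      have := Om_aca R (ih z hz)
      rw [map_mul, Sa, mul_inv_rev, inv_aca R]
      simpa only [mul_assoc] using this
    · intro z hz
      have := ih z hz
      rw [← Om_d R this] at this
      rw [map_mul, Sb, mul_inv_rev, inv_d R]
      simpa only [mul_assoc] using this
    · intro z hz
      have := Om_b R (ih z hz)
      rw [map_mul, Sc, mul_inv_rev, inv_b R]
      simpa only [mul_assoc] using this
    · intro z hz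
      have := Om_c R (ih z hz)
      rw [map_mul, Sd, mul_inv_rev, inv_c R]
      simpa only [mul_assoc] using this

theorem comm_d_y0 (x : H) : Commute (S x * d * (S x)⁻¹) (a * d * a) := by
  have h1 := Om_comm R (Om_inv R S Sa Sb Sc Sd hgen x⁻¹ (a * d * a) (Or.inl rfl))
  rw [map_inv, inv_inv] at h1
  have h2 := comm_conj (S x) h1
  have e : S x * ((S x)⁻¹ * (a * d * a) * S x) * (S x)⁻¹ = a * d * a := by group
  rwa [e] at h2

theorem comm_z (x : H) : Commute d (a * (S x * d * (S x)⁻¹) * a) := by
  have h1 := comm_d_y0 R S Sa Sb Sc Sd hgen x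
  have h2 := comm_conj a h1
  rw [inv_a R] at h2
  have e : a * (a * d * a) * a = d := by
    simp only [mul_assoc, a_cancel R]; rw [R.ha, mul_one]
  rw [e] at h2
  exact h2.symm

theorem z_inv (w : H) : ∀ x, ∃ x', S w * (a * (S x * d * (S x)⁻¹) * a) * (S w)⁻¹ =
    a * (S x' * d * (S x')⁻¹) * a := by
  refine hgen (fun w => ∀ x, ∃ x', S w * (a * (S x * d * (S x)⁻¹) * a) * (S w)⁻¹ =
    a * (S x' * d * (S x')⁻¹) * a) ?_ ?_ w
  · intro x; exact ⟨x, by simp⟩
  · -- the generators
    have stepA : ∀ x, a * c * a * (a * (S x * d * (S x)⁻¹) * a) * (a * c * a) =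
        a * (S (d * x) * d * (S (d * x))⁻¹) * a := by
      intro x
      rw [map_mul, Sd, mul_inv_rev, inv_c R]
      simp only [mul_assoc, a_cancel R]
    have stepD : ∀ x, d * (a * (S x * d * (S x)⁻¹) * a) * d = a * (S x * d * (S x)⁻¹) * a := by
      intro x
      rw [(comm_z R S Sa Sb Sc Sd hgen x).eq, mul_assoc, R.hd, mul_one]
    have stepC : ∀ x, c * (a * (S x * d * (S x)⁻¹) * a) * c =
        a * (S (a * x) * d * (S (a * x))⁻¹) * a := by
      intro x
      rw [map_mul, Sa, mul_inv_rev, inv_aca R]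
      simp only [mul_assoc, a_cancel R]
      rw [R.ha, mul_one]
    have stepB : ∀ x, b * (a * (S x * d * (S x)⁻¹) * a) * b =
        a * (S (a * x) * d * (S (a * x))⁻¹) * a := by
      intro x
      have e : b * (a * (S x * d * (S x)⁻¹) * a) * b =
          c * (d * (a * (S x * d * (S x)⁻¹) * a) * d) * c := by
        calc b * (a * (S x * d * (S x)⁻¹) * a) * b =
              (c * d) * (a * (S x * d * (S x)⁻¹) * a) * (d * c) := by
              rw [cd_eq R.hb R.hbcd, dc_eq R.hb R.hc R.hd R.hbcd]
          _ = _ := by group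
      rw [e, stepD, stepC]
    intro w ih
    refine ⟨?_, ?_, ?_, ?_⟩
    · intro x
      obtain ⟨x', hx'⟩ := ih x
      refine ⟨d * x', ?_⟩
      rw [← stepA x', ← hx', map_mul, Sa, mul_inv_rev, inv_aca R]
      simp only [mul_assoc]
    · intro x
      obtain ⟨x', hx'⟩ := ih x
      refine ⟨x', ?_⟩
      rw [← stepD x', ← hx', map_mul, Sb, mul_inv_rev, inv_d R]
      simp only [mul_assoc]
    · intro x
      obtain ⟨x', hx'⟩ := ih x
      refine ⟨a * x', ?_⟩
      rw [← stepB x', ← hx', map_mul, Sc, mul_inv_rev, inv_b R]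
      simp only [mul_assoc]
    · intro x
      obtain ⟨x', hx'⟩ := ih x
      refine ⟨a * x', ?_⟩
      rw [← stepC x', ← hx', map_mul, Sd, mul_inv_rev, inv_c R]
      simp only [mul_assoc]

theorem comm_dd (x y : H) : Commute (S x * d * (S x)⁻¹) (a * (S y * d * (S y)⁻¹) * a) := by
  obtain ⟨y', hy'⟩ := z_inv R S Sa Sb Sc Sd hgen x⁻¹ y
  have h1 := comm_z R S Sa Sb Sc Sd hgen y'
  rw [← hy', map_inv, inv_inv] at h1
  have h2 := comm_conj (S x) h1
  have e : S x * ((S x)⁻¹ * (a * (S y * d * (S y)⁻¹) * a) * S x) * (S x)⁻¹ =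
    a * (S y * d * (S y)⁻¹) * a := by group
  rwa [e] at h2

/-- the two copies commute -/
theorem comm_BB {u v : H} (hu : u ∈ Subgroup.normalClosure {b}) (hv : v ∈ Subgroup.normalClosure {b}) :
    Commute (S u) (a * S v * a) := by
  have haa : ∀ p q : H, (a * p * a) * (a * q * a) = a * (p * q) * a := by
    intro p q
    simp only [mul_assoc, a_cancel R]
  have hainv : ∀ p : H, (a * p * a)⁻¹ = a * p⁻¹ * a := by
    intro p
    rw [mul_inv_rev, mul_inv_rev, inv_a R, mul_assoc]
  -- first fix a conjugate of d on the left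
  have h1 : ∀ g : H, ∀ v ∈ Subgroup.normalClosure {b}, Commute (S g * d * (S g)⁻¹) (a * S v * a) := by
    intro g v hv
    refine Subgroup.closure_induction (p := fun v _ => Commute (S g * d * (S g)⁻¹) (a * S v * a))
      ?_ ?_ ?_ ?_ hv
    · intro x hx
      rw [Group.mem_conjugatesOfSet_iff] at hx
      obtain ⟨y, hy, hxy⟩ := hx
      rw [Set.mem_singleton_iff] at hy
      subst hy
      rw [isConj_iff] at hxy
      obtain ⟨k, rfl⟩ := hxy
      rw [map_mul, map_mul, map_inv, Sb]
      exact comm_dd R S Sa Sb Sc Sd hgen g k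
    · rw [map_one, mul_one, R.ha]; exact Commute.one_right _
    · intro x y _ _ hx hy
      rw [map_mul, ← haa]
      exact hx.mul_right hy
    · intro x _ hx
      rw [map_inv, ← hainv]
      exact hx.inv_right
  refine Subgroup.closure_induction (p := fun u _ => Commute (S u) (a * S v * a))
    ?_ ?_ ?_ ?_ hu
  · intro x hx
    rw [Group.mem_conjugatesOfSet_iff] at hx
    obtain ⟨y, hy, hxy⟩ := hx
    rw [Set.mem_singleton_iff] at hy
    subst hy
    rw [isConj_iff] at hxy
    obtain ⟨k, rfl⟩ := hxy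
    rw [map_mul, map_mul, map_inv, Sb]
    exact h1 k v hv
  · rw [map_one]; exact Commute.one_left _
  · intro x y _ _ hx hy
    rw [map_mul]
    exact hx.mul_left hy
  · intro x _ hx
    rw [map_inv]
    exact hx.inv_left

end endo

end Pool.Agent.H39.Gri
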