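import Pool.Agent.H39.IdxInst
import Pool.Agent.H39.GriGroup
import Pool.Agent.H39.GriDef

/-!
# The word problem of the Grigorchuk group is not an indexed language: proof
-/

set_option autoImplicit false

namespace Pool.Agent.H39.Gri

open Pool.Agent.H39.Indexed

/-! ### The action on the binary tree -/

/-- the generators as maps of finite words -/
def act : Gen → List Bool → List Bool
  | _, [] => []
  | Gen.a, x :: y => (!x) :: y
  | Gen.b, false :: y => false :: act Gen.a y
  | Gen.b, true :: y => true :: act Gen.c y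
  | Gen.c, false :: y => false :: act Gen.a y
  | Gen.c, true :: y => true :: act Gen.d y
  | Gen.d, false :: y => false :: y
  | Gen.d, true :: y => true :: act Gen.b y

theorem act_nil (g : Gen) : act g [] = [] := by cases g <;> rfl

theorem act_invol : ∀ (x : List Bool) (g : Gen), act g (act g x) = x := by
  intro x
  induction x with
  | nil => intro g; rw [act_nil, act_nil]
  | cons β x ih =>
    intro g
    cases g <;> cases β <;> simp [act, ih]

theorem act_aa (x : List Bool) : act Gen.a (act Gen.a x) = x := act_invol x _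

theorem act_rot : ∀ (x : List Bool), act Gen.b (act Gen.c (act Gen.d x)) = x ∧
    act Gen.c (act Gen.d (act Gen.b x)) = x ∧ act Gen.d (act Gen.b (act Gen.c x)) = x := by
  intro x
  induction x with
  | nil => simp [act_nil]
  | cons β x ih =>
    obtain ⟨h1, h2, h3⟩ := ih
    cases β
    · simp [act, act_aa]
    · simp [act, h1, h2, h3]

/-- the generators as permutations -/
def pm (g : Gen) : Equiv.Perm (List Bool) :=
  ⟨act g, act g, fun x => act_invol x g, fun x => act_invol x g⟩

theorem pm_apply (g : Gen) (x : List Bool) : pm g x = act g x := rfl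

theorem pm_sq (g : Gen) : pm g * pm g = 1 := by
  ext1 x
  rw [Equiv.Perm.mul_apply, pm_apply, pm_apply, act_invol, Equiv.Perm.one_apply]

/-- a pair of permutations acting on the two subtrees -/
def node : Equiv.Perm (List Bool) × Equiv.Perm (List Bool) →* Equiv.Perm (List Bool) where
  toFun p :=
    { toFun := fun x => match x with
        | [] => []
        | false :: y => false :: p.1 y
        | true :: y => true :: p.2 y
      invFun := fun x => match x with
        | [] => []
        | false :: y => false :: p.1.symm y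
        | true :: y => true :: p.2.symm y
      left_inv := fun x => by rcases x with _ | ⟨_ | _, y⟩ <;> simp
      right_inv := fun x => by rcases x with _ | ⟨_ | _, y⟩ <;> simp }
  map_one' := by ext1 x; rcases x with _ | ⟨_ | _, y⟩ <;> simp
  map_mul' p q := by ext1 x; rcases x with _ | ⟨_ | _, y⟩ <;> simp

theorem node_nil (p : Equiv.Perm (List Bool) × Equiv.Perm (List Bool)) : node p [] = [] := rfl
theorem node_false (p : Equiv.Perm (List Bool) × Equiv.Perm (List Bool)) (y : List Bool) :
    node p (false :: y) = false :: p.1 y := rfl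
theorem node_true (p : Equiv.Perm (List Bool) × Equiv.Perm (List Bool)) (y : List Bool) :
    node p (true :: y) = true :: p.2 y := rfl

/-- the action of the free group -/
def rho : FreeGroup Gen →* Equiv.Perm (List Bool) := FreeGroup.lift pm

/-- the first coordinate of `σ(w)` -/
def theta : FreeGroup Gen →* Equiv.Perm (List Bool) :=
  FreeGroup.lift (fun x => match x with
    | Gen.a => pm Gen.d
    | Gen.b => 1
    | Gen.c => pm Gen.a
    | Gen.d => pm Gen.a)

theorem rho_sigma (w : FreeGroup Gen) : rho (sigma w) = node (theta w, rho w) := by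
  have h : rho.comp sigma = node.comp (theta.prod rho) := by
    apply FreeGroup.ext_hom
    intro x
    cases x
    · simp only [MonoidHom.comp_apply, sigma, rho, theta, MonoidHom.prod_apply,
        FreeGroup.lift_apply_of, map_mul]
      ext1 x
      rcases x with _ | ⟨_ | _, y⟩
      · simp [pm_apply, act_nil, node_nil]
      · simp [pm_apply, act, node_false]
      · simp [pm_apply, act, node_true]
    · simp only [MonoidHom.comp_apply, sigma, rho, theta, MonoidHom.prod_apply,
        FreeGroup.lift_apply_of]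
      ext1 x
      rcases x with _ | ⟨_ | _, y⟩
      · simp [pm_apply, act_nil, node_nil]
      · simp [pm_apply, act, node_false]
      · simp [pm_apply, act, node_true]
    · simp only [MonoidHom.comp_apply, sigma, rho, theta, MonoidHom.prod_apply,
        FreeGroup.lift_apply_of]
      ext1 x
      rcases x with _ | ⟨_ | _, y⟩
      · simp [pm_apply, act_nil, node_nil]
      · simp [pm_apply, act, node_false]
      · simp [pm_apply, act, node_true]
    · simp only [MonoidHom.comp_apply, sigma, rho, theta, MonoidHom.prod_apply,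
        FreeGroup.lift_apply_of]
      ext1 x
      rcases x with _ | ⟨_ | _, y⟩
      · simp [pm_apply, act_nil, node_nil]
      · simp [pm_apply, act, node_false]
      · simp [pm_apply, act, node_true]
  exact DFunLike.congr_fun h w

theorem pm_ad (x : List Bool) : ((pm Gen.a * pm Gen.d) ^ 4) x = x := by
  rcases x with _ | ⟨_ | _, y⟩
  · simp [pow_succ, pm_apply, act_nil]
  · simp [pow_succ, pm_apply, act, act_invol]
  · simp [pow_succ, pm_apply, act, act_invol]

theorem pm_ad4 : (pm Gen.a * pm Gen.d) ^ 4 = 1 := by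
  ext1 x
  rw [pm_ad, Equiv.Perm.one_apply]

theorem pm_adacac : (pm Gen.a * pm Gen.d * pm Gen.a * pm Gen.c * pm Gen.a * pm Gen.c) ^ 4 = 1 := by
  ext1 x
  rcases x with _ | ⟨_ | _, y⟩
  · simp [pow_succ, pm_apply, act_nil]
  · simp [pow_succ, pm_apply, act, act_invol]
  · simp [pow_succ, pm_apply, act, act_invol]

theorem pm_bcd : pm Gen.b * pm Gen.c * pm Gen.d = 1 := by
  ext1 x
  rw [Equiv.Perm.mul_apply, Equiv.Perm.mul_apply, pm_apply, pm_apply, pm_apply, (act_rot x).1,
    Equiv.Perm.one_apply]

/-- a homomorphism kills `R₀` as soon as the images of the generators satisfy the relations -/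
theorem kills_R0 {P : Type} [Group P] (f : FreeGroup Gen →* P)
    (hsq : ∀ x, f (FreeGroup.of x) * f (FreeGroup.of x) = 1)
    (h1 : f (FreeGroup.of Gen.b) * f (FreeGroup.of Gen.c) * f (FreeGroup.of Gen.d) = 1)
    (h2 : (f (FreeGroup.of Gen.a) * f (FreeGroup.of Gen.d)) ^ 4 = 1)
    (h3 : (f (FreeGroup.of Gen.a) * f (FreeGroup.of Gen.d) * f (FreeGroup.of Gen.a) *
      f (FreeGroup.of Gen.c) * f (FreeGroup.of Gen.a) * f (FreeGroup.of Gen.c)) ^ 4 = 1) :
    ∀ r ∈ R0, f r = 1 := by
  rintro r (h | ⟨x, rfl⟩)
  · rcases h with rfl | rfl | rfl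
    · simpa only [map_mul] using h1
    · simpa only [map_mul, map_pow] using h2
    · simpa only [map_mul, map_pow] using h3
  · rw [map_pow, pow_two, hsq]

/-- the values at the generators of `θ ∘ σⁿ` -/
theorem theta_iter_vals : ∀ n : ℕ,
    ((∀ x, theta (sigma^[n + 2] (FreeGroup.of x)) = (match x with
      | Gen.a => 1 | Gen.b => pm Gen.a | Gen.c => pm Gen.a | Gen.d => 1)) ∨
    (∀ x, theta (sigma^[n + 2] (FreeGroup.of x)) = (match x with
      | Gen.a => pm Gen.a | Gen.b => 1 | Gen.c => pm Gen.a | Gen.d => pm Gen.a)) ∨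
    (∀ x, theta (sigma^[n + 2] (FreeGroup.of x)) = (match x with
      | Gen.a => pm Gen.a | Gen.b => pm Gen.a | Gen.c => 1 | Gen.d => pm Gen.a))) := by
  have hstep : ∀ (m : ℕ) (w : FreeGroup Gen), sigma^[m + 1] w = sigma^[m] (sigma w) :=
    fun m w => rfl
  have hmul : ∀ (m : ℕ) (u v : FreeGroup Gen), sigma^[m] (u * v) = sigma^[m] u * sigma^[m] v := by
    intro m
    induction m with
    | zero => intro u v; rfl
    | succ m ih => intro u v; rw [hstep, hstep, hstep, map_mul, ih]
  have hA : ∀ m, sigma^[m + 1] (FreeGroup.of Gen.a) = sigma^[m] (FreeGroup.of Gen.a) *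
      sigma^[m] (FreeGroup.of Gen.c) * sigma^[m] (FreeGroup.of Gen.a) := by
    intro m
    rw [hstep, ← hmul, ← hmul]
    simp [sigma]
  have hB : ∀ m, sigma^[m + 1] (FreeGroup.of Gen.b) = sigma^[m] (FreeGroup.of Gen.d) := by
    intro m; rw [hstep]; simp [sigma]
  have hC : ∀ m, sigma^[m + 1] (FreeGroup.of Gen.c) = sigma^[m] (FreeGroup.of Gen.b) := by
    intro m; rw [hstep]; simp [sigma]
  have hD : ∀ m, sigma^[m + 1] (FreeGroup.of Gen.d) = sigma^[m] (FreeGroup.of Gen.c) := by
    intro m; rw [hstep]; simp [sigma]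
  have haa := pm_sq Gen.a
  intro n
  induction n with
  | zero =>
    left
    intro x
    have ta : theta (FreeGroup.of Gen.a) = pm Gen.d := by simp [theta]
    have tb : theta (FreeGroup.of Gen.b) = 1 := by simp [theta]
    have tc : theta (FreeGroup.of Gen.c) = pm Gen.a := by simp [theta]
    have td : theta (FreeGroup.of Gen.d) = pm Gen.a := by simp [theta]
    have hdd := pm_sq Gen.d
    cases x
    · simp only [Nat.zero_add, hA, hC, map_mul, Function.iterate_zero, id, ta, tb, tc, mul_one]
      calc pm Gen.d * pm Gen.a * pm Gen.d * (pm Gen.d * pm Gen.a * pm Gen.d)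
          = pm Gen.d * (pm Gen.a * (pm Gen.d * pm Gen.d) * pm Gen.a) * pm Gen.d := by group
        _ = 1 := by rw [hdd, mul_one, haa, mul_one, hdd]
    · simp only [Nat.zero_add, hB, hD, Function.iterate_zero, id, tc]
    · simp only [Nat.zero_add, hB, hC, Function.iterate_zero, id, td]
    · simp only [Nat.zero_add, hC, hD, Function.iterate_zero, id, tb]
  | succ n ih =>
    have e : n + 1 + 2 = (n + 2) + 1 := by omega
    rw [e]
    generalize n + 2 = m at ih ⊢
    rcases ih with h | h | h
    · right; left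
      intro x
      cases x
      · simp only [hA, map_mul, h, one_mul, mul_one]
      · simp only [hB, h]
      · simp only [hC, h]
      · simp only [hD, h]
    · right; right
      intro x
      cases x
      · simp only [hA, map_mul, h, haa, one_mul]
      · simp only [hB, h]
      · simp only [hC, h]
      · simp only [hD, h]
    · left
      intro x
      cases x
      · simp only [hA, map_mul, h, haa, mul_one]
      · simp only [hB, h]
      · simp only [hC, h]
      · simp only [hD, h]

/-- iterates of `σ` are homomorphisms -/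
def sigmaIter : ℕ → (FreeGroup Gen →* FreeGroup Gen)
  | 0 => MonoidHom.id _
  | n + 1 => (sigmaIter n).comp sigma

theorem sigmaIter_apply : ∀ (n : ℕ) (w : FreeGroup Gen), sigmaIter n w = sigma^[n] w := by
  intro n
  induction n with
  | zero => intro w; rfl
  | succ n ih => intro w; rw [Function.iterate_succ_apply, ← ih]; rfl

theorem theta_rel (n : ℕ) : ∀ r ∈ R0, theta (sigma^[n] r) = 1 := by
  have haa := pm_sq Gen.a
  have hdd := pm_sq Gen.d
  have had := pm_ad4
  intro r hr
  have e : theta (sigma^[n] r) = (theta.comp (sigmaIter n)) r := by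
    rw [MonoidHom.comp_apply, sigmaIter_apply]
  have ev : ∀ x, (theta.comp (sigmaIter n)) (FreeGroup.of x) = theta (sigma^[n] (FreeGroup.of x)) := by
    intro x; rw [MonoidHom.comp_apply, sigmaIter_apply]
  rw [e]
  have hda : (pm Gen.d * pm Gen.a) ^ 4 = 1 := by
    have h1 : pm Gen.d * pm Gen.a = (pm Gen.a * pm Gen.d)⁻¹ := by
      rw [mul_inv_rev, ← eq_inv_of_mul_eq_one_left haa, ← eq_inv_of_mul_eq_one_left hdd]
    rw [h1, inv_pow, had, inv_one]
  rcases n with _ | _ | n
  · -- the values `d, 1, a, a`
    have ta : (theta.comp (sigmaIter 0)) (FreeGroup.of Gen.a) = pm Gen.d := by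
      rw [ev]; simp [theta]
    have tb : (theta.comp (sigmaIter 0)) (FreeGroup.of Gen.b) = 1 := by
      rw [ev]; simp [theta]
    have tc : (theta.comp (sigmaIter 0)) (FreeGroup.of Gen.c) = pm Gen.a := by
      rw [ev]; simp [theta]
    have td : (theta.comp (sigmaIter 0)) (FreeGroup.of Gen.d) = pm Gen.a := by
      rw [ev]; simp [theta]
    refine kills_R0 _ ?_ ?_ ?_ ?_ r hr
    · intro x
      cases x
      · rw [ta, hdd]
      · rw [tb, mul_one]
      · rw [tc, haa]
      · rw [td, haa]
    · rw [tb, tc, td, one_mul, haa]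
    · rw [ta, td, hda]
    · rw [ta, tc, td]
      have : pm Gen.d * pm Gen.a * pm Gen.d * pm Gen.a * pm Gen.d * pm Gen.a =
          (pm Gen.d * pm Gen.a) ^ 3 := by simp only [pow_succ, pow_zero, one_mul, mul_assoc]
      rw [this, ← pow_mul, Nat.mul_comm, pow_mul, hda, one_pow]
  · -- the values `dad, a, 1, a`
    have ta : (theta.comp (sigmaIter 1)) (FreeGroup.of Gen.a) =
        pm Gen.d * pm Gen.a * pm Gen.d := by
      rw [ev]; simp [theta, sigma]
    have tb : (theta.comp (sigmaIter 1)) (FreeGroup.of Gen.b) = pm Gen.a := by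
      rw [ev]; simp [theta, sigma]
    have tc : (theta.comp (sigmaIter 1)) (FreeGroup.of Gen.c) = 1 := by
      rw [ev]; simp [theta, sigma]
    have td : (theta.comp (sigmaIter 1)) (FreeGroup.of Gen.d) = pm Gen.a := by
      rw [ev]; simp [theta, sigma]
    have hdad : pm Gen.d * pm Gen.a * pm Gen.d * (pm Gen.d * pm Gen.a * pm Gen.d) = 1 := by
      calc pm Gen.d * pm Gen.a * pm Gen.d * (pm Gen.d * pm Gen.a * pm Gen.d)
          = pm Gen.d * (pm Gen.a * (pm Gen.d * pm Gen.d) * pm Gen.a) * pm Gen.d := by group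
        _ = 1 := by rw [hdd, mul_one, haa, mul_one, hdd]
    have hdada : pm Gen.d * pm Gen.a * pm Gen.d * pm Gen.a = (pm Gen.d * pm Gen.a) ^ 2 := by
      rw [pow_two, mul_assoc]
    refine kills_R0 _ ?_ ?_ ?_ ?_ r hr
    · intro x
      cases x
      · show (theta.comp (sigmaIter 1)) (FreeGroup.of Gen.a) *
          (theta.comp (sigmaIter 1)) (FreeGroup.of Gen.a) = 1
        rw [ta, hdad]
      · show (theta.comp (sigmaIter 1)) (FreeGroup.of Gen.b) *
          (theta.comp (sigmaIter 1)) (FreeGroup.of Gen.b) = 1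
        rw [tb, haa]
      · show (theta.comp (sigmaIter 1)) (FreeGroup.of Gen.c) *
          (theta.comp (sigmaIter 1)) (FreeGroup.of Gen.c) = 1
        rw [tc, mul_one]
      · show (theta.comp (sigmaIter 1)) (FreeGroup.of Gen.d) *
          (theta.comp (sigmaIter 1)) (FreeGroup.of Gen.d) = 1
        rw [td, haa]
    · show (theta.comp (sigmaIter 1)) (FreeGroup.of Gen.b) *
        (theta.comp (sigmaIter 1)) (FreeGroup.of Gen.c) *
        (theta.comp (sigmaIter 1)) (FreeGroup.of Gen.d) = 1
      rw [tb, tc, td, mul_one, haa]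
    · show ((theta.comp (sigmaIter 1)) (FreeGroup.of Gen.a) *
        (theta.comp (sigmaIter 1)) (FreeGroup.of Gen.d)) ^ 4 = 1
      rw [ta, td, hdada, ← pow_mul, Nat.mul_comm, pow_mul, hda, one_pow]
    · show ((theta.comp (sigmaIter 1)) (FreeGroup.of Gen.a) *
        (theta.comp (sigmaIter 1)) (FreeGroup.of Gen.d) *
        (theta.comp (sigmaIter 1)) (FreeGroup.of Gen.a) *
        (theta.comp (sigmaIter 1)) (FreeGroup.of Gen.c) *
        (theta.comp (sigmaIter 1)) (FreeGroup.of Gen.a) *
        (theta.comp (sigmaIter 1)) (FreeGroup.of Gen.c)) ^ 4 = 1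
      rw [ta, tc, td, mul_one, mul_one]
      have : pm Gen.d * pm Gen.a * pm Gen.d * pm Gen.a * (pm Gen.d * pm Gen.a * pm Gen.d) *
          (pm Gen.d * pm Gen.a * pm Gen.d) = (pm Gen.d * pm Gen.a) ^ 2 := by
        rw [mul_assoc _ (pm Gen.d * pm Gen.a * pm Gen.d) (pm Gen.d * pm Gen.a * pm Gen.d), hdad,
          mul_one, hdada]
      rw [this, ← pow_mul, Nat.mul_comm, pow_mul, hda, one_pow]
  · rcases theta_iter_vals n with h | h | h
    · refine kills_R0 _ ?_ ?_ ?_ ?_ r hr
      · intro x
        rw [ev, h]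
        cases x <;> simp [haa]
      · rw [ev, ev, ev, h, h, h]; simp [haa]
      · rw [ev, ev, h, h]; simp
      · rw [ev, ev, ev, h, h, h]; simp [haa]
    · refine kills_R0 _ ?_ ?_ ?_ ?_ r hr
      · intro x
        rw [ev, h]
        cases x <;> simp [haa]
      · rw [ev, ev, ev, h, h, h]; simp [haa]
      · rw [ev, ev, h, h]; simp [haa]
      · rw [ev, ev, ev, h, h, h]; simp [haa]
    · refine kills_R0 _ ?_ ?_ ?_ ?_ r hr
      · intro x
        rw [ev, h]
        cases x <;> simp [haa]
      · rw [ev, ev, ev, h, h, h]; simp [haa]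
      · rw [ev, ev, h, h]; simp [haa]
      · rw [ev, ev, ev, h, h, h]; simp [haa]

theorem rho_R0 : ∀ r ∈ R0, rho r = 1 := by
  have hv : ∀ x, rho (FreeGroup.of x) = pm x := fun x => by simp [rho]
  refine kills_R0 rho ?_ ?_ ?_ ?_
  · intro x; rw [hv, pm_sq]
  · rw [hv, hv, hv, pm_bcd]
  · rw [hv, hv, pm_ad4]
  · rw [hv, hv, hv, pm_adacac]

theorem rho_rel (n : ℕ) : ∀ r ∈ R0, rho (sigma^[n] r) = 1 := by
  induction n with
  | zero => exact rho_R0
  | succ n ih =>
    intro r hr
    rw [Function.iterate_succ_apply', rho_sigma, ih r hr, theta_rel n r hr]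
    exact map_one node

/-! ### Homomorphisms defined on the group -/

/-- the action of the group -/
def Rho : Grig →* Equiv.Perm (List Bool) :=
  PresentedGroup.toGroup (f := pm) (by
    rintro w ⟨n, r, hr, rfl⟩
    exact rho_rel n r hr)

/-- the first coordinate of `σ(g)` -/
def Theta : Grig →* Equiv.Perm (List Bool) :=
  PresentedGroup.toGroup (f := fun x => match x with
    | Gen.a => pm Gen.d
    | Gen.b => 1
    | Gen.c => pm Gen.a
    | Gen.d => pm Gen.a) (by
    rintro w ⟨n, r, hr, rfl⟩
    exact theta_rel n r hr)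

theorem mk_sigma_rel : ∀ w ∈ relators, (PresentedGroup.mk relators) (sigma w) = 1 := by
  rintro w ⟨n, r, hr, rfl⟩
  refine PresentedGroup.one_of_mem ⟨n + 1, r, hr, ?_⟩
  rw [Function.iterate_succ_apply']

theorem lift_sigma (w : FreeGroup Gen) :
    FreeGroup.lift (fun x => (PresentedGroup.mk relators) (sigma (FreeGroup.of x))) w =
      (PresentedGroup.mk relators) (sigma w) := by
  have h : FreeGroup.lift (fun x => (PresentedGroup.mk relators) (sigma (FreeGroup.of x))) =
      (PresentedGroup.mk relators).comp sigma := by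
    apply FreeGroup.ext_hom
    intro x
    rw [FreeGroup.lift_apply_of, MonoidHom.comp_apply]
  rw [h, MonoidHom.comp_apply]

/-- the endomorphism induced by `σ` -/
def Sg : Grig →* Grig :=
  PresentedGroup.toGroup (f := fun x => (PresentedGroup.mk relators) (sigma (FreeGroup.of x))) (by
    intro w hw
    rw [lift_sigma]
    exact mk_sigma_rel w hw)

/-- the generators in the group -/
def ge (x : Gen) : Grig := PresentedGroup.of x

theorem ge_mk (x : Gen) : (PresentedGroup.mk relators) (FreeGroup.of x) = ge x := rfl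

theorem Sg_ge (x : Gen) : Sg (ge x) = (PresentedGroup.mk relators) (sigma (FreeGroup.of x)) := by
  unfold Sg ge
  rw [PresentedGroup.toGroup.of]

theorem Sg_a : Sg (ge Gen.a) = ge Gen.a * ge Gen.c * ge Gen.a := by
  rw [Sg_ge]; simp only [sigma, FreeGroup.lift_apply_of, map_mul, ge_mk]
theorem Sg_b : Sg (ge Gen.b) = ge Gen.d := by
  rw [Sg_ge]; simp only [sigma, FreeGroup.lift_apply_of, ge_mk]
theorem Sg_c : Sg (ge Gen.c) = ge Gen.b := by
  rw [Sg_ge]; simp only [sigma, FreeGroup.lift_apply_of, ge_mk]
theorem Sg_d : Sg (ge Gen.d) = ge Gen.c := by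
  rw [Sg_ge]; simp only [sigma, FreeGroup.lift_apply_of, ge_mk]

theorem Rho_ge (x : Gen) : Rho (ge x) = pm x := by
  unfold Rho ge
  rw [PresentedGroup.toGroup.of]

theorem Theta_a : Theta (ge Gen.a) = pm Gen.d := by unfold Theta ge; rw [PresentedGroup.toGroup.of]
theorem Theta_b : Theta (ge Gen.b) = 1 := by unfold Theta ge; rw [PresentedGroup.toGroup.of]
theorem Theta_c : Theta (ge Gen.c) = pm Gen.a := by unfold Theta ge; rw [PresentedGroup.toGroup.of]
theorem Theta_d : Theta (ge Gen.d) = pm Gen.a := by unfold Theta ge; rw [PresentedGroup.toGroup.of]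

theorem Rho_Sg (g : Grig) : Rho (Sg g) = node (Theta g, Rho g) := by
  have h : Rho.comp Sg = node.comp (Theta.prod Rho) := by
    apply PresentedGroup.ext
    intro x
    have e1 : (Rho.comp Sg) (PresentedGroup.of x) = rho (sigma (FreeGroup.of x)) := by
      rw [MonoidHom.comp_apply]
      cases x
      · show Rho (Sg (ge Gen.a)) = _
        rw [Sg_a, map_mul, map_mul, Rho_ge, Rho_ge]
        simp [rho, sigma]
      · show Rho (Sg (ge Gen.b)) = _
        rw [Sg_b, Rho_ge]
        simp [rho, sigma]
      · show Rho (Sg (ge Gen.c)) = _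
        rw [Sg_c, Rho_ge]
        simp [rho, sigma]
      · show Rho (Sg (ge Gen.d)) = _
        rw [Sg_d, Rho_ge]
        simp [rho, sigma]
    rw [e1, rho_sigma]
    show _ = node (Theta (ge x), Rho (ge x))
    rw [Rho_ge]
    cases x
    · rw [Theta_a]; simp [theta, rho]
    · rw [Theta_b]; simp [theta, rho]
    · rw [Theta_c]; simp [theta, rho]
    · rw [Theta_d]; simp [theta, rho]
  exact DFunLike.congr_fun h g

/-! ### Relations in the group -/

theorem rel_mem {r : FreeGroup Gen} (hr : r ∈ R0) : (PresentedGroup.mk relators) r = 1 :=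
  PresentedGroup.one_of_mem ⟨0, r, hr, rfl⟩

theorem ge_sq (x : Gen) : ge x * ge x = 1 := by
  have := rel_mem (r := FreeGroup.of x ^ 2) (Or.inr ⟨x, rfl⟩)
  rwa [map_pow, ge_mk, pow_two] at this

theorem rels : Rels (ge Gen.a) (ge Gen.b) (ge Gen.c) (ge Gen.d) where
  ha := ge_sq _
  hb := ge_sq _
  hc := ge_sq _
  hd := ge_sq _
  hbcd := by
    have := rel_mem (r := FreeGroup.of Gen.b * FreeGroup.of Gen.c * FreeGroup.of Gen.d)
      (Or.inl (Or.inl rfl))
    simpa only [map_mul, ge_mk] using this
  had := by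
    have := rel_mem (r := (FreeGroup.of Gen.a * FreeGroup.of Gen.d) ^ 4)
      (Or.inl (Or.inr (Or.inl rfl)))
    simpa only [map_mul, map_pow, ge_mk] using this
  hadac := by
    have := rel_mem (r := (FreeGroup.of Gen.a * FreeGroup.of Gen.d * FreeGroup.of Gen.a *
      FreeGroup.of Gen.c * FreeGroup.of Gen.a * FreeGroup.of Gen.c) ^ 4)
      (Or.inl (Or.inr (Or.inr rfl)))
    simpa only [map_mul, map_pow, ge_mk] using this
  hac := by
    have h1 := mk_sigma_rel ((FreeGroup.of Gen.a * FreeGroup.of Gen.d) ^ 4)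
      ⟨0, _, Or.inl (Or.inr (Or.inl rfl)), rfl⟩
    rw [map_pow, map_mul] at h1
    simp only [sigma, FreeGroup.lift_apply_of, map_mul, map_pow, ge_mk] at h1
    have e : (ge Gen.a * ge Gen.c) ^ 8 = (ge Gen.a * ge Gen.c * ge Gen.a * ge Gen.c) ^ 4 := by
      rw [show (8 : ℕ) = 2 * 4 by norm_num, pow_mul, pow_two]
      simp only [mul_assoc]
    rw [e]; exact h1

theorem gen_induction (p : Grig → Prop) (h1 : p 1)
    (hstep : ∀ x, p x → p (ge Gen.a * x) ∧ p (ge Gen.b * x) ∧ p (ge Gen.c * x) ∧ p (ge Gen.d * x)) :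
    ∀ x, p x := by
  have hs : ∀ (g : Gen) x, p x → p (ge g * x) := by
    intro g x hx
    obtain ⟨h1, h2, h3, h4⟩ := hstep x hx
    cases g
    · exact h1
    · exact h2
    · exact h3
    · exact h4
  have key : ∀ w : FreeGroup Gen, ∀ x, p x → p ((PresentedGroup.mk relators) w * x) := by
    intro w
    induction w using FreeGroup.induction_on with
    | C1 => intro x hx; rwa [map_one, one_mul]
    | of g => intro x hx; exact hs g x hx
    | inv_of g _ =>
      intro x hx
      rw [map_inv]
      have : ((PresentedGroup.mk relators) (FreeGroup.of g))⁻¹ = ge g :=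
        (eq_inv_of_mul_eq_one_left (ge_sq g)).symm
      rw [this]
      exact hs g x hx
    | mul u v hu hv =>
      intro x hx
      rw [map_mul, mul_assoc]
      exact hu _ (hv _ hx)
  intro x
  obtain ⟨w, rfl⟩ := PresentedGroup.mk_surjective relators x
  have := key w 1 h1
  rwa [mul_one] at this

/-! ### The commuting family -/

/-- the normal closure of `b` -/
def BB : Subgroup Grig := Subgroup.normalClosure {ge Gen.b}

/-- the normal closure of `(ab)²` -/
def KK : Subgroup Grig := Subgroup.normalClosure {(ge Gen.a * ge Gen.b) ^ 2}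

instance : KK.Normal := by unfold KK; infer_instance
instance : BB.Normal := by unfold BB; infer_instance

theorem inv_ge (x : Gen) : (ge x)⁻¹ = ge x := (eq_inv_of_mul_eq_one_left (ge_sq x)).symm

theorem KK_le_BB : KK ≤ BB := by
  unfold KK
  refine Subgroup.normalClosure_le_normal ?_
  rintro x rfl
  have hb : ge Gen.b ∈ BB := Subgroup.subset_normalClosure rfl
  have h1 : ge Gen.a * ge Gen.b * (ge Gen.a)⁻¹ ∈ BB := (inferInstance : BB.Normal).conj_mem _ hb _
  rw [inv_ge] at h1
  have h2 := BB.mul_mem h1 hb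
  have e : (ge Gen.a * ge Gen.b) ^ 2 = ge Gen.a * ge Gen.b * ge Gen.a * ge Gen.b := by
    rw [pow_two]; simp only [mul_assoc]
  show (ge Gen.a * ge Gen.b) ^ 2 ∈ BB
  rw [e]; exact h2

theorem acad_mem : (ge Gen.a * ge Gen.c * ge Gen.a * ge Gen.d) ^ 2 ∈ KK := by
  rw [← QuotientGroup.eq_one_iff]
  have h := rels
  have q : ∀ x y : Grig, ((x * y : Grig) : Grig ⧸ KK) = (x : Grig ⧸ KK) * (y : Grig ⧸ KK) :=
    fun _ _ => rfl
  have hab : (((ge Gen.a * ge Gen.b) ^ 2 : Grig) : Grig ⧸ KK) = 1 := by
    rw [QuotientGroup.eq_one_iff]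
    exact Subgroup.subset_normalClosure rfl
  have := acad_sq (a := ((ge Gen.a : Grig) : Grig ⧸ KK)) (b := ((ge Gen.b : Grig) : Grig ⧸ KK))
    (c := ((ge Gen.c : Grig) : Grig ⧸ KK)) (d := ((ge Gen.d : Grig) : Grig ⧸ KK))
    (by rw [← q, h.ha]; rfl) (by rw [← q, h.hb]; rfl) (by rw [← q, h.hc]; rfl)
    (by rw [← q, h.hd]; rfl) (by rw [← q, ← q, h.hbcd]; rfl)
    (by rw [← q, ← QuotientGroup.mk_pow, h.had]; rfl)
    (by rw [← q, ← QuotientGroup.mk_pow]; exact hab)
  rw [QuotientGroup.mk_pow, q, q, q]
  exact this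

theorem Sg_KK {x : Grig} (hx : x ∈ KK) : Sg x ∈ KK := by
  have h : KK ≤ KK.comap Sg := by
    have hn : (KK.comap Sg).Normal := inferInstance
    conv_lhs => unfold KK
    refine Subgroup.normalClosure_le_normal ?_
    rintro x rfl
    show Sg ((ge Gen.a * ge Gen.b) ^ 2) ∈ KK
    rw [map_pow, map_mul, Sg_a, Sg_b]
    exact acad_mem
  exact h hx

theorem conj_KK {x : Grig} (hx : x ∈ KK) : ge Gen.a * x * ge Gen.a ∈ KK := by
  have := (inferInstance : KK.Normal).conj_mem x hx (ge Gen.a)
  rwa [inv_ge] at this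

theorem Theta_KK {x : Grig} (hx : x ∈ KK) : Theta x = 1 := by
  have h : KK ≤ Theta.ker := by
    unfold KK
    refine Subgroup.normalClosure_le_normal ?_
    rintro x rfl
    show Theta ((ge Gen.a * ge Gen.b) ^ 2) = 1
    rw [map_pow, map_mul, Theta_a, Theta_b, mul_one, pow_two, pm_sq]
  exact h hx

/-- the elements of the family, indexed by the vertices of the tree -/
def hh : List Bool → Grig
  | [] => (ge Gen.a * ge Gen.b) ^ 2
  | true :: v => Sg (hh v)
  | false :: v => ge Gen.a * Sg (hh v) * ge Gen.a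

theorem hh_KK : ∀ v, hh v ∈ KK := by
  intro v
  induction v with
  | nil => exact Subgroup.subset_normalClosure rfl
  | cons β v ih =>
    cases β
    · exact conj_KK (Sg_KK ih)
    · exact Sg_KK ih

theorem a_conj_mul (x y : Grig) : ge Gen.a * x * ge Gen.a * (ge Gen.a * y * ge Gen.a) =
    ge Gen.a * (x * y) * ge Gen.a := by
  have := ge_sq Gen.a
  calc ge Gen.a * x * ge Gen.a * (ge Gen.a * y * ge Gen.a) =
        ge Gen.a * x * (ge Gen.a * ge Gen.a) * y * ge Gen.a := by group
    _ = _ := by rw [this]; group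

theorem hh_comm : ∀ v v' : List Bool, v.length = v'.length → Commute (hh v) (hh v') := by
  intro v
  induction v with
  | nil =>
    intro v' h
    have : v' = [] := List.length_eq_zero_iff.1 h.symm
    rw [this]
  | cons β v ih =>
    intro v' h
    cases v' with
    | nil => simp at h
    | cons β' v' =>
      have h' : v.length = v'.length := by simpa using h
      have hc := ih v' h'
      have hBB : ∀ u w : Grig, u ∈ BB → w ∈ BB → Commute (Sg u) (ge Gen.a * Sg w * ge Gen.a) :=
        fun u w hu hw => comm_BB rels Sg Sg_a Sg_b Sg_c Sg_d gen_induction hu hw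
      cases β <;> cases β'
      · show ge Gen.a * Sg (hh v) * ge Gen.a * (ge Gen.a * Sg (hh v') * ge Gen.a) =
          ge Gen.a * Sg (hh v') * ge Gen.a * (ge Gen.a * Sg (hh v) * ge Gen.a)
        rw [a_conj_mul, a_conj_mul, ← map_mul, ← map_mul, hc.eq]
      · exact (hBB _ _ (KK_le_BB (hh_KK v')) (KK_le_BB (hh_KK v))).symm
      · exact hBB _ _ (KK_le_BB (hh_KK v)) (KK_le_BB (hh_KK v'))
      · exact hc.map Sg

/-- the permutation `(ab)²` -/
def yy : Equiv.Perm (List Bool) := Rho ((ge Gen.a * ge Gen.b) ^ 2)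

theorem yy_ne : yy ≠ 1 := by
  intro h
  have h2 := congrArg (fun p : Equiv.Perm (List Bool) => p [false, false]) h
  simp only [yy, map_mul, Rho_ge, pow_two, Equiv.Perm.mul_apply, pm_apply,
    Equiv.Perm.one_apply] at h2
  simp [act] at h2

theorem hh_act : ∀ (v v' x : List Bool), v.length = v'.length →
    Rho (hh v) (v' ++ x) = v' ++ (if v = v' then yy x else x) := by
  intro v
  induction v with
  | nil =>
    intro v' x h
    have : v' = [] := List.length_eq_zero_iff.1 h.symm
    subst this
    rfl
  | cons β v ih =>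
    intro v' x h
    cases v' with
    | nil => simp at h
    | cons β' v' =>
      have h' : v.length = v'.length := by simpa using h
      have hv := ih v' x h'
      have hT := Theta_KK (hh_KK v)
      cases β <;> cases β'
      · show Rho (ge Gen.a * Sg (hh v) * ge Gen.a) (false :: (v' ++ x)) = _
        rw [map_mul, map_mul, Rho_ge, Rho_Sg, Equiv.Perm.mul_apply, Equiv.Perm.mul_apply,
          pm_apply, pm_apply]
        simp only [act, Bool.not_false, node_true, Bool.not_true, hv, List.cons.injEq, true_and,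
          List.cons_append]
      · show Rho (ge Gen.a * Sg (hh v) * ge Gen.a) (true :: (v' ++ x)) = _
        rw [map_mul, map_mul, Rho_ge, Rho_Sg, Equiv.Perm.mul_apply, Equiv.Perm.mul_apply,
          pm_apply, pm_apply, hT]
        simp [act, node_false]
      · show Rho (Sg (hh v)) (false :: (v' ++ x)) = _
        rw [Rho_Sg, node_false, hT]
        simp
      · show Rho (Sg (hh v)) (true :: (v' ++ x)) = _
        rw [Rho_Sg, node_true]
        simp only [hv, List.cons.injEq, true_and, List.cons_append]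

/-! ### Words -/

/-- the substitution on letters -/
def sbs : Gen → List Gen
  | Gen.a => [Gen.a, Gen.c, Gen.a]
  | Gen.b => [Gen.d]
  | Gen.c => [Gen.b]
  | Gen.d => [Gen.c]

/-- words for the elements of the family -/
def uw : List Bool → List Gen
  | [] => [Gen.a, Gen.b, Gen.a, Gen.b]
  | true :: v => (uw v).flatMap sbs
  | false :: v => Gen.a :: (uw v).flatMap sbs ++ [Gen.a]

/-- the value of a positive word -/
def gv (w : List Gen) : Grig := (w.map ge).prod

theorem gv_append (u v : List Gen) : gv (u ++ v) = gv u * gv v := by simp [gv]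

theorem gv_sbs (w : List Gen) : gv (w.flatMap sbs) = Sg (gv w) := by
  induction w with
  | nil => simp [gv]
  | cons x w ih =>
    rw [List.flatMap_cons, gv_append, ih]
    have : gv (x :: w) = ge x * gv w := by simp [gv]
    rw [this, map_mul]
    congr 1
    cases x
    · rw [Sg_a]; simp [gv, sbs, mul_assoc]
    · rw [Sg_b]; simp [gv, sbs]
    · rw [Sg_c]; simp [gv, sbs]
    · rw [Sg_d]; simp [gv, sbs]

theorem gv_uw : ∀ v, gv (uw v) = hh v := by
  intro v
  induction v with
  | nil => simp [gv, uw, hh, pow_two, mul_assoc]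
  | cons β v ih =>
    cases β
    · show gv (Gen.a :: (uw v).flatMap sbs ++ [Gen.a]) = _
      have : gv (Gen.a :: (uw v).flatMap sbs ++ [Gen.a]) =
          ge Gen.a * gv ((uw v).flatMap sbs) * ge Gen.a := by
        simp [gv, mul_assoc]
      rw [this, gv_sbs, ih]; rfl
    · show gv ((uw v).flatMap sbs) = _
      rw [gv_sbs, ih]; rfl

theorem gv_reverse (w : List Gen) : gv w.reverse = (gv w)⁻¹ := by
  induction w with
  | nil => simp [gv]
  | cons x w ih =>
    rw [List.reverse_cons, gv_append, ih]
    have : gv (x :: w) = ge x * gv w := by simp [gv]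
    rw [this, mul_inv_rev]
    congr 1
    simp [gv, inv_ge]

theorem length_sbs (w : List Gen) : (w.flatMap sbs).length ≤ 3 * w.length ∧
    (w.flatMap sbs).length % 2 = w.length % 2 := by
  induction w with
  | nil => simp
  | cons x w ih =>
    rw [List.flatMap_cons, List.length_append, List.length_cons]
    cases x <;> simp only [sbs, List.length_cons, List.length_nil] <;> omega

theorem length_uw : ∀ v, (uw v).length + 1 ≤ 5 * 3 ^ v.length ∧ (uw v).length % 2 = 0 := by
  intro v
  induction v with
  | nil => simp [uw]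
  | cons β v ih =>
    have h := length_sbs (uw v)
    rw [List.length_cons, pow_succ]
    cases β
    · show (Gen.a :: (uw v).flatMap sbs ++ [Gen.a]).length + 1 ≤ _ ∧
        (Gen.a :: (uw v).flatMap sbs ++ [Gen.a]).length % 2 = 0
      rw [List.length_append, List.length_cons, List.length_singleton]
      omega
    · show ((uw v).flatMap sbs).length + 1 ≤ _ ∧ ((uw v).flatMap sbs).length % 2 = 0
      omega

theorem gv_replicate (k : ℕ) (hk : k % 2 = 0) : gv (List.replicate k Gen.a) = 1 := by
  unfold gv
  rw [List.map_replicate, List.prod_replicate]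
  obtain ⟨m, rfl⟩ : ∃ m, k = 2 * m := ⟨k / 2, by omega⟩
  rw [pow_mul, pow_two, ge_sq, one_pow]

/-- positive words as words over the alphabet -/
def pw (w : List Gen) : List (Gen × Bool) := w.map (fun x => (x, true))

theorem val_pw (w : List Gen) : val letterVal (pw w) = gv w := by
  unfold val pw gv
  rw [List.map_map]
  rfl

/-- the vertex with number `i` -/
def vx (j i : ℕ) : List Bool := (List.range j).map (fun k => i.testBit k)

theorem vx_length (j i : ℕ) : (vx j i).length = j := by simp [vx]

theorem vx_inj {j i i' : ℕ} (hi : i < 2 ^ j) (hi' : i' < 2 ^ j) (h : vx j i = vx j i') : i = i' := by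
  apply Nat.eq_of_testBit_eq
  intro k
  by_cases hk : k < j
  · unfold vx at h
    have := List.map_inj_left.1 h k (List.mem_range.2 hk)
    exact this
  · have h2 : 2 ^ j ≤ 2 ^ k := Nat.pow_le_pow_right (by norm_num) (by omega)
    rw [Nat.testBit_lt_two_pow (lt_of_lt_of_le hi h2), Nat.testBit_lt_two_pow (lt_of_lt_of_le hi' h2)]

theorem growth1 (t : ℕ) (ht : 6 ≤ t) : 6 * t + 5 ≤ 2 ^ t := by
  induction t, ht using Nat.le_induction with
  | base => norm_num
  | succ t ht ih => rw [pow_succ]; omega

/-- **The word problem of the first Grigorchuk group is not an indexed language.** -/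
theorem wordProblem_not_indexed : ¬ IsIndexed wordProblem := by
  refine not_indexed_of_family letterVal wordProblem (fun u => Iff.rfl) Rho yy yy_ne ?_
  intro C hC
  obtain ⟨t, ht⟩ : ∃ t, t = 2 * C + 6 := ⟨_, rfl⟩
  obtain ⟨b, hb⟩ : ∃ b, b = 6 * 3 ^ (2 * t) := ⟨_, rfl⟩
  have hs4 : 2 ^ t * 2 ^ t = 2 ^ (2 * t) := by rw [← pow_add]; congr 1; omega
  have hlen : ∀ i, (uw (vx (2 * t) i)).length ≤ b ∧ (uw (vx (2 * t) i)).length % 2 = 0 := by
    intro i
    have := length_uw (vx (2 * t) i)
    rw [vx_length] at this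
    omega
  have hb2 : b % 2 = 0 := by omega
  have hb0 : 0 < b := by rw [hb]; positivity
  refine ⟨2 ^ t, b,
    fun i => pw (uw (vx (2 * t) i) ++ List.replicate (b - (uw (vx (2 * t) i)).length) Gen.a),
    fun i => pw ((uw (vx (2 * t) i)).reverse ++
      List.replicate (b - (uw (vx (2 * t) i)).length) Gen.a),
    pw (List.replicate b Gen.a), fun i => hh (vx (2 * t) i),
    fun i x => vx (2 * t) i ++ x, ?_, hb0, ?_, ?_, ?_, ?_, ?_, ?_, ?_, ?_⟩
  · -- size
    have := growth1 t (by omega)
    omega
  · -- growth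
    have e1 : 2 * (2 ^ t * 2 ^ t) * b + 2 ≤ 2 ^ (6 * t + 4) := by
      rw [hs4, hb]
      have h36 : 2 * 2 ^ (2 * t) * (6 * 3 ^ (2 * t)) = 12 * 36 ^ t := by
        rw [pow_mul, pow_mul, show (36 : ℕ) = 2 ^ 2 * 3 ^ 2 by norm_num, mul_pow]; ring
      have h64 : 2 ^ (6 * t + 4) = 16 * 64 ^ t := by
        rw [pow_add, pow_mul]; norm_num; ring
      have hle : 36 ^ t ≤ 64 ^ t := Nat.pow_le_pow_left (by norm_num) t
      have hpos : 1 ≤ 64 ^ t := Nat.one_le_pow _ _ (by norm_num)
      rw [h36, h64]
      omega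
    refine lt_of_le_of_lt (Nat.pow_le_pow_left e1 C) ?_
    rw [← pow_mul]
    refine Nat.pow_lt_pow_right (by norm_num) ?_
    rw [← Nat.add_one_le_iff, Nat.le_div_iff_mul_le hC]
    have g1 := growth1 t (by omega)
    have g2 : C * C ≤ 2 ^ t := by
      have : C < 2 ^ C := Nat.lt_two_pow_self
      calc C * C ≤ 2 ^ C * 2 ^ C := Nat.mul_le_mul this.le this.le
        _ = 2 ^ (C + C) := by rw [pow_add]
        _ ≤ 2 ^ t := Nat.pow_le_pow_right (by norm_num) (by omega)
    calc ((6 * t + 4) * C + 1) * C ≤ ((6 * t + 5) * C) * C :=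
          Nat.mul_le_mul_right _ (by nlinarith)
      _ = (6 * t + 5) * (C * C) := by ring
      _ ≤ 2 ^ t * 2 ^ t := Nat.mul_le_mul g1 g2
  · -- words
    intro i
    obtain ⟨h1, h2⟩ := hlen i
    refine ⟨?_, ?_, ?_, ?_⟩
    · simp only [pw, List.length_map, List.length_append, List.length_replicate]; omega
    · rw [val_pw, gv_append, gv_uw, gv_replicate _ (by omega), mul_one]
    · simp only [pw, List.length_map, List.length_append, List.length_replicate,
        List.length_reverse]; omega
    · rw [val_pw, gv_append, gv_reverse, gv_uw, gv_replicate _ (by omega), mul_one]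
  · simp [pw]
  · rw [val_pw, gv_replicate _ hb2]
  · intro i _ j _
    exact hh_comm _ _ (by rw [vx_length, vx_length])
  · intro i _ x y hxy
    exact List.append_cancel_left hxy
  · intro i hi k hk hki x
    rw [hh_act _ _ _ (by rw [vx_length, vx_length]), if_neg]
    intro hv
    rw [hs4] at hi hk
    exact hki (vx_inj hk hi hv)
  · intro i _ x
    rw [hh_act _ _ _ rfl, if_pos rfl]

end Pool.Agent.H39.Gri
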