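import Pool.Agent.H39.IdxClass

/-!
# Bad bit vectors: each class is small
-/

set_option autoImplicit false

namespace Pool.Agent.H39.Indexed

open List

section class1card

variable {A : Type} {g : IndexedGrammar A} {H : Type} [Group H] {ev : A → H}

theorem num1 {S E E' q v x c u m : ℕ} (a1 : S ≤ 8 * E' * v) (a2 : v ≤ x + (c + u))
    (a3 : c ≤ 2 + 2 * E) (a4 : E * u ≤ q * (2 * S + 2 * E)) (a5 : 32 * q * E' ≤ E)
    (a6 : 2 * (16 * E' * (2 + 2 * E) + 32 * E' * q) ≤ S) (a7 : 32 * E' * m ≤ S) (hE : 0 < E)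
    (hE' : 0 < E') : m ≤ x := by
  by_contra hcon
  push Not at hcon
  have h1 : E * S ≤ 8 * E' * E * x + 8 * E' * E * (2 + 2 * E) + 8 * E' * (q * (2 * S + 2 * E)) := by
    calc E * S ≤ E * (8 * E' * v) := Nat.mul_le_mul_left _ a1
      _ ≤ E * (8 * E' * (x + (c + u))) := Nat.mul_le_mul_left _ (Nat.mul_le_mul_left _ a2)
      _ = 8 * E' * E * x + 8 * E' * E * c + 8 * E' * (E * u) := by ring
      _ ≤ 8 * E' * E * x + 8 * E' * E * (2 + 2 * E) + 8 * E' * (q * (2 * S + 2 * E)) := by
        have := Nat.mul_le_mul_left (8 * E' * E) a3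
        have := Nat.mul_le_mul_left (8 * E') a4
        omega
  have h2 : 2 * (16 * E' * (q * S)) ≤ E * S := by
    calc 2 * (16 * E' * (q * S)) = 32 * q * E' * S := by ring
      _ ≤ E * S := Nat.mul_le_mul_right _ a5
  have h3 : E * S ≤ 16 * E' * E * x + 16 * E' * E * (2 + 2 * E) + 32 * E' * q * E := by nlinarith
  have h4 : S ≤ 16 * E' * x + 16 * E' * (2 + 2 * E) + 32 * E' * q := by
    refine Nat.le_of_mul_le_mul_left ?_ hE
    calc E * S ≤ _ := h3
      _ = _ := by ring
  have h5 : S ≤ 32 * E' * x := by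
    have e : 32 * E' * x = 2 * (16 * E' * x) := by ring
    omega
  have h6 : 32 * E' * (x + 1) ≤ 32 * E' * x := by
    calc 32 * E' * (x + 1) ≤ 32 * E' * m := Nat.mul_le_mul_left _ hcon
      _ ≤ S := a7
      _ ≤ _ := h5
  nlinarith

open Classical in
theorem class1_card [Fintype g.N] (hev : ∀ u ∈ g.language, val ev u = 1) {s b : ℕ}
    {letter : ℕ → Bool → ℕ → A} (hb : 0 < b) (hind : Indep ev s b letter) {n E E' m : ℕ}
    (hn : n = 2 * (s * s) * b)
    (hone : ∀ B : ℕ → Bool, val ev (sub (Wd s b letter B) 0 n) = 1)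
    {X : g.N} {o l : ℕ} {L : List (g.N × ℕ × ℕ)} {tab : g.N → Option (ℕ × ℕ)}
    (hL : L.length ≤ E) (hE'2 : 2 ≤ E') (hE0 : 0 < E) (hs : E' * (2 + 2 * E) ≤ s)
    (hE : 32 * Fintype.card g.N * E' ≤ E)
    (hss : 2 * (16 * E' * (2 + 2 * E) + 32 * E' * Fintype.card g.N) ≤ s * s)
    (hm : 32 * E' * m ≤ s * s)
    (Cl : Finset (Fin (s * s) → Bool))
    (hCl : ∀ B ∈ Cl, HasPat g (Wd s b letter (ext B)) n E E' X o l L tab) :
    Cl.card * 2 ^ m ≤ 2 ^ (s * s) := by
  rcases Cl.eq_empty_or_nonempty with h0 | ⟨B₀, hB₀⟩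
  · rw [h0]; simp
  set W : Finset ℕ := cutCells s b (chP o l L) ∪ (Finset.univ : Finset g.N).biUnion
    (fun Z => (tab Z).elim ∅ (fun x => touched s b x.1 x.2)) with hW
  have hmain := card_class (s * s) Cl (Vset s b (Qp o l L)) W
    (fun i hi => (mem_Vset.1 hi).1) (by
      intro B hB B' hB' hag
      refine class1_agree hev hb hind hn (hCl B hB) (hCl B' hB') (hone _) ?_ ?_
      · intro i hi
        exact hag i (by rw [hW]; exact Finset.mem_union_left _ hi)
      · intro Z x hx i hi
        refine hag i ?_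
        rw [hW]
        refine Finset.mem_union_right _ (Finset.mem_biUnion.2 ⟨Z, Finset.mem_univ _, ?_⟩)
        rw [hx]; exact hi)
  -- sizes
  obtain ⟨γ, Y, f, k, φ, ys, h1, h2, h3, h4, h5, h6, h7, h8, h9, h10⟩ := hCl B₀ hB₀
  have hol := h1.1
  have hlen : ys.flatten.length = l := by rw [h5, sub_length]
  have hQc := Qloc_card E n φ ys o h4.length_eq
  rw [hlen] at hQc
  have hQeq : (Finset.range n).filter (Qp o l L) =
      (Finset.Ico o (o + l)).filter (Qloc E n o φ ys) := by
    ext p
    rw [Finset.mem_filter, Finset.mem_filter, Finset.mem_range, Finset.mem_Ico]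
    unfold Qp Qloc
    constructor
    · rintro ⟨_, hp, hz⟩
      exact ⟨hp, fun z hz' => hz z ((h8 z).1 hz')⟩
    · rintro ⟨hp, hz⟩
      exact ⟨by omega, hp, fun z hz' => hz z ((h8 z).2 hz')⟩
  have hQcard : ((Finset.range n).filter (Qp o l L)).card = l - relLen E n φ ys := by
    rw [hQeq]; omega
  have hQcard' : ((Finset.range n).filter (fun p => ¬ Qp o l L p)).card =
      n - (l - relLen E n φ ys) := by
    have := Finset.card_filter_add_card_filter_not (s := Finset.range n) (Qp o l L)
    rw [Finset.card_range, hQcard] at this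
    omega
  have hgrid := grid (s := s) (b := b) (r := 2 + 2 * E) (E' := E') (Q := Qp o l L)
    (E := chP o l L) hb (le_trans (chP_card o l L) (by omega)) (chP_changes o l L) hs hE'2
    (by rw [← hn, hQcard]; exact h6) (by rw [← hn, hQcard']; exact h7)
  have hcutc : (cutCells s b (chP o l L)).card ≤ 2 + 2 * E :=
    le_trans Finset.card_image_le (le_trans (chP_card o l L) (by omega))
  have hirr : E * ((Finset.univ : Finset g.N).biUnion
      (fun Z => (tab Z).elim ∅ (fun x => touched s b x.1 x.2))).card ≤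
      Fintype.card g.N * (2 * (s * s) + 2 * E) := by
    refine le_trans (Nat.mul_le_mul_left _ Finset.card_biUnion_le) ?_
    rw [Finset.mul_sum]
    rw [show Fintype.card g.N * (2 * (s * s) + 2 * E) =
      ∑ _Z : g.N, (2 * (s * s) + 2 * E) by rw [Finset.sum_const]; rfl]
    refine Finset.sum_le_sum ?_
    intro Z _
    cases hZ : tab Z with
    | none => simp
    | some x =>
      obtain ⟨y, _, _, hx⟩ := h10 Z x hZ
      have t1 := touched_card (s := s) (b := b) (o := x.1) (l := x.2) hb
      have t2 : E * (x.2 / b) < 2 * (s * s) := by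
        have : E * (x.2 / b) * b < 2 * (s * s) * b := by
          calc E * (x.2 / b) * b = E * (x.2 / b * b) := by ring
            _ ≤ E * x.2 := Nat.mul_le_mul_left _ (Nat.div_mul_le_self _ _)
            _ < n := hx
            _ = _ := hn
        exact lt_of_mul_lt_mul_right this (Nat.zero_le _)
      calc E * (touched s b x.1 x.2).card ≤ E * (x.2 / b + 2) := Nat.mul_le_mul_left _ t1
        _ = E * (x.2 / b) + 2 * E := by ring
        _ ≤ _ := by omega
  have hWc : W.card ≤ (cutCells s b (chP o l L)).card + ((Finset.univ : Finset g.N).biUnion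
      (fun Z => (tab Z).elim ∅ (fun x => touched s b x.1 x.2))).card := Finset.card_union_le _ _
  have hVW := Finset.le_card_sdiff W (Vset s b (Qp o l L))
  have hmx : m ≤ (Vset s b (Qp o l L) \ W).card :=
    num1 hgrid (c := (cutCells s b (chP o l L)).card) (u := ((Finset.univ : Finset g.N).biUnion
      (fun Z => (tab Z).elim ∅ (fun x => touched s b x.1 x.2))).card)
      (by omega) hcutc hirr hE hss hm hE0 (by omega)
  exact le_trans (Nat.mul_le_mul_left _ (Nat.pow_le_pow_right (by norm_num) hmx)) hmain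

end class1card

section class2

variable {A : Type} {H : Type} [Group H] {ev : A → H}

/-- an interval as a set of positions -/
def Iv (o l p : ℕ) : Prop := o ≤ p ∧ p < o + l

open Classical in
theorem class2 {s b : ℕ}
    {letter : ℕ → Bool → ℕ → A} (hb : 0 < b) (hind : Indep ev s b letter) {n : ℕ}
    (hn : n = 2 * (s * s) * b)
    (hone : ∀ B : ℕ → Bool, val ev (sub (Wd s b letter B) 0 n) = 1)
    (Cl : Finset (Fin (s * s) → Bool)) {o l : ℕ} (hol : o + l ≤ n) (Z : Finset ℕ)
    (hZ : Z ⊆ Vset s b (Iv o l))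
    (hcut : ∀ i ∈ Z, ∀ t, cellOf s t = i → BIn (Iv o l) b t ∨ BOut (Iv o l) b t)
    (hsame : ∀ B ∈ Cl, ∀ B' ∈ Cl, (∀ i < s * s, i ∉ Z → ext B i = ext B' i) →
      val ev (sub (Wd s b letter (ext B)) o l) = val ev (sub (Wd s b letter (ext B')) o l)) :
    Cl.card * 2 ^ Z.card ≤ 2 ^ (s * s) := by
  have hmain := card_class (s * s) Cl Z (Finset.range (s * s) \ Z)
    (fun i hi => (mem_Vset.1 (hZ hi)).1) (by
      intro B hB B' hB' hag
      have hag' : ∀ i < s * s, i ∉ Z → ext B i = ext B' i := fun i hi hiZ =>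
        hag i (Finset.mem_sdiff.2 ⟨Finset.mem_range.2 hi, hiZ⟩)
      have hs := hsame B hB B' hB' hag'
      have hmix := mix_lemma (ev := ev) hb hind (Q := Iv o l) (B := ext B) (B' := ext B') ?_ ?_
      · intro i hi
        exact hmix i (hZ hi)
      · intro t ht hin hout
        refine hag' _ (cellOf_lt ht) ?_
        intro hZt
        rcases hcut _ hZt t rfl with h | h
        · exact hin h
        · exact hout h
      · rw [← hn]
        have en : n = o + (l + (n - (o + l))) := by omega
        have e1 : sub (fun p => if Iv o l p then Wd s b letter (ext B) p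
            else Wd s b letter (ext B') p) 0 o = sub (Wd s b letter (ext B')) 0 o := by
          apply sub_congr
          intro p _ hp
          have : ¬ Iv o l p := fun h => by have := h.1; omega
          simp only [if_neg this]
        have e2 : sub (fun p => if Iv o l p then Wd s b letter (ext B) p
            else Wd s b letter (ext B') p) o l = sub (Wd s b letter (ext B)) o l := by
          apply sub_congr
          intro p hp1 hp2
          have : Iv o l p := ⟨hp1, hp2⟩
          simp only [if_pos this]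
        have e3 : sub (fun p => if Iv o l p then Wd s b letter (ext B) p
            else Wd s b letter (ext B') p) (o + l)
            (n - (o + l)) = sub (Wd s b letter (ext B')) (o + l) (n - (o + l)) := by
          apply sub_congr
          intro p hp _
          have : ¬ Iv o l p := fun h => by have := h.2; omega
          simp only [if_neg this]
        have h1 := hone (ext B')
        rw [en, sub_add, sub_add, Nat.zero_add, val_append, val_append, e1, e2, e3, hs,
          ← val_append, ← val_append]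
        rw [en, sub_add, sub_add, Nat.zero_add] at h1
        exact h1)
  have hVW : (Z \ (Finset.range (s * s) \ Z)) = Z := by
    ext i
    rw [Finset.mem_sdiff, Finset.mem_sdiff]
    tauto
  rwa [hVW] at hmain

theorem two_blocks {s t t' t'' : ℕ} (ht : t < 2 * (s * s)) (ht' : t' < 2 * (s * s))
    (ht'' : t'' < 2 * (s * s)) (h1 : cellOf s t = cellOf s t') (h2 : cellOf s t'' = cellOf s t)
    (hne : t ≠ t') : t'' = t ∨ t'' = t' := by
  have hs : 0 < s := by
    rcases Nat.eq_zero_or_pos s with h0 | h0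
    · subst h0; omega
    · exact h0
  have inj1 : ∀ a b, a < s * s → b < s * s → cellOf s a = cellOf s b → a = b := by
    intro a b ha hb h
    unfold cellOf at h
    rwa [if_pos ha, if_pos hb] at h
  have inj2 : ∀ a b, ¬ a < s * s → ¬ b < s * s → a < 2 * (s * s) → b < 2 * (s * s) →
      cellOf s a = cellOf s b → a = b := by
    intro a b ha hb ha2 hb2 h
    unfold cellOf at h
    rw [if_neg ha, if_neg hb] at h
    have h3 : (a - s * s) / s < s := Nat.div_lt_of_lt_mul (by omega)
    have h4 : (b - s * s) / s < s := Nat.div_lt_of_lt_mul (by omega)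
    have e1 : ((a - s * s) % s * s + (a - s * s) / s) / s = (a - s * s) % s := by
      rw [Nat.add_comm, Nat.add_mul_div_right _ _ hs, Nat.div_eq_of_lt h3, Nat.zero_add]
    have e2 : ((b - s * s) % s * s + (b - s * s) / s) / s = (b - s * s) % s := by
      rw [Nat.add_comm, Nat.add_mul_div_right _ _ hs, Nat.div_eq_of_lt h4, Nat.zero_add]
    have e3 : (a - s * s) % s = (b - s * s) % s := by rw [← e1, ← e2, h]
    have e4 : (a - s * s) / s = (b - s * s) / s := by rw [e3] at h; omega
    have e5 := Nat.div_add_mod (a - s * s) s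
    have e6 := Nat.div_add_mod (b - s * s) s
    rw [e3, e4, e6] at e5
    omega
  by_cases c1 : t < s * s <;> by_cases c2 : t' < s * s <;> by_cases c3 : t'' < s * s
  · exact absurd (inj1 _ _ c1 c2 h1) hne
  · exact absurd (inj1 _ _ c1 c2 h1) hne
  · exact Or.inl (inj1 _ _ c3 c1 h2)
  · exact Or.inr (inj2 _ _ c3 c2 ht'' ht' (h2.trans h1))
  · exact Or.inr (inj1 _ _ c3 c2 (h2.trans h1))
  · exact Or.inl (inj2 _ _ c3 c1 ht'' ht h2)
  · exact absurd (inj2 _ _ c1 c2 ht ht' h1) hne
  · exact absurd (inj2 _ _ c1 c2 ht ht' h1) hne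

/-- positions of a set which is avoided by the blocks of the cells of `Z` -/
theorem unaffected {s b : ℕ} {letter : ℕ → Bool → ℕ → A} (hb : 0 < b) {n : ℕ}
    (hn : n = 2 * (s * s) * b) {Z : Finset ℕ} {Q : ℕ → Prop}
    (hZ : ∀ i ∈ Z, ∀ t < 2 * (s * s), cellOf s t = i → BOut Q b t) {B B' : ℕ → Bool}
    (h : ∀ i < s * s, i ∉ Z → B i = B' i) {o l : ℕ} (hol : o + l ≤ n)
    (hQ : ∀ p, o ≤ p → p < o + l → Q p) :
    sub (Wd s b letter B) o l = sub (Wd s b letter B') o l := by
  apply sub_congr
  intro p hp1 hp2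
  unfold Wd
  have hpt : p / b < 2 * (s * s) := by
    rw [Nat.div_lt_iff_lt_mul hb]; omega
  rw [h (cellOf s (p / b)) (cellOf_lt hpt)]
  intro hi
  exact hZ _ hi (p / b) hpt rfl p rfl (hQ p hp1 hp2)

end class2

end Pool.Agent.H39.Indexed
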