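import Pool.Agent.H39.IdxCount

/-!
# Small classes of bit vectors
-/

set_option autoImplicit false

namespace Pool.Agent.H39.Indexed

open List

section basic

variable {N T : Type}

theorem relList_length (E n : ℕ) : ∀ (φ : List (N ⊕ T)) (ys : List (List T)) (o : ℕ),
    (relList E n o φ ys).length * n ≤ E * relLen E n φ ys := by
  intro φ
  induction φ with
  | nil => intro ys o; simp [relList, relLen]
  | cons a φ ih =>
    intro ys o
    cases ys with
    | nil => rcases a with X | t <;> simp [relList, relLen]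
    | cons y ys =>
      rcases a with X | t
      · simp only [relList, relLen, List.length_append]
        have h1 := ih ys (o + y.length)
        by_cases h : n ≤ E * y.length
        · rw [if_pos h, if_pos h, List.length_singleton]
          nlinarith
        · rw [if_neg h, if_neg h, List.length_nil]
          nlinarith
      · simp only [relList, relLen]
        exact ih ys _

/-- the cells touched by an interval -/
def touched (s b o l : ℕ) : Finset ℕ := (Finset.Icc (o / b) ((o + l) / b)).image (cellOf s)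

theorem touched_card {s b o l : ℕ} (hb : 0 < b) : (touched s b o l).card ≤ l / b + 2 := by
  refine le_trans Finset.card_image_le ?_
  rw [Nat.card_Icc]
  have : (o + l) / b ≤ o / b + l / b + 1 := by
    rw [Nat.add_div hb]
    split_ifs <;> omega
  generalize (o + l) / b = u at *
  generalize o / b = v at *
  generalize l / b = x at *
  omega

theorem touched_sub {A : Type} {s b o l : ℕ} {letter : ℕ → Bool → ℕ → A} {B B' : ℕ → Bool}
    (h : ∀ i ∈ touched s b o l, B i = B' i) :
    sub (Wd s b letter B) o l = sub (Wd s b letter B') o l := by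
  apply sub_congr
  intro p h1 h2
  unfold Wd
  rw [h (cellOf s (p / b))]
  unfold touched
  rw [Finset.mem_image]
  refine ⟨p / b, ?_, rfl⟩
  rw [Finset.mem_Icc]
  exact ⟨Nat.div_le_div_right h1, Nat.div_le_div_right (by omega)⟩

/-- the cells of the blocks which contain a change point -/
def cutCells (s b : ℕ) (P : Finset ℕ) : Finset ℕ := P.image (fun e => cellOf s (e / b))

theorem cut_mem {Q : ℕ → Prop} {P : Finset ℕ} {s b t : ℕ} (hb : 0 < b) (h : ChangesAt Q P)
    (h1 : ¬ BIn Q b t) (h2 : ¬ BOut Q b t) : cellOf s t ∈ cutCells s b P := by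
  unfold BIn at h1
  unfold BOut at h2
  push Not at h1 h2
  obtain ⟨p', hp', hQp'⟩ := h1
  obtain ⟨p, hp, hQp⟩ := h2
  obtain ⟨e, he, hek⟩ := exists_change h hb hp hp' hQp hQp'
  unfold cutCells
  rw [Finset.mem_image]
  exact ⟨e, he, by rw [hek]⟩

end basic

section class1

variable {A : Type}

/-- `w` has a derivation with the pattern `(X, o, l, L, tab)`. -/
def HasPat (g : IndexedGrammar A) (w : ℕ → A) (n E E' : ℕ) (X : g.N) (o l : ℕ)
    (L : List (g.N × ℕ × ℕ)) (tab : g.N → Option (ℕ × ℕ)) : Prop :=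
  ∃ (γ : List g.F) (Y : g.N) (f : g.F) (k : ℕ) (φ : List (g.N ⊕ A)) (ys : List (List A)),
    Node g w n γ X o l ∧ (X, Y, f) ∈ g.pushRule ∧ g.S k [f] Y φ ∧
    Forall₂ (symP (g.Dv γ)) φ ys ∧ ys.flatten = sub w o l ∧
    n < E' * (l - relLen E n φ ys) ∧ n < E' * (n - (l - relLen E n φ ys)) ∧
    (∀ z, z ∈ relList E n o φ ys ↔ z ∈ L) ∧
    (∀ Z o' y, Piece o φ ys Z o' y → E * y.length < n → ∃ x, tab Z = some x) ∧
    (∀ Z x, tab Z = some x → ∃ y, Piece o φ ys Z x.1 y ∧ y.length = x.2 ∧ E * x.2 < n)

/-- the set of positions attached to a pattern -/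
def Qp {N : Type} (o l : ℕ) (L : List (N × ℕ × ℕ)) (p : ℕ) : Prop :=
  (o ≤ p ∧ p < o + l) ∧ ∀ z ∈ L, ¬ (z.2.1 ≤ p ∧ p < z.2.1 + z.2.2)

/-- its change points -/
def chP {N : Type} (o l : ℕ) (L : List (N × ℕ × ℕ)) : Finset ℕ :=
  {o, o + l} ∪ ((L.map (fun z => z.2.1)).toFinset ∪ (L.map (fun z => z.2.1 + z.2.2)).toFinset)

theorem chP_card {N : Type} (o l : ℕ) (L : List (N × ℕ × ℕ)) :
    (chP o l L).card ≤ 2 + 2 * L.length := by
  unfold chP
  refine le_trans (Finset.card_union_le _ _) ?_
  have h1 : ({o, o + l} : Finset ℕ).card ≤ 2 := Finset.card_le_two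
  have h2 := Finset.card_union_le (L.map (fun z => z.2.1)).toFinset
    (L.map (fun z => z.2.1 + z.2.2)).toFinset
  have h3 := List.toFinset_card_le (L.map (fun z => z.2.1))
  have h4 := List.toFinset_card_le (L.map (fun z => z.2.1 + z.2.2))
  rw [List.length_map] at h3 h4
  omega

theorem chP_changes {N : Type} (o l : ℕ) (L : List (N × ℕ × ℕ)) : ChangesAt (Qp o l L) (chP o l L) := by
  intro p hp
  unfold chP at hp
  rw [Finset.mem_union, Finset.mem_union, Finset.mem_insert, Finset.mem_singleton,
    List.mem_toFinset, List.mem_toFinset, List.mem_map, List.mem_map] at hp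
  push Not at hp
  obtain ⟨⟨h1, h2⟩, h3, h4⟩ := hp
  unfold Qp
  have e1 : (o ≤ p ∧ p < o + l) ↔ (o ≤ p + 1 ∧ p + 1 < o + l) := by omega
  rw [e1]
  refine and_congr_right (fun _ => ?_)
  refine forall_congr' (fun z => ?_)
  refine forall_congr' (fun hz => ?_)
  have h5 := h3 z hz
  have h6 := h4 z hz
  omega

variable {g : IndexedGrammar A} {H : Type} [Group H] {ev : A → H}

open Classical in
theorem class1_agree (hev : ∀ u ∈ g.language, val ev u = 1) {s b : ℕ}
    {letter : ℕ → Bool → ℕ → A} (hb : 0 < b) (hind : Indep ev s b letter) {n E E' : ℕ}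
    (hn : n = 2 * (s * s) * b) {X : g.N} {o l : ℕ} {L : List (g.N × ℕ × ℕ)}
    {tab : g.N → Option (ℕ × ℕ)} {B B' : ℕ → Bool}
    (hB : HasPat g (Wd s b letter B) n E E' X o l L tab)
    (hB' : HasPat g (Wd s b letter B') n E E' X o l L tab)
    (hone : val ev (sub (Wd s b letter B') 0 n) = 1)
    (hcut : ∀ i ∈ cutCells s b (chP o l L), B i = B' i)
    (htab : ∀ Z x, tab Z = some x → ∀ i ∈ touched s b x.1 x.2, B i = B' i) :
    ∀ i ∈ Vset s b (Qp o l L), B i = B' i := by
  obtain ⟨γ, Y, f, k, φ, ys, h1, h2, h3, h4, h5, _, _, h8, h9, h10⟩ := hB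
  obtain ⟨γ', Y', f', k', φ', ys', h1', h2', h3', h4', h5', _, _, h8', h9', h10'⟩ := hB'
  have hlen : ys.flatten.length = l := by rw [h5, sub_length]
  have hL : LNode g (Wd s b letter B) n γ φ ys o l := by
    have hD : g.Dv (f :: γ) Y (sub (Wd s b letter B) o l) := g.Dv_of_S (σ := [f]) h3 ⟨ys, h4, h5.symm⟩
    exact Node.skel (Node.push h1 h2 hD) h3 h4 h5
  have hL' : LNode g (Wd s b letter B') n γ' φ' ys' o l := by
    have hD : g.Dv (f' :: γ') Y' (sub (Wd s b letter B') o l) :=
      g.Dv_of_S (σ := [f']) h3' ⟨ys', h4', h5'.symm⟩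
    exact Node.skel (Node.push h1' h2' hD) h3' h4' h5'
  obtain ⟨z, hz1, hz2⟩ := cross (ev := ev) (γ := γ) (γ' := γ') (w := Wd s b letter B)
    (w' := Wd s b letter B') (E := E) (n := n) φ ys o h4 (by rw [hlen]; exact h5)
    (by
      rintro ⟨Z, o', l'⟩ hz
      have hz' := (h8' _).2 ((h8 _).1 hz)
      rw [mem_relList] at hz'
      obtain ⟨y, c1, c2, _⟩ := hz'
      obtain ⟨c3, _, _, _⟩ := hL'.piece c1
      rw [c2] at c3
      exact c3.2.1)
    (by
      intro Z o' y hp hE
      obtain ⟨x, hx⟩ := h9 Z o' y hp hE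
      obtain ⟨y1, c1, c2, _⟩ := h10 Z x hx
      obtain ⟨y1', c1', c2', _⟩ := h10' Z x hx
      obtain ⟨d1, d2, _, _⟩ := hL.piece hp
      obtain ⟨e1, e2, _, _⟩ := hL.piece c1
      obtain ⟨f1, f2, _, _⟩ := hL'.piece c1'
      refine ⟨y1', by rw [f2]; exact f1.2.1, ?_⟩
      have v1 : val ev y = val ev y1 := by
        have := Node.val_eq hev e1 d1.2.1
        rw [← d2, ← e2] at this
        exact this
      rw [v1, f2, e2, c2, c2', touched_sub (htab Z x hx)])
  rw [hlen] at hz2
  have hDz : g.Dv γ' X z := g.Dv_push h2 (g.Dv_of_S (σ := [f]) h3 hz1)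
  have hval := Node.val_eq hev h1' hDz
  rw [hz2] at hval
  have hol := h1.1
  refine mix_lemma (ev := ev) hb hind (Q := Qp o l L) ?_ ?_
  · intro t ht hin hout
    exact hcut _ (cut_mem hb (chP_changes o l L) hin hout)
  · rw [← hn]
    have en : n = o + (l + (n - (o + l))) := by omega
    have e1 : sub (fun p => if Qp o l L p then Wd s b letter B p else Wd s b letter B' p) 0 o =
        sub (Wd s b letter B') 0 o := by
      apply sub_congr
      intro p _ hp
      have : ¬ Qp o l L p := fun h => by have := h.1.1; omega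
      simp only [if_neg this]
    have e2 : sub (fun p => if Qp o l L p then Wd s b letter B p else Wd s b letter B' p) o l =
        sub (fun p => if Qloc E n o φ ys p then Wd s b letter B p else Wd s b letter B' p) o l := by
      apply sub_congr
      intro p hp1 hp2
      have : Qp o l L p ↔ Qloc E n o φ ys p := by
        unfold Qp Qloc
        constructor
        · intro h z hz
          exact h.2 z ((h8 z).1 hz)
        · intro h
          exact ⟨⟨hp1, hp2⟩, fun z hz => h z ((h8 z).2 hz)⟩
      simp only [this]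
    have e3 : sub (fun p => if Qp o l L p then Wd s b letter B p else Wd s b letter B' p) (o + l)
        (n - (o + l)) = sub (Wd s b letter B') (o + l) (n - (o + l)) := by
      apply sub_congr
      intro p hp _
      have : ¬ Qp o l L p := fun h => by have := h.1.2; omega
      simp only [if_neg this]
    rw [en, sub_add, sub_add, Nat.zero_add, val_append, val_append, e1, e2, e3, hval, ← val_append,
      ← val_append]
    rw [en, sub_add, sub_add, Nat.zero_add] at hone
    exact hone

end class1

end Pool.Agent.H39.Indexed
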