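import Pool.Agent.H39.IdxTree

/-!
# No good word

The deterministic core of the argument.
-/

set_option autoImplicit false

namespace Pool.Agent.H39.Indexed

open List

section heavy

variable {N T : Type}

theorem piece_bound {P : N → List T → Prop} {K m : ℕ} (hKm : K ≤ m) :
    ∀ (β : List (N ⊕ T)) (ys : List (List T)) (o : ℕ), Forall₂ (symP P) β ys →
    (∀ Z o' y, Piece o β ys Z o' y → K * y.length ≤ m) →
    K * ys.flatten.length ≤ β.length * m := by
  intro β
  induction β with
  | nil => intro ys o h _; cases h; simp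
  | cons a β ih =>
    intro ys o h hp
    cases h with
    | @cons _ y _ ys h1 h2 =>
      rw [List.flatten_cons, List.length_append, List.length_cons]
      rcases a with X | t
      · have h3 := ih ys (o + y.length) h2 (fun Z o' y' h => hp Z o' y' (Or.inr h))
        have h4 := hp X o y (Or.inl ⟨rfl, rfl, rfl⟩)
        nlinarith
      · have h3 := ih ys (o + y.length) h2 (fun Z o' y' h => hp Z o' y' h)
        have : y = [t] := h1
        subst this
        rw [List.length_singleton]
        nlinarith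

theorem heavy_copy {P : N → List T → Prop} {K l : ℕ} {β : List (N ⊕ T)} {ys : List (List T)} {o : ℕ}
    (hf : Forall₂ (symP P) β ys) (hl : ys.flatten.length = l) (hK : β.length ≤ K) (hKl : K < l) :
    ∃ Z o' y, Piece o β ys Z o' y ∧ l ≤ K * y.length := by
  by_contra hcon
  push Not at hcon
  have h1 := piece_bound (K := K) (m := l - 1) (by omega) β ys o hf
    (fun Z o' y h => by have := hcon Z o' y h; omega)
  rw [hl] at h1
  have h2 : β.length * (l - 1) ≤ K * (l - 1) := Nat.mul_le_mul_right _ hK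
  have h3 : K * l ≤ K * (l - 1) := le_trans h1 h2
  rcases Nat.eq_zero_or_pos K with hK0 | hK0
  · subst hK0
    have : β = [] := List.length_eq_zero_iff.1 (by omega)
    subst this
    cases hf
    simp at hl
    omega
  · have := Nat.le_of_mul_le_mul_left h3 hK0
    omega

end heavy

section core

variable {A : Type} {g : IndexedGrammar A} {w : ℕ → A} {n : ℕ}

theorem sum_le_of_forall {α : Type} {f : α → ℕ} {Λ m : ℕ} : ∀ (R : List α),
    (∀ a ∈ R, Λ * f a ≤ m) → Λ * (R.map f).sum ≤ R.length * m := by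
  intro R
  induction R with
  | nil => intro _; simp
  | cons a R ih =>
    intro h
    have h1 := h a (List.mem_cons_self)
    have h2 := ih (fun b hb => h b (List.mem_cons_of_mem _ hb))
    rw [List.map_cons, List.sum_cons, List.length_cons]
    nlinarith

theorem heavy_push [Fintype g.N] {H : Type} [Group H] {ev : A → H}
    (hev : ∀ u ∈ g.language, val ev u = 1) {Λ T E E' E₂ : ℕ}
    (hn : 0 < n) (hΛ2 : 2 * Fintype.card g.N + 1 ≤ Λ) (hΛ3 : 4 ≤ Λ) (hT : 1 ≤ T)
    (hE' : 4 * T ≤ E') (hE2 : E ≤ E₂) (hE2' : 2 ≤ E₂)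
    (good2d : ∀ o l o' l', o + l ≤ o' → o' + l' ≤ n →
      val ev (sub w o l) = val ev (sub w o' l') → E₂ * (l + l') ≤ n ∨ E₂ * (n - (l + l')) ≤ n)
    {γ : List g.F} {ψ : List (g.N ⊕ A)} {ys : List (List A)} {o l : ℕ}
    (h : LNode g w n γ ψ ys o l) (hTl : n ≤ T * l)
    (hsmall : E' * (l - relLen E n ψ ys) ≤ n) :
    ∃ Z o' y, Piece o ψ ys Z o' y ∧ l ≤ Λ * y.length := by
  by_contra hcon
  push Not at hcon
  have hl0 : 0 < l := by
    rcases Nat.eq_zero_or_pos l with h0 | h0
    · subst h0; simp at hTl; omega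
    · exact h0
  have hln : l ≤ n := by have := h.1; omega
  set R := relList E n o ψ ys with hR
  have hmem : ∀ z ∈ R, ∃ y, Piece o ψ ys z.1 z.2.1 y ∧ y.length = z.2.2 ∧ n ≤ E * z.2.2 := by
    rintro ⟨Z, o', l'⟩ hz
    exact (mem_relList E n ψ ys o Z o' l').1 hz
  have hsmallz : ∀ z ∈ R, Λ * z.2.2 < l := by
    intro z hz
    obtain ⟨y, h1, h2, _⟩ := hmem z hz
    rw [← h2]; exact hcon _ _ _ h1
  have hpair := relList_pairwise E n ψ ys o
  rw [← hR] at hpair
  have hdist : R.Pairwise (fun a b => a.1 ≠ b.1) := by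
    refine hpair.imp_of_mem ?_
    intro a b ha hb hab hlab
    obtain ⟨ya, ha1, ha2, ha3⟩ := hmem a ha
    obtain ⟨yb, hb1, hb2, hb3⟩ := hmem b hb
    obtain ⟨na, -, -, -⟩ := h.piece ha1
    obtain ⟨nb, -, -, hbl⟩ := h.piece hb1
    rw [ha2] at na
    rw [hb2] at nb hbl
    rw [hlab] at na
    have hv := Node.val_eq hev nb na.2.1
    have hol := h.1
    have := good2d _ _ _ _ hab (by omega) hv
    have s1 := hsmallz a ha
    have s2 := hsmallz b hb
    rcases this with h3 | h3
    · have : E * (a.2.2 + b.2.2) ≤ E₂ * (a.2.2 + b.2.2) := Nat.mul_le_mul_right _ hE2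
      nlinarith
    · have h4 : 4 * a.2.2 ≤ Λ * a.2.2 := Nat.mul_le_mul_right _ hΛ3
      have h5 : 4 * b.2.2 ≤ Λ * b.2.2 := Nat.mul_le_mul_right _ hΛ3
      have h6 : 2 * (n - (a.2.2 + b.2.2)) ≤ E₂ * (n - (a.2.2 + b.2.2)) := Nat.mul_le_mul_right _ hE2'
      omega
  have hlen : R.length ≤ Fintype.card g.N := by
    have : (R.map (fun z => z.1)).Nodup := by
      rw [List.Nodup, List.pairwise_map]; exact hdist
    have h2 := this.length_le_card
    rwa [List.length_map] at h2
  have hsum : Λ * relLen E n ψ ys ≤ Fintype.card g.N * l := by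
    rw [← relList_sum E n ψ ys o, ← hR]
    refine le_trans (sum_le_of_forall R (fun z hz => le_of_lt (hsmallz z hz))) ?_
    exact Nat.mul_le_mul_right _ hlen
  have hrel : l ≤ 2 * relLen E n ψ ys := by
    have h1 : 4 * T * (l - relLen E n ψ ys) ≤ T * l :=
      le_trans (Nat.mul_le_mul_right _ hE') (le_trans hsmall hTl)
    have h2 : 4 * (l - relLen E n ψ ys) ≤ l := by
      have : T * (4 * (l - relLen E n ψ ys)) ≤ T * l := by
        calc T * (4 * (l - relLen E n ψ ys)) = 4 * T * (l - relLen E n ψ ys) := by ring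
          _ ≤ T * l := h1
      exact Nat.le_of_mul_le_mul_left this (by omega)
    omega
  have h3 : Λ * l ≤ 2 * Fintype.card g.N * l := by
    calc Λ * l ≤ Λ * (2 * relLen E n ψ ys) := Nat.mul_le_mul_left _ hrel
      _ = 2 * (Λ * relLen E n ψ ys) := by ring
      _ ≤ 2 * (Fintype.card g.N * l) := Nat.mul_le_mul_left _ hsum
      _ = 2 * Fintype.card g.N * l := by ring
  have h4 := Nat.le_of_mul_le_mul_right h3 hl0
  omega

/-- a child of a level node with a macroscopic share -/
theorem pieces_child {R : g.N → List A → Prop} {γ : List g.F} {ψ : List (g.N ⊕ A)}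
    {ys : List (List A)} {o l Λ : ℕ} (h : LNode g w n γ ψ ys o l)
    (hR : ∀ Z o' y, Piece o ψ ys Z o' y → R Z y)
    (hh : ∃ Z o' y, Piece o ψ ys Z o' y ∧ l ≤ Λ * y.length) :
    ∃ Z o' l', Node g w n γ Z o' l' ∧ R Z (sub w o' l') ∧ o ≤ o' ∧ o' + l' ≤ o + l ∧ l ≤ Λ * l' := by
  obtain ⟨Z, o', y, h1, h2⟩ := hh
  obtain ⟨h3, h4, h5, h6⟩ := h.piece h1
  refine ⟨Z, o', y.length, h3, ?_, h5, h6, h2⟩
  rw [← h4]
  exact hR _ _ _ h1

/-- the base level: skeletons -/
theorem main_level [Fintype g.N] [DecidableEq g.N] {H : Type} [Group H] {ev : A → H}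
    (hev : ∀ u ∈ g.language, val ev u = 1) {K Λ T E E' E₂ : ℕ}
    (hK : ∀ X β, (X, β) ∈ g.copyRule → β.length ≤ K)
    (hK' : ∀ X f β, (X, f, β) ∈ g.popRule → β.length ≤ K)
    (hΛ1 : K ≤ Λ) (hΛ2 : 2 * Fintype.card g.N + 1 ≤ Λ) (hΛ3 : 4 ≤ Λ)
    (hT : 2 * (2 * Λ) ^ (Fintype.card g.N + 1) ≤ T)
    (hE' : 4 * T ≤ E') (hE : 4 * K * T + 1 ≤ E) (hE2 : E ≤ E₂)
    (hE2' : 2 * (2 * Λ) ^ (Fintype.card g.N + 1) ≤ E₂)
    (hn : 2 * T * K < n)
    (good1 : ∀ (γ : List g.F) X Y f k φ ys o l, Node g w n γ X o l → (X, Y, f) ∈ g.pushRule →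
      g.S k [f] Y φ → Forall₂ (symP (g.Dv γ)) φ ys → ys.flatten = sub w o l →
      E' * (l - relLen E n φ ys) ≤ n ∨ E' * (n - (l - relLen E n φ ys)) ≤ n)
    (good2n : ∀ o l o' l', o ≤ o' → o' + l' ≤ o + l → o + l ≤ n → 2 * l ≤ n →
      val ev (sub w o l) = val ev (sub w o' l') → E₂ * (l - l') ≤ n)
    (good2d : ∀ o l o' l', o + l ≤ o' → o' + l' ≤ n →
      val ev (sub w o l) = val ev (sub w o' l') → E₂ * (l + l') ≤ n ∨ E₂ * (n - (l + l')) ≤ n) :
    ∀ J γ f Y φ ys o l, g.S J [f] Y φ → Forall₂ (symP (g.Dv γ)) φ ys → ys.flatten = sub w o l →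
      Node g w n (f :: γ) Y o l → E' * relLen E n φ ys ≤ n → n < 2 * l → False := by
  intro J
  induction J using Nat.strong_induction_on with
  | _ J IH =>
  intro γ f Y φ ys o l hS hf hfl hnode hrel hl
  have hn0 : 0 < n := by omega
  have hPow : 1 ≤ (2 * Λ) ^ (Fintype.card g.N + 1) := Nat.one_le_pow _ _ (by omega)
  have hT1 : 1 ≤ T := by omega
  let LN : ℕ → g.N → ℕ → ℕ → Prop := fun j X o l => Node g w n (f :: γ) X o l ∧ j ≤ J ∧
    ∃ φ ys, g.S j [f] X φ ∧ Forall₂ (symP (g.Dv γ)) φ ys ∧ ys.flatten = sub w o l ∧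
      E' * relLen E n φ ys ≤ n
  refine exhaustion n Λ E₂ T LN hT hE2' (by omega) ?_ ?_ J Y o l
    ⟨hnode, le_rfl, φ, ys, hS, hf, hfl, hrel⟩ hl
  · -- heavy child
    rintro j X o l ⟨hx, hj, φ, ys, hS, hf, hfl, hrel⟩ hTl
    have hlen : ys.flatten.length = l := by rw [hfl, sub_length]
    cases j with
    | zero => exact absurd hS.1 (by simp)
    | succ j =>
      rcases hS with ⟨h0, _⟩ | ⟨_, ⟨β, h1, h2⟩ | ⟨Z, f', h1, h2⟩ | ⟨f', σ', β, h0, h1, h2⟩⟩
      · exact absurd h0 (by simp)
      · -- copy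
        obtain ⟨ys', h3, h4, h5⟩ := group_level (γ := γ) (f := f) (j := j)
          (P := fun φ ys => E' * relLen E n φ ys ≤ n) (by
            intro φ₁ φ₂ ys₁ ys₂ hl h
            rw [relLen_append E n φ₁ ys₁ φ₂ ys₂ hl] at h
            constructor
            · exact le_trans (Nat.mul_le_mul_left _ (by omega)) h
            · exact le_trans (Nat.mul_le_mul_left _ (by omega)) h) β φ ys h2 hf hrel
        have hL : LNode g w n (f :: γ) β ys' o l := Node.copy hx h1 h3 (by rw [h4, hfl])
        have hKl : K < l := by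
          by_contra hcon
          push Not at hcon
          have : T * l ≤ T * K := Nat.mul_le_mul_left _ hcon
          nlinarith
        obtain ⟨Z, o', y, hp, hy⟩ := heavy_copy (o := o) h3 (by rw [h4, hlen]) (hK _ _ h1) hKl
        obtain ⟨Z, o', l', c1, c2, c3, c4, c5⟩ := pieces_child (Λ := Λ) hL
          (R := fun Z y => ∃ φ' ys'', g.S j [f] Z φ' ∧ Forall₂ (symP (g.Dv γ)) φ' ys'' ∧
            ys''.flatten = y ∧ E' * relLen E n φ' ys'' ≤ n)
          (fun Z o' y h => h5 _ _ _ _ h)
          ⟨Z, o', y, hp, le_trans hy (Nat.mul_le_mul_right _ hΛ1)⟩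
        exact ⟨j, by omega, Z, o', l', ⟨c1, by omega, c2⟩, c3, c4, c5⟩
      · -- push
        obtain ⟨ψ, h6, h7⟩ := g.S_factor (σ := [f']) (τ := [f]) h2
        obtain ⟨ys', h3, h4, h5⟩ := group_level (γ := γ) (f := f) (j := j)
          (P := fun φ ys => E' * relLen E n φ ys ≤ n) (by
            intro φ₁ φ₂ ys₁ ys₂ hl h
            rw [relLen_append E n φ₁ ys₁ φ₂ ys₂ hl] at h
            constructor
            · exact le_trans (Nat.mul_le_mul_left _ (by omega)) h
            · exact le_trans (Nat.mul_le_mul_left _ (by omega)) h) ψ φ ys h7 hf hrel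
        have hfl' : ys'.flatten = sub w o l := by rw [h4, hfl]
        have hDZ : g.Dv (f' :: f :: γ) Z (sub w o l) :=
          g.Dv_of_S (σ := [f']) h6 ⟨ys', h3, hfl'.symm⟩
        have hnodeZ : Node g w n (f' :: f :: γ) Z o l := Node.push hx h1 hDZ
        have hL : LNode g w n (f :: γ) ψ ys' o l := Node.skel hnodeZ h6 h3 hfl'
        rcases good1 (f :: γ) X Z f' j ψ ys' o l hx h1 h6 h3 hfl' with hsm | hbig
        · obtain ⟨Z', o', l', c1, c2, c3, c4, c5⟩ := pieces_child (Λ := Λ) hL
            (R := fun Z y => ∃ φ' ys'', g.S j [f] Z φ' ∧ Forall₂ (symP (g.Dv γ)) φ' ys'' ∧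
              ys''.flatten = y ∧ E' * relLen E n φ' ys'' ≤ n)
            (fun Z o' y h => h5 _ _ _ _ h)
            (heavy_push hev hn0 hΛ2 hΛ3 hT1 hE' hE2 (by omega) good2d hL hTl hsm)
          exact ⟨j, by omega, Z', o', l', ⟨c1, by omega, c2⟩, c3, c4, c5⟩
        · exfalso
          have hln : l ≤ n := by have := hx.1; omega
          have hrl : relLen E n ψ ys' ≤ l := by
            have := relLen_le E n ψ ys'
            rwa [hfl', sub_length] at this
          refine IH j (by omega) (f :: γ) f' Z ψ ys' o l h6 h3 hfl' hnodeZ ?_ ?_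
          · exact le_trans (Nat.mul_le_mul_left _ (by omega)) hbig
          · have h8 : 4 * (n - (l - relLen E n ψ ys')) ≤ n := by
              refine le_trans (Nat.mul_le_mul_right _ ?_) hbig
              omega
            omega
      · -- pop
        exfalso
        rw [List.cons.injEq] at h0
        obtain ⟨rfl, rfl⟩ := h0
        have hφ : φ = β := by
          have : ∀ (β φ : List (g.N ⊕ A)), listS (g.S j []) β φ → φ = β := by
            intro β
            induction β with
            | nil => intro φ h; exact listS_nil.1 h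
            | cons a β ih =>
              intro φ h
              rw [listS_cons] at h
              obtain ⟨u, v, g1, g2, rfl⟩ := h
              rw [ih v g2]
              rcases a with X | t
              · have g3 : g.S j [] X u := g1
                have : u = [Sum.inl X] := by
                  cases j with
                  | zero => exact g3.2
                  | succ j =>
                    rcases g3 with ⟨_, g4⟩ | ⟨g4, _⟩
                    · exact g4
                    · exact absurd rfl g4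
                rw [this]; rfl
              · have : u = [Sum.inr t] := g1
                rw [this]; rfl
          exact this β φ h2
        subst hφ
        have hb := irr_bound E n φ ys hf
        rw [hlen] at hb
        have hKb := hK' _ _ _ h1
        have e1 : φ.length * (n + E) ≤ K * (n + E) := Nat.mul_le_mul_right _ hKb
        -- numeric contradiction
        have e2 : 4 * T * relLen E n φ ys ≤ n := le_trans (Nat.mul_le_mul_right _ hE') hrel
        have e3 : 4 * T * (E * l) ≤ E * n + 4 * T * K * n + 4 * T * K * E := by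
          calc 4 * T * (E * l) ≤ 4 * T * (E * relLen E n φ ys + K * (n + E)) :=
                Nat.mul_le_mul_left _ (le_trans hb (Nat.add_le_add_left e1 _))
            _ = E * (4 * T * relLen E n φ ys) + 4 * T * K * n + 4 * T * K * E := by ring
            _ ≤ _ := by
              have := Nat.mul_le_mul_left E e2
              omega
        have e4 : 4 * E * n ≤ 4 * T * (E * l) := by
          calc 4 * E * n ≤ 4 * E * (T * l) := Nat.mul_le_mul_left _ hTl
            _ = _ := by ring
        have e5 : 4 * T * K * n ≤ E * n := Nat.mul_le_mul_right _ (by nlinarith)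
        have e6 : 4 * T * K * E < 2 * n * E := by
          have : 4 * T * K < 2 * n := by linarith
          exact Nat.mul_lt_mul_of_pos_right this (by omega)
        nlinarith
  · -- same labels
    rintro j X o l j' o' l' ⟨hx, _⟩ ⟨hx', _⟩ h1 h2 h3
    exact good2n o l o' l' h1 h2 hx.1 h3 (Node.val_eq hev hx' hx.2.1)

/-- the root level -/
theorem no_good_word [Fintype g.N] [DecidableEq g.N] {H : Type} [Group H] {ev : A → H}
    (hev : ∀ u ∈ g.language, val ev u = 1) {K Λ T E E' E₂ : ℕ}
    (hK : ∀ X β, (X, β) ∈ g.copyRule → β.length ≤ K)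
    (hK' : ∀ X f β, (X, f, β) ∈ g.popRule → β.length ≤ K)
    (hΛ1 : K ≤ Λ) (hΛ2 : 2 * Fintype.card g.N + 1 ≤ Λ) (hΛ3 : 4 ≤ Λ)
    (hT : 2 * (2 * Λ) ^ (Fintype.card g.N + 1) ≤ T)
    (hE' : 4 * T ≤ E') (hE : 4 * K * T + 1 ≤ E) (hE2 : E ≤ E₂)
    (hE2' : 2 * (2 * Λ) ^ (Fintype.card g.N + 1) ≤ E₂)
    (hn : 2 * T * K < n)
    (good1 : ∀ (γ : List g.F) X Y f k φ ys o l, Node g w n γ X o l → (X, Y, f) ∈ g.pushRule →
      g.S k [f] Y φ → Forall₂ (symP (g.Dv γ)) φ ys → ys.flatten = sub w o l →
      E' * (l - relLen E n φ ys) ≤ n ∨ E' * (n - (l - relLen E n φ ys)) ≤ n)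
    (good2n : ∀ o l o' l', o ≤ o' → o' + l' ≤ o + l → o + l ≤ n → 2 * l ≤ n →
      val ev (sub w o l) = val ev (sub w o' l') → E₂ * (l - l') ≤ n)
    (good2d : ∀ o l o' l', o + l ≤ o' → o' + l' ≤ n →
      val ev (sub w o l) = val ev (sub w o' l') → E₂ * (l + l') ≤ n ∨ E₂ * (n - (l + l')) ≤ n)
    (hw : sub w 0 n ∈ g.language) : False := by
  have hn0 : 0 < n := by omega
  have hPow : 1 ≤ (2 * Λ) ^ (Fintype.card g.N + 1) := Nat.one_le_pow _ _ (by omega)
  have hT1 : 1 ≤ T := by omega
  let LN : ℕ → g.N → ℕ → ℕ → Prop := fun j X o l => Node g w n [] X o l ∧ g.D j [] X (sub w o l)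
  obtain ⟨k, hk⟩ := g.mem_language_iff.1 hw
  have hroot : Node g w n [] g.start 0 n := by
    refine ⟨by omega, ⟨k, hk⟩, ?_⟩
    intro x hx
    have : n - (0 + n) = 0 := by omega
    rw [this, sub_zero, sub_zero, List.append_nil, List.nil_append]
    exact g.mem_language_iff.2 hx
  refine exhaustion n Λ E₂ T LN hT hE2' (by omega) ?_ ?_ k g.start 0 n ⟨hroot, hk⟩ (by omega)
  · rintro j X o l ⟨hx, hD⟩ hTl
    have hKl : K < l := by
      by_contra hcon
      push Not at hcon
      have : T * l ≤ T * K := Nat.mul_le_mul_left _ hcon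
      nlinarith
    cases j with
    | zero => exact absurd hD (by simp [IndexedGrammar.D])
    | succ j =>
      rcases hD with ⟨β, h1, h2⟩ | ⟨Z, f, h1, h2⟩ | ⟨f, γ', β, h0, h1, h2⟩
      · obtain ⟨ys, h3, h4⟩ := h2
        have h3' : Forall₂ (symP (g.Dv [])) β ys :=
          h3.imp (fun a y => symP_mono (fun X y h => ⟨j, h⟩) a y)
        have hL : LNode g w n [] β ys o l := Node.copy hx h1 h3' h4.symm
        obtain ⟨Z, o', y, hp, hy⟩ := heavy_copy (o := o) h3 (by rw [← h4, sub_length]) (hK _ _ h1) hKl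
        obtain ⟨Z, o', l', c1, c2, c3, c4, c5⟩ := pieces_child (Λ := Λ) hL
          (R := fun Z y => g.D j [] Z y)
          (fun Z o' y h => (Piece_split β ys o Z o' y h3 h).choose_spec.choose_spec.2.2.1)
          ⟨Z, o', y, hp, le_trans hy (Nat.mul_le_mul_right _ hΛ1)⟩
        exact ⟨j, by omega, Z, o', l', ⟨c1, c2⟩, c3, c4, c5⟩
      · obtain ⟨φ, h6, h7⟩ := g.D_factor (σ := [f]) (γ := []) h2
        obtain ⟨ys, h3, h4⟩ := h7
        have h3' : Forall₂ (symP (g.Dv [])) φ ys :=
          h3.imp (fun a y => symP_mono (fun X y h => ⟨j, h⟩) a y)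
        have hDZ : g.Dv [f] Z (sub w o l) := ⟨j, h2⟩
        have hnodeZ : Node g w n [f] Z o l := Node.push hx h1 hDZ
        have hL : LNode g w n [] φ ys o l := Node.skel hnodeZ h6 h3' h4.symm
        rcases good1 [] X Z f j φ ys o l hx h1 h6 h3' h4.symm with hsm | hbig
        · obtain ⟨Z', o', l', c1, c2, c3, c4, c5⟩ := pieces_child (Λ := Λ) hL
            (R := fun Z y => g.D j [] Z y)
            (fun Z o' y h => (Piece_split φ ys o Z o' y h3 h).choose_spec.choose_spec.2.2.1)
            (heavy_push hev hn0 hΛ2 hΛ3 hT1 hE' hE2 (by omega) good2d hL hTl hsm)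
          exact ⟨j, by omega, Z', o', l', ⟨c1, c2⟩, c3, c4, c5⟩
        · exfalso
          have hln : l ≤ n := by have := hx.1; omega
          have hrl : relLen E n φ ys ≤ l := by
            have := relLen_le E n φ ys
            rwa [← h4, sub_length] at this
          refine main_level hev hK hK' hΛ1 hΛ2 hΛ3 hT hE' hE hE2 hE2' hn good1 good2n good2d
            j [] f Z φ ys o l h6 h3' h4.symm hnodeZ ?_ ?_
          · exact le_trans (Nat.mul_le_mul_left _ (by omega)) hbig
          · have h8 : 4 * (n - (l - relLen E n φ ys)) ≤ n := by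
              refine le_trans (Nat.mul_le_mul_right _ ?_) hbig
              omega
            omega
      · exact absurd h0 (by simp)
  · rintro j X o l j' o' l' ⟨hx, _⟩ ⟨hx', _⟩ h1 h2 h3
    exact good2n o l o' l' h1 h2 hx.1 h3 (Node.val_eq hev hx' hx.2.1)

end core

end Pool.Agent.H39.Indexed
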