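import Mathlib

/-!
# The grid lemma

Cells of an `s × s` grid, enumerated once in row-major order and then once in column-major order;
each occurrence occupies a block of `b` consecutive positions.  A set of positions with few
boundary points, which is neither very small nor almost everything, separates the two blocks of
many cells.
-/

set_option autoImplicit false

namespace Pool.Agent.H39.Indexed

open Finset

/-- The cell of block `t`: blocks `t < s * s` enumerate the cells `x * s + y` in row-major order, and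
blocks `s * s + t` enumerate them in column-major order. -/
def cellOf (s t : ℕ) : ℕ := if t < s * s then t else ((t - s * s) % s) * s + (t - s * s) / s

theorem cellOf_row {s x y : ℕ} (hx : x < s) (hy : y < s) : cellOf s (x * s + y) = x * s + y := by
  unfold cellOf
  rw [if_pos]
  calc x * s + y < x * s + s := by omega
    _ = (x + 1) * s := by ring
    _ ≤ s * s := Nat.mul_le_mul_right _ hx

theorem cellOf_col {s x y : ℕ} (hx : x < s) : cellOf s (s * s + (y * s + x)) = x * s + y := by
  unfold cellOf
  rw [if_neg (by omega)]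
  have h1 : s * s + (y * s + x) - s * s = y * s + x := by omega
  rw [h1]
  have h2 : (y * s + x) % s = x := by
    rw [Nat.add_comm, Nat.add_mul_mod_self_right, Nat.mod_eq_of_lt hx]
  have h3 : (y * s + x) / s = y := by
    rw [Nat.add_comm, Nat.add_mul_div_right _ _ (by omega), Nat.div_eq_of_lt hx, Nat.zero_add]
  rw [h2, h3]

theorem cellOf_lt {s t : ℕ} (ht : t < 2 * (s * s)) : cellOf s t < s * s := by
  unfold cellOf
  split_ifs with h
  · exact h
  · have hs : 0 < s := by
      rcases Nat.eq_zero_or_pos s with h0 | h0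
      · subst h0; omega
      · exact h0
    have h1 : (t - s * s) % s < s := Nat.mod_lt _ hs
    have h2 : (t - s * s) / s < s := by
      apply Nat.div_lt_of_lt_mul
      omega
    calc (t - s * s) % s * s + (t - s * s) / s < (t - s * s) % s * s + s := by omega
      _ = ((t - s * s) % s + 1) * s := by ring
      _ ≤ s * s := Nat.mul_le_mul_right _ h1

/-- `Q` changes only at the points of `E`. -/
def ChangesAt (Q : ℕ → Prop) (E : Finset ℕ) : Prop := ∀ p, p + 1 ∉ E → (Q p ↔ Q (p + 1))

/-- a set of positions which changes inside a block `{p | p / c = k}` has a change point there -/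
theorem exists_change {Q : ℕ → Prop} {E : Finset ℕ} (h : ChangesAt Q E) {c k : ℕ} (hc : 0 < c)
    {p p' : ℕ} (hp : p / c = k) (hp' : p' / c = k) (h1 : Q p) (h2 : ¬ Q p') :
    ∃ e ∈ E, e / c = k := by
  by_contra hcon
  push Not at hcon
  have hstep : ∀ q, q / c = k → (q + 1) / c = k → (Q q ↔ Q (q + 1)) := by
    intro q _ hq'
    exact h q (fun hE => hcon _ hE hq')
  have hmono : ∀ d q, q / c = k → (q + d) / c = k → (Q q ↔ Q (q + d)) := by
    intro d
    induction d with
    | zero => intro q _ _; rfl
    | succ d ih =>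
      intro q hq hqd
      have hq1 : (q + d) / c = k := by
        apply le_antisymm
        · rw [← hqd]; exact Nat.div_le_div_right (by omega)
        · rw [← hq]; exact Nat.div_le_div_right (by omega)
      exact (ih q hq hq1).trans (hstep (q + d) hq1 hqd)
  rcases le_total p p' with hle | hle
  · obtain ⟨d, rfl⟩ := Nat.exists_eq_add_of_le hle
    exact h2 ((hmono d p hp hp').1 h1)
  · obtain ⟨d, rfl⟩ := Nat.exists_eq_add_of_le hle
    exact h2 ((hmono d p' hp' hp).2 h1)

/-- block `t` (of length `c`) is contained in `Q` -/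
def BIn (Q : ℕ → Prop) (c t : ℕ) : Prop := ∀ p, p / c = t → Q p

/-- block `t` (of length `c`) is disjoint from `Q` -/
def BOut (Q : ℕ → Prop) (c t : ℕ) : Prop := ∀ p, p / c = t → ¬ Q p

/-- the cells which have one block inside `Q` and one block outside `Q` -/
noncomputable def Vset (s b : ℕ) (Q : ℕ → Prop) : Finset ℕ := by
  classical
  exact (Finset.range (s * s)).filter (fun i => ∃ t t', t < 2 * (s * s) ∧ t' < 2 * (s * s) ∧
    cellOf s t = i ∧ cellOf s t' = i ∧ BIn Q b t ∧ BOut Q b t')

theorem mem_Vset {s b : ℕ} {Q : ℕ → Prop} {i : ℕ} : i ∈ Vset s b Q ↔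
    i < s * s ∧ ∃ t t', t < 2 * (s * s) ∧ t' < 2 * (s * s) ∧
    cellOf s t = i ∧ cellOf s t' = i ∧ BIn Q b t ∧ BOut Q b t' := by
  classical
  unfold Vset
  simp [Finset.mem_filter]

theorem grid_numeric {a b c d x s E : ℕ} (hab : s ≤ a + b + x) (hcd : s ≤ c + d + x)
    (h1 : 2 * s < E * (a + c + x)) (h2 : 2 * s < E * (b + d + x)) (hx : E * x ≤ s) (hE : 2 ≤ E) :
    s * s ≤ 8 * E * (a * d + b * c) := by
  -- the symmetric core
  have core : ∀ a b c d : ℕ, s ≤ a + b + x → s ≤ c + d + x → 2 * s < E * (a + c + x) →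
      2 * s < E * (b + d + x) → s ≤ 2 * a + x → s * s ≤ 8 * E * (a * d + b * c) := by
    intro a b c d hab hcd h1 h2 ha
    zify at *
    have hx2 : (2:ℤ) * x ≤ s := by nlinarith
    by_cases hd : (2:ℤ) * s ≤ 2 * E * d + E * x
    · -- a * d is large
      have e1 : (s:ℤ) ≤ 4 * a := by linarith
      have e2 : (s:ℤ) ≤ 2 * E * d := by linarith
      have e3 : (s:ℤ) * s ≤ (4 * a) * (2 * E * d) :=
        mul_le_mul e1 e2 (by positivity) (by positivity)
      have e4 : (0:ℤ) ≤ 8 * E * (b * c) := by positivity
      nlinarith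
    · push Not at hd
      have e1 : (s:ℤ) ≤ 2 * E * b := by nlinarith
      have e2 : (s:ℤ) ≤ 4 * c := by
        -- c ≥ s - x - d
        have e3 : (E:ℤ) * (4 * c) ≥ E * s := by
          have : (E:ℤ) * s ≤ E * c + E * d + E * x := by nlinarith
          nlinarith
        exact le_of_mul_le_mul_left e3 (by linarith)
      have e3 : (s:ℤ) * s ≤ (2 * E * b) * (4 * c) :=
        mul_le_mul e1 e2 (by positivity) (by positivity)
      have e4 : (0:ℤ) ≤ 8 * E * (a * d) := by positivity
      nlinarith
  by_cases ha : s ≤ 2 * a + x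
  · exact core a b c d hab hcd h1 h2 ha
  · have := core b a d c (by omega) (by omega) h2 h1 (by omega)
    calc s * s ≤ 8 * E * (b * c + a * d) := this
      _ = 8 * E * (a * d + b * c) := by ring

/-- The grid lemma. -/
theorem grid {s b r E' : ℕ} {Q : ℕ → Prop} [DecidablePred Q] {E : Finset ℕ} (hb : 0 < b)
    (hE : E.card ≤ r)
    (hQ : ChangesAt Q E) (hr : E' * r ≤ s) (hE' : 2 ≤ E')
    (h1 : 2 * (s * s) * b < E' * ((Finset.range (2 * (s * s) * b)).filter Q).card)
    (h2 : 2 * (s * s) * b < E' * ((Finset.range (2 * (s * s) * b)).filter (fun p => ¬ Q p)).card) :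
    s * s ≤ 8 * E' * (Vset s b Q).card := by
  classical
  have hs : 0 < s := by
    rcases Nat.eq_zero_or_pos s with h0 | h0
    · subst h0; simp at h1
    · exact h0
  set c := b * s with hc
  have hc0 : 0 < c := Nat.mul_pos hb hs
  -- superblocks
  set In : Finset ℕ := (Finset.range (2 * s)).filter (fun k => BIn Q c k) with hIn
  set Out : Finset ℕ := (Finset.range (2 * s)).filter (fun k => BOut Q c k) with hOut
  set Mx : Finset ℕ := (Finset.range (2 * s)).filter (fun k => ¬ BIn Q c k ∧ ¬ BOut Q c k) with hMx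
  have hMxcard : Mx.card ≤ r := by
    refine le_trans ?_ hE
    refine le_trans (Finset.card_le_card (t := E.image (fun e => e / c)) ?_) Finset.card_image_le
    intro k hk
    rw [hMx, Finset.mem_filter] at hk
    obtain ⟨_, h3, h4⟩ := hk
    unfold BIn at h3
    unfold BOut at h4
    push Not at h3 h4
    obtain ⟨p', hp', hQp'⟩ := h3
    obtain ⟨p, hp, hQp⟩ := h4
    obtain ⟨e, he, hek⟩ := exists_change hQ hc0 hp hp' hQp hQp'
    exact Finset.mem_image.2 ⟨e, he, hek⟩
  have hn : 2 * (s * s) * b = (2 * s) * c := by rw [hc]; ring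
  have hcount : ∀ (P : ℕ → Prop) [DecidablePred P] (K : Finset ℕ),
      (∀ p, p < 2 * (s * s) * b → P p → p / c ∈ K) →
      ((Finset.range (2 * (s * s) * b)).filter P).card ≤ K.card * c := by
    intro P _ K hK
    refine le_trans (Finset.card_le_card (t := K.biUnion (fun k => Finset.Ico (k * c) (k * c + c))) ?_) ?_
    · intro p hp
      rw [Finset.mem_filter, Finset.mem_range] at hp
      rw [Finset.mem_biUnion]
      refine ⟨p / c, hK p hp.1 hp.2, ?_⟩
      rw [Finset.mem_Ico]
      have h3 := Nat.div_add_mod p c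
      have h4 := Nat.mod_lt p hc0
      constructor
      · rw [Nat.mul_comm]; omega
      · rw [Nat.mul_comm (p / c) c]; omega
    · refine le_trans Finset.card_biUnion_le ?_
      rw [Finset.sum_const_nat (m := c)]
      intro k _
      simp
  have hQcard : ((Finset.range (2 * (s * s) * b)).filter Q).card ≤ (In.card + Mx.card) * c := by
    refine le_trans (hcount Q (In ∪ Mx) ?_) (Nat.mul_le_mul_right _ (Finset.card_union_le _ _))
    intro p hp hQp
    have hk : p / c < 2 * s := by
      rw [Nat.div_lt_iff_lt_mul hc0]; rw [hn] at hp; exact hp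
    rw [Finset.mem_union, hIn, hMx, Finset.mem_filter, Finset.mem_filter, Finset.mem_range]
    by_cases h3 : BIn Q c (p / c)
    · exact Or.inl ⟨hk, h3⟩
    · exact Or.inr ⟨hk, h3, fun h4 => h4 p rfl hQp⟩
  have hQcard' : ((Finset.range (2 * (s * s) * b)).filter (fun p => ¬ Q p)).card
      ≤ (Out.card + Mx.card) * c := by
    refine le_trans (hcount (fun p => ¬ Q p) (Out ∪ Mx) ?_)
      (Nat.mul_le_mul_right _ (Finset.card_union_le _ _))
    intro p hp hQp
    have hk : p / c < 2 * s := by
      rw [Nat.div_lt_iff_lt_mul hc0]; rw [hn] at hp; exact hp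
    rw [Finset.mem_union, hOut, hMx, Finset.mem_filter, Finset.mem_filter, Finset.mem_range]
    by_cases h3 : BOut Q c (p / c)
    · exact Or.inl ⟨hk, h3⟩
    · exact Or.inr ⟨hk, fun h4 => hQp (h4 p rfl), h3⟩
  -- split In and Out in rows and columns
  set Ra := (Finset.range s).filter (fun k => BIn Q c k) with hRa
  set Rb := (Finset.range s).filter (fun k => BOut Q c k) with hRb
  set Cc := (Finset.range s).filter (fun k => BIn Q c (s + k)) with hCc
  set Cd := (Finset.range s).filter (fun k => BOut Q c (s + k)) with hCd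
  have hInc : In.card ≤ Ra.card + Cc.card := by
    have : In ⊆ Ra ∪ Cc.image (fun k => s + k) := by
      intro k hk
      rw [hIn, Finset.mem_filter, Finset.mem_range] at hk
      rw [Finset.mem_union, hRa, Finset.mem_filter, Finset.mem_range, Finset.mem_image]
      by_cases hks : k < s
      · exact Or.inl ⟨hks, hk.2⟩
      · refine Or.inr ⟨k - s, ?_, by omega⟩
        rw [hCc, Finset.mem_filter, Finset.mem_range]
        refine ⟨by omega, ?_⟩
        have : s + (k - s) = k := by omega
        rw [this]; exact hk.2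
    refine le_trans (Finset.card_le_card this) (le_trans (Finset.card_union_le _ _) ?_)
    exact Nat.add_le_add_left Finset.card_image_le _
  have hOutc : Out.card ≤ Rb.card + Cd.card := by
    have : Out ⊆ Rb ∪ Cd.image (fun k => s + k) := by
      intro k hk
      rw [hOut, Finset.mem_filter, Finset.mem_range] at hk
      rw [Finset.mem_union, hRb, Finset.mem_filter, Finset.mem_range, Finset.mem_image]
      by_cases hks : k < s
      · exact Or.inl ⟨hks, hk.2⟩
      · refine Or.inr ⟨k - s, ?_, by omega⟩
        rw [hCd, Finset.mem_filter, Finset.mem_range]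
        refine ⟨by omega, ?_⟩
        have : s + (k - s) = k := by omega
        rw [this]; exact hk.2
    refine le_trans (Finset.card_le_card this) (le_trans (Finset.card_union_le _ _) ?_)
    exact Nat.add_le_add_left Finset.card_image_le _
  have hrow : s ≤ Ra.card + Rb.card + Mx.card := by
    have : Finset.range s ⊆ Ra ∪ Rb ∪ Mx := by
      intro k hk
      rw [Finset.mem_range] at hk
      rw [Finset.mem_union, Finset.mem_union, hRa, hRb, hMx, Finset.mem_filter, Finset.mem_filter,
        Finset.mem_filter, Finset.mem_range, Finset.mem_range]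
      by_cases h3 : BIn Q c k
      · exact Or.inl (Or.inl ⟨hk, h3⟩)
      · by_cases h4 : BOut Q c k
        · exact Or.inl (Or.inr ⟨hk, h4⟩)
        · exact Or.inr ⟨by omega, h3, h4⟩
    calc s = (Finset.range s).card := (Finset.card_range s).symm
      _ ≤ (Ra ∪ Rb ∪ Mx).card := Finset.card_le_card this
      _ ≤ (Ra ∪ Rb).card + Mx.card := Finset.card_union_le _ _
      _ ≤ Ra.card + Rb.card + Mx.card := Nat.add_le_add_right (Finset.card_union_le _ _) _
  have hcol : s ≤ Cc.card + Cd.card + Mx.card := by
    have : Finset.range s ⊆ Cc ∪ Cd ∪ (Mx.image (fun k => k - s)) := by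
      intro k hk
      rw [Finset.mem_range] at hk
      rw [Finset.mem_union, Finset.mem_union, hCc, hCd, Finset.mem_filter, Finset.mem_filter,
        Finset.mem_range, Finset.mem_image]
      by_cases h3 : BIn Q c (s + k)
      · exact Or.inl (Or.inl ⟨hk, h3⟩)
      · by_cases h4 : BOut Q c (s + k)
        · exact Or.inl (Or.inr ⟨hk, h4⟩)
        · refine Or.inr ⟨s + k, ?_, by omega⟩
          rw [hMx, Finset.mem_filter, Finset.mem_range]
          exact ⟨by omega, h3, h4⟩
    calc s = (Finset.range s).card := (Finset.card_range s).symm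
      _ ≤ (Cc ∪ Cd ∪ (Mx.image (fun k => k - s))).card := Finset.card_le_card this
      _ ≤ (Cc ∪ Cd).card + (Mx.image (fun k => k - s)).card := Finset.card_union_le _ _
      _ ≤ Cc.card + Cd.card + Mx.card :=
        Nat.add_le_add (Finset.card_union_le _ _) Finset.card_image_le
  -- numeric hypotheses
  have g1 : 2 * s < E' * (Ra.card + Cc.card + Mx.card) := by
    have h3 : (2 * s) * c < (E' * (Ra.card + Cc.card + Mx.card)) * c := by
      calc (2 * s) * c = 2 * (s * s) * b := hn.symm
        _ < E' * ((Finset.range (2 * (s * s) * b)).filter Q).card := h1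
        _ ≤ E' * ((In.card + Mx.card) * c) := Nat.mul_le_mul_left _ hQcard
        _ ≤ E' * ((Ra.card + Cc.card + Mx.card) * c) :=
          Nat.mul_le_mul_left _ (Nat.mul_le_mul_right _ (by omega))
        _ = _ := by ring
    exact lt_of_mul_lt_mul_right h3 (Nat.zero_le _)
  have g2 : 2 * s < E' * (Rb.card + Cd.card + Mx.card) := by
    have h3 : (2 * s) * c < (E' * (Rb.card + Cd.card + Mx.card)) * c := by
      calc (2 * s) * c = 2 * (s * s) * b := hn.symm
        _ < E' * ((Finset.range (2 * (s * s) * b)).filter (fun p => ¬ Q p)).card := h2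
        _ ≤ E' * ((Out.card + Mx.card) * c) := Nat.mul_le_mul_left _ hQcard'
        _ ≤ E' * ((Rb.card + Cd.card + Mx.card) * c) :=
          Nat.mul_le_mul_left _ (Nat.mul_le_mul_right _ (by omega))
        _ = _ := by ring
    exact lt_of_mul_lt_mul_right h3 (Nat.zero_le _)
  have hxs : E' * Mx.card ≤ s := le_trans (Nat.mul_le_mul_left _ hMxcard) hr
  have hnum := grid_numeric hrow hcol g1 g2 hxs hE'
  refine le_trans hnum (Nat.mul_le_mul_left _ ?_)
  -- the rectangles inside V
  have hinj : ∀ x ∈ Finset.range s ×ˢ Finset.range s, ∀ y ∈ Finset.range s ×ˢ Finset.range s,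
      x.1 * s + x.2 = y.1 * s + y.2 → x = y := by
    rintro ⟨x1, x2⟩ hx ⟨y1, y2⟩ hy h
    rw [Finset.mem_product, Finset.mem_range, Finset.mem_range] at hx hy
    simp only at h hx hy
    have e1 : (x1 * s + x2) / s = x1 := by
      rw [Nat.add_comm, Nat.add_mul_div_right _ _ hs, Nat.div_eq_of_lt hx.2, Nat.zero_add]
    have e2 : (y1 * s + y2) / s = y1 := by
      rw [Nat.add_comm, Nat.add_mul_div_right _ _ hs, Nat.div_eq_of_lt hy.2, Nat.zero_add]
    have e3 : x1 = y1 := by rw [← e1, ← e2, h]
    subst e3
    have e4 : x2 = y2 := by omega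
    rw [e4]
  have hrowblock : ∀ x y p, y < s → p / b = x * s + y → p / c = x := by
    intro x y p hy hp
    rw [hc, ← Nat.div_div_eq_div_mul, hp, Nat.add_comm, Nat.add_mul_div_right _ _ hs,
      Nat.div_eq_of_lt hy, Nat.zero_add]
  have hcolblock : ∀ x y p, x < s → p / b = s * s + (y * s + x) → p / c = s + y := by
    intro x y p hx hp
    have e : s * s + (y * s + x) = x + (s + y) * s := by ring
    rw [hc, ← Nat.div_div_eq_div_mul, hp, e, Nat.add_mul_div_right _ _ hs,
      Nat.div_eq_of_lt hx, Nat.zero_add]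
  have hlt1 : ∀ x y, x < s → y < s → x * s + y < s * s := by
    intro x y hx hy
    calc x * s + y < x * s + s := by omega
      _ = (x + 1) * s := by ring
      _ ≤ s * s := Nat.mul_le_mul_right _ hx
  have hsub : ((Ra ×ˢ Cd) ∪ (Rb ×ˢ Cc)).image (fun z => z.1 * s + z.2) ⊆ Vset s b Q := by
    intro i hi
    rw [Finset.mem_image] at hi
    obtain ⟨⟨x, y⟩, hz, rfl⟩ := hi
    rw [Finset.mem_union, Finset.mem_product, Finset.mem_product] at hz
    rw [mem_Vset]
    rcases hz with ⟨hx, hy⟩ | ⟨hx, hy⟩
    · simp only [hRa, hCd, Finset.mem_filter, Finset.mem_range] at hx hy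
      refine ⟨hlt1 x y hx.1 hy.1, x * s + y, s * s + (y * s + x), ?_, ?_,
        cellOf_row hx.1 hy.1, cellOf_col hx.1, ?_, ?_⟩
      · have := hlt1 x y hx.1 hy.1; omega
      · have := hlt1 y x hy.1 hx.1; omega
      · intro p hp; exact hx.2 p (hrowblock x y p hy.1 hp)
      · intro p hp; exact hy.2 p (hcolblock x y p hx.1 hp)
    · simp only [hRb, hCc, Finset.mem_filter, Finset.mem_range] at hx hy
      refine ⟨hlt1 x y hx.1 hy.1, s * s + (y * s + x), x * s + y, ?_, ?_,
        cellOf_col hx.1, cellOf_row hx.1 hy.1, ?_, ?_⟩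
      · have := hlt1 y x hy.1 hx.1; omega
      · have := hlt1 x y hx.1 hy.1; omega
      · intro p hp; exact hy.2 p (hcolblock x y p hx.1 hp)
      · intro p hp; exact hx.2 p (hrowblock x y p hy.1 hp)
  have hdisj : Disjoint (Ra ×ˢ Cd) (Rb ×ˢ Cc) := by
    rw [Finset.disjoint_left]
    rintro ⟨x, y⟩ h3 h4
    rw [Finset.mem_product] at h3 h4
    simp only [hRa, hRb, Finset.mem_filter, Finset.mem_range] at h3 h4
    have h5 : (x * c) / c = x := Nat.mul_div_cancel _ hc0
    exact h4.1.2 (x * c) h5 (h3.1.2 (x * c) h5)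
  calc Ra.card * Cd.card + Rb.card * Cc.card = ((Ra ×ˢ Cd) ∪ (Rb ×ˢ Cc)).card := by
        rw [Finset.card_union_of_disjoint hdisj, Finset.card_product, Finset.card_product]
    _ = (((Ra ×ˢ Cd) ∪ (Rb ×ˢ Cc)).image (fun z => z.1 * s + z.2)).card := by
        rw [Finset.card_image_of_injOn]
        intro x hx y hy h
        have hsub2 : ∀ z ∈ (Ra ×ˢ Cd) ∪ (Rb ×ˢ Cc), z ∈ Finset.range s ×ˢ Finset.range s := by
          rintro ⟨x, y⟩ hz
          rw [Finset.mem_union, Finset.mem_product, Finset.mem_product] at hz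
          rw [Finset.mem_product]
          rcases hz with ⟨hx, hy⟩ | ⟨hx, hy⟩
          · exact ⟨(Finset.mem_filter.1 hx).1, (Finset.mem_filter.1 hy).1⟩
          · exact ⟨(Finset.mem_filter.1 hx).1, (Finset.mem_filter.1 hy).1⟩
        exact hinj x (hsub2 x hx) y (hsub2 y hy) h
    _ ≤ (Vset s b Q).card := Finset.card_le_card hsub

end Pool.Agent.H39.Indexed
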