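import Pool.Agent.H39.IdxCore
import Pool.Agent.H39.IdxGrid

/-!
# Words of an instance, mixing and counting
-/

set_option autoImplicit false

namespace Pool.Agent.H39.Indexed

open List

section mixing

variable {A : Type}

/-- The infinite word attached to the bits `B` of the cells. -/
def Wd (s b : ℕ) (letter : ℕ → Bool → ℕ → A) (B : ℕ → Bool) (p : ℕ) : A :=
  letter (p / b) (B (cellOf s (p / b))) (p % b)

/-- independence of the blocks: if the word with block bits `c` is trivial, then both blocks of a cell
carry the same bit. -/
def Indep {H : Type} [Group H] (ev : A → H) (s b : ℕ) (letter : ℕ → Bool → ℕ → A) : Prop :=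
  ∀ c : ℕ → Bool, val ev (sub (fun p => letter (p / b) (c (p / b)) (p % b)) 0 (2 * (s * s) * b)) = 1 →
    ∀ t < 2 * (s * s), ∀ t' < 2 * (s * s), cellOf s t = cellOf s t' → c t = c t'

open Classical in
theorem mix_lemma {H : Type} [Group H] {ev : A → H} {s b : ℕ} {letter : ℕ → Bool → ℕ → A}
    (hb : 0 < b) (hind : Indep ev s b letter) {Q : ℕ → Prop} {B B' : ℕ → Bool}
    (hcut : ∀ t < 2 * (s * s), ¬ BIn Q b t → ¬ BOut Q b t → B (cellOf s t) = B' (cellOf s t))
    (hval : val ev (sub (fun p => if Q p then Wd s b letter B p else Wd s b letter B' p) 0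
      (2 * (s * s) * b)) = 1) :
    ∀ i ∈ Vset s b Q, B i = B' i := by
  intro i hi
  rw [mem_Vset] at hi
  obtain ⟨_, t, t', ht, ht', h1, h2, h3, h4⟩ := hi
  have h5 := hind (fun t => if BIn Q b t then B (cellOf s t) else B' (cellOf s t)) ?_ t ht t' ht'
    (h1.trans h2.symm)
  · have h6 : ¬ BIn Q b t' := by
      intro h7
      exact h4 (t' * b) (Nat.mul_div_cancel _ hb) (h7 (t' * b) (Nat.mul_div_cancel _ hb))
    simp only [if_pos h3, if_neg h6] at h5
    rw [h1, h2] at h5
    exact h5
  · rw [← hval]
    congr 1
    apply sub_congr
    intro p _ hp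
    rw [Nat.zero_add] at hp
    have hpt : p / b < 2 * (s * s) := by
      rw [Nat.div_lt_iff_lt_mul hb]; exact hp
    unfold Wd
    by_cases hin : BIn Q b (p / b)
    · simp only [if_pos hin, if_pos (hin p rfl)]
    · by_cases hQ : Q p
      · simp only [if_neg hin, if_pos hQ]
        have hout : ¬ BOut Q b (p / b) := fun h => h p rfl hQ
        rw [hcut _ hpt hin hout]
      · simp only [if_neg hin, if_neg hQ]

end mixing

section counting

/-- extension of a finite bit vector -/
def ext {M : ℕ} (B : Fin M → Bool) (i : ℕ) : Bool := if h : i < M then B ⟨i, h⟩ else false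

/-- a class of bit vectors in which the bits on `W` determine the bits on `V` is small -/
theorem card_class (M : ℕ) (C : Finset (Fin M → Bool)) (V W : Finset ℕ)
    (hV : ∀ i ∈ V, i < M)
    (h : ∀ B ∈ C, ∀ B' ∈ C, (∀ i ∈ W, ext B i = ext B' i) → ∀ i ∈ V, ext B i = ext B' i) :
    C.card * 2 ^ ((V \ W).card) ≤ 2 ^ M := by
  classical
  set U : Finset (Fin M) := Finset.univ.filter (fun i : Fin M => (i : ℕ) ∈ V \ W) with hU
  have hUcard : U.card = (V \ W).card := by
    refine Finset.card_bij (fun i _ => (i : ℕ)) ?_ ?_ ?_
    · intro i hi
      rw [hU, Finset.mem_filter] at hi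
      exact hi.2
    · intro i _ j _ hij
      exact Fin.ext hij
    · intro i hi
      have : i < M := hV i (Finset.mem_sdiff.1 hi).1
      refine ⟨⟨i, this⟩, ?_, rfl⟩
      rw [hU, Finset.mem_filter]
      exact ⟨Finset.mem_univ _, hi⟩
  -- restriction to the complement
  have hinj : Set.InjOn (fun (B : Fin M → Bool) => fun (i : {i : Fin M // i ∉ U}) => B i.1) C := by
    intro B hB B' hB' hBB
    have hoff : ∀ i : Fin M, i ∉ U → B i = B' i := fun i hi => congrFun hBB ⟨i, hi⟩
    have hW : ∀ i ∈ W, ext B i = ext B' i := by
      intro i hi
      unfold ext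
      split_ifs with hiM
      · apply hoff
        rw [hU, Finset.mem_filter]
        rintro ⟨_, h2⟩
        exact (Finset.mem_sdiff.1 h2).2 hi
      · rfl
    have hVV := h B hB B' hB' hW
    funext i
    by_cases hi : i ∈ U
    · rw [hU, Finset.mem_filter] at hi
      have := hVV i (Finset.mem_sdiff.1 hi.2).1
      unfold ext at this
      rw [dif_pos i.2, dif_pos i.2] at this
      exact this
    · exact hoff i hi
  have h1 : C.card ≤ Fintype.card ({i : Fin M // i ∉ U} → Bool) := by
    rw [← Finset.card_image_of_injOn hinj]
    exact Finset.card_le_univ _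
  have h2 : Fintype.card ({i : Fin M // i ∉ U} → Bool) = 2 ^ (M - U.card) := by
    rw [Fintype.card_fun, Fintype.card_bool, Fintype.card_subtype_compl, Fintype.card_fin]
    congr 2
    simp
  rw [h2, hUcard] at h1
  have h3 : (V \ W).card ≤ M := by
    rw [← hUcard]
    simpa using Finset.card_le_univ U
  calc C.card * 2 ^ ((V \ W).card) ≤ 2 ^ (M - (V \ W).card) * 2 ^ ((V \ W).card) :=
        Nat.mul_le_mul_right _ h1
    _ = 2 ^ M := by rw [← pow_add, Nat.sub_add_cancel h3]

end counting

section qloc

variable {N T : Type}

/-- position `p` lies in no macroscopic piece -/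
def Qloc (E n o : ℕ) (φ : List (N ⊕ T)) (ys : List (List T)) (p : ℕ) : Prop :=
  ∀ z ∈ relList E n o φ ys, ¬ (z.2.1 ≤ p ∧ p < z.2.1 + z.2.2)

theorem relList_bounds {E n o : ℕ} {φ : List (N ⊕ T)} {ys : List (List T)} {z : N × ℕ × ℕ}
    (hz : z ∈ relList E n o φ ys) : o ≤ z.2.1 ∧ z.2.1 + z.2.2 ≤ o + ys.flatten.length := by
  obtain ⟨Z, o', l'⟩ := z
  rw [mem_relList] at hz
  obtain ⟨y, h1, rfl, _⟩ := hz
  exact Piece_bounds _ _ _ _ _ _ h1

theorem Qloc_inr {E n o : ℕ} {φ : List (N ⊕ T)} {ys : List (List T)} {t : T} {y : List T} {p : ℕ} :
    Qloc E n o (Sum.inr t :: φ) (y :: ys) p ↔ Qloc E n (o + y.length) φ ys p := Iff.rfl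

theorem Qloc_inl {E n o : ℕ} {φ : List (N ⊕ T)} {ys : List (List T)} {X : N} {y : List T} {p : ℕ} :
    Qloc E n o (Sum.inl X :: φ) (y :: ys) p ↔
      (n ≤ E * y.length → ¬ (o ≤ p ∧ p < o + y.length)) ∧ Qloc E n (o + y.length) φ ys p := by
  unfold Qloc
  simp only [relList, List.mem_append]
  constructor
  · intro h
    refine ⟨fun hn => h (X, o, y.length) (Or.inl (by rw [if_pos hn]; exact List.mem_singleton.2 rfl)),
      fun z hz => h z (Or.inr hz)⟩
  · rintro ⟨h1, h2⟩ z (hz | hz)
    · by_cases hn : n ≤ E * y.length
      · rw [if_pos hn, List.mem_singleton] at hz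
        subst hz
        exact h1 hn
      · rw [if_neg hn] at hz; cases hz
    · exact h2 z hz

theorem Qloc_of_lt {E n o : ℕ} {φ : List (N ⊕ T)} {ys : List (List T)} {p : ℕ} (h : p < o) :
    Qloc E n o φ ys p := by
  intro z hz h1
  have := (relList_bounds hz).1
  omega

open Classical in
theorem Qloc_card (E n : ℕ) : ∀ (φ : List (N ⊕ T)) (ys : List (List T)) (o : ℕ),
    φ.length = ys.length →
    ((Finset.Ico o (o + ys.flatten.length)).filter (Qloc E n o φ ys)).card + relLen E n φ ys
      = ys.flatten.length := by
  intro φ
  induction φ with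
  | nil =>
    intro ys o h
    have : ys = [] := List.length_eq_zero_iff.1 h.symm
    subst this
    simp [relLen]
  | cons a φ ih =>
    intro ys o h
    cases ys with
    | nil => simp at h
    | cons y ys =>
      have h' : φ.length = ys.length := by simpa using h
      have ih' := ih ys (o + y.length) h'
      rw [List.flatten_cons, List.length_append]
      have hsplit : Finset.Ico o (o + (y.length + ys.flatten.length)) =
          Finset.Ico o (o + y.length) ∪ Finset.Ico (o + y.length) (o + y.length + ys.flatten.length) := by
        rw [Finset.Ico_union_Ico_eq_Ico (by omega) (by omega)]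
        congr 1; omega
      have hdisj : Disjoint (Finset.Ico o (o + y.length))
          (Finset.Ico (o + y.length) (o + y.length + ys.flatten.length)) :=
        Finset.Ico_disjoint_Ico_consecutive _ _ _
      rw [hsplit, Finset.filter_union, Finset.card_union_of_disjoint
        (Finset.disjoint_filter_filter hdisj)]
      rcases a with X | t
      · have hsecond : (Finset.Ico (o + y.length) (o + y.length + ys.flatten.length)).filter
            (Qloc E n o (Sum.inl X :: φ) (y :: ys)) =
            (Finset.Ico (o + y.length) (o + y.length + ys.flatten.length)).filter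
            (Qloc E n (o + y.length) φ ys) := by
          apply Finset.filter_congr
          intro p hp
          rw [Finset.mem_Ico] at hp
          rw [Qloc_inl]
          constructor
          · exact fun h => h.2
          · exact fun h => ⟨fun _ => by omega, h⟩
        rw [hsecond]
        simp only [relLen]
        by_cases hn : n ≤ E * y.length
        · have hfirst : (Finset.Ico o (o + y.length)).filter
              (Qloc E n o (Sum.inl X :: φ) (y :: ys)) = ∅ := by
            rw [Finset.filter_eq_empty_iff]
            intro p hp h2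
            rw [Finset.mem_Ico] at hp
            rw [Qloc_inl] at h2
            exact h2.1 hn hp
          rw [hfirst, Finset.card_empty, if_pos hn]
          omega
        · have hfirst : (Finset.Ico o (o + y.length)).filter
              (Qloc E n o (Sum.inl X :: φ) (y :: ys)) = Finset.Ico o (o + y.length) := by
            rw [Finset.filter_eq_self]
            intro p hp
            rw [Finset.mem_Ico] at hp
            rw [Qloc_inl]
            exact ⟨fun h => absurd h hn, Qloc_of_lt hp.2⟩
          rw [hfirst, if_neg hn, Nat.card_Ico]
          omega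
      · have hsecond : (Finset.Ico (o + y.length) (o + y.length + ys.flatten.length)).filter
            (Qloc E n o (Sum.inr t :: φ) (y :: ys)) =
            (Finset.Ico (o + y.length) (o + y.length + ys.flatten.length)).filter
            (Qloc E n (o + y.length) φ ys) := by
          apply Finset.filter_congr
          intro p hp
          rw [Qloc_inr]
        have hfirst : (Finset.Ico o (o + y.length)).filter
            (Qloc E n o (Sum.inr t :: φ) (y :: ys)) = Finset.Ico o (o + y.length) := by
          rw [Finset.filter_eq_self]
          intro p hp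
          rw [Finset.mem_Ico] at hp
          rw [Qloc_inr]
          exact Qloc_of_lt hp.2
        rw [hsecond, hfirst, Nat.card_Ico]
        simp only [relLen]
        omega

end qloc

section cross

variable {A : Type} {g : IndexedGrammar A} {H : Type} [Group H] {ev : A → H}

open Classical in
/-- crossing: the part of a derivation above the stack `γ` can be completed over `γ'` -/
theorem cross {γ γ' : List g.F} {w w' : ℕ → A} {E n : ℕ} :
    ∀ (φ : List (g.N ⊕ A)) (ys : List (List A)) (o : ℕ), Forall₂ (symP (g.Dv γ)) φ ys →
    ys.flatten = sub w o ys.flatten.length →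
    (∀ z ∈ relList E n o φ ys, g.Dv γ' z.1 (sub w' z.2.1 z.2.2)) →
    (∀ Z o' y, Piece o φ ys Z o' y → E * y.length < n → ∃ u, g.Dv γ' Z u ∧ val ev u = val ev y) →
    ∃ z, listP (g.Dv γ') φ z ∧
      val ev z = val ev (sub (fun p => if Qloc E n o φ ys p then w p else w' p) o ys.flatten.length) := by
  intro φ
  induction φ with
  | nil =>
    intro ys o hf _ _ _
    cases hf
    exact ⟨[], listP_nil.2 rfl, by simp [sub]⟩
  | cons a φ ih =>
    intro ys o hf hfl hrel hirr
    cases hf with
    | @cons _ y _ ys h1 h2 =>
      rw [List.flatten_cons, List.length_append, sub_add] at hfl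
      obtain ⟨hy, hys⟩ := List.append_inj hfl (by simp)
      rw [List.flatten_cons, List.length_append, sub_add, val_append]
      rcases a with X | t
      · obtain ⟨z, hz1, hz2⟩ := ih ys (o + y.length) h2 hys
          (fun z hz => hrel z (by simp only [relList]; exact List.mem_append.2 (Or.inr hz)))
          (fun Z o' y' hp hE => hirr Z o' y' (Or.inr hp) hE)
        have htail : sub (fun p => if Qloc E n o (Sum.inl X :: φ) (y :: ys) p then w p else w' p)
            (o + y.length) ys.flatten.length =
            sub (fun p => if Qloc E n (o + y.length) φ ys p then w p else w' p)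
            (o + y.length) ys.flatten.length := by
          apply sub_congr
          intro p hp _
          have : Qloc E n o (Sum.inl X :: φ) (y :: ys) p ↔ Qloc E n (o + y.length) φ ys p := by
            rw [Qloc_inl]
            exact ⟨fun h => h.2, fun h => ⟨fun _ => by omega, h⟩⟩
          simp only [this]
        rw [htail, ← hz2]
        by_cases hn : n ≤ E * y.length
        · refine ⟨sub w' o y.length ++ z, listP_cons.2 ⟨_, _, ?_, hz1, rfl⟩, ?_⟩
          · exact hrel (X, o, y.length) (by
              simp only [relList]
              rw [if_pos hn]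
              exact List.mem_append.2 (Or.inl (List.mem_singleton.2 rfl)))
          · rw [val_append]
            congr 2
            apply sub_congr
            intro p hp1 hp2
            have : ¬ Qloc E n o (Sum.inl X :: φ) (y :: ys) p := by
              rw [Qloc_inl]
              exact fun h => h.1 hn ⟨hp1, hp2⟩
            simp only [if_neg this]
        · obtain ⟨u, hu1, hu2⟩ := hirr X o y (Or.inl ⟨rfl, rfl, rfl⟩) (by omega)
          refine ⟨u ++ z, listP_cons.2 ⟨_, _, hu1, hz1, rfl⟩, ?_⟩
          rw [val_append, hu2]
          congr 1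
          conv_lhs => rw [hy]
          congr 1
          apply sub_congr
          intro p hp1 hp2
          have : Qloc E n o (Sum.inl X :: φ) (y :: ys) p := by
            rw [Qloc_inl]
            exact ⟨fun h => absurd h hn, Qloc_of_lt hp2⟩
          simp only [if_pos this]
      · obtain ⟨z, hz1, hz2⟩ := ih ys (o + y.length) h2 hys (fun z hz => hrel z hz)
          (fun Z o' y' hp hE => hirr Z o' y' hp hE)
        have htail : sub (fun p => if Qloc E n o (Sum.inr t :: φ) (y :: ys) p then w p else w' p)
            (o + y.length) ys.flatten.length =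
            sub (fun p => if Qloc E n (o + y.length) φ ys p then w p else w' p)
            (o + y.length) ys.flatten.length := by
          apply sub_congr
          intro p hp _
          simp only [Qloc_inr]
        rw [htail, ← hz2]
        refine ⟨y ++ z, listP_cons.2 ⟨_, _, h1, hz1, rfl⟩, ?_⟩
        rw [val_append]
        congr 1
        conv_lhs => rw [hy]
        congr 1
        apply sub_congr
        intro p hp1 hp2
        have : Qloc E n o (Sum.inr t :: φ) (y :: ys) p := by
          rw [Qloc_inr]
          exact Qloc_of_lt hp2
        simp only [if_pos this]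

end cross

end Pool.Agent.H39.Indexed
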