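import Mathlib

/-!
# Indexed grammars (Aho): definitions
-/

set_option autoImplicit false

namespace Pool.Agent.H39.Indexed

/-- An indexed grammar over the terminal alphabet `T`: finitely many nonterminals `N`, finitely many
flags `F`, a start symbol, and finitely many productions of the three kinds
`X → α` (`copyRule`), `X → Y f` (`pushRule`) and `X f → α` (`popRule`), `α ∈ (N ∪ T)*`. -/
structure IndexedGrammar (T : Type) where
  /-- nonterminals -/
  N : Type
  /-- flags -/
  F : Type
  /-- there are finitely many nonterminals -/
  finN : Finite N
  /-- there are finitely many flags -/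
  finF : Finite F
  /-- the start symbol -/
  start : N
  /-- productions `X → α` -/
  copyRule : Set (N × List (N ⊕ T))
  /-- productions `X → Y f` -/
  pushRule : Set (N × N × F)
  /-- productions `X f → α` -/
  popRule : Set (N × F × List (N ⊕ T))
  copy_finite : copyRule.Finite
  push_finite : pushRule.Finite
  pop_finite : popRule.Finite

namespace IndexedGrammar

variable {T : Type} (g : IndexedGrammar T)

/-- Put the stack `γ` on a nonterminal; terminals carry no stack. -/
def attach (γ : List g.F) : g.N ⊕ T → (g.N × List g.F) ⊕ T
  | Sum.inl X => Sum.inl (X, γ)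
  | Sum.inr t => Sum.inr t

/-- One derivation step between sentential forms. A sentential form is a list of terminals and of
nonterminals carrying a stack of flags (top of the stack first). -/
inductive Step : List ((g.N × List g.F) ⊕ T) → List ((g.N × List g.F) ⊕ T) → Prop
  | copy (X : g.N) (α : List (g.N ⊕ T)) (h : (X, α) ∈ g.copyRule)
      (u v : List ((g.N × List g.F) ⊕ T)) (γ : List g.F) :
      Step (u ++ [Sum.inl (X, γ)] ++ v) (u ++ α.map (g.attach γ) ++ v)
  | push (X Y : g.N) (f : g.F) (h : (X, Y, f) ∈ g.pushRule)
      (u v : List ((g.N × List g.F) ⊕ T)) (γ : List g.F) :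
      Step (u ++ [Sum.inl (X, γ)] ++ v) (u ++ [Sum.inl (Y, f :: γ)] ++ v)
  | pop (X : g.N) (f : g.F) (α : List (g.N ⊕ T)) (h : (X, f, α) ∈ g.popRule)
      (u v : List ((g.N × List g.F) ⊕ T)) (γ : List g.F) :
      Step (u ++ [Sum.inl (X, f :: γ)] ++ v) (u ++ α.map (g.attach γ) ++ v)

/-- The language generated: the terminal words derivable from the start symbol with
empty stack. -/
def language : Set (List T) :=
  {w | Relation.ReflTransGen g.Step [Sum.inl (g.start, [])] (w.map Sum.inr)}

end IndexedGrammar

/-- A language over `T` is indexed if it is generated by some indexed grammar. -/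
def IsIndexed {T : Type} (L : Set (List T)) : Prop :=
  ∃ g : IndexedGrammar T, g.language = L

end Pool.Agent.H39.Indexed
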