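import Mathlib

/-!
# The label exhaustion lemma

A purely combinatorial lemma on nested intervals with labels.
-/

set_option autoImplicit false

namespace Pool.Agent.H39.Indexed

theorem exhaustion {N : Type} [Fintype N] [DecidableEq N] (n Λ E₂ T : ℕ)
    (LN : ℕ → N → ℕ → ℕ → Prop)
    (hT : 2 * (2 * Λ) ^ (Fintype.card N + 1) ≤ T)
    (hE2 : 2 * (2 * Λ) ^ (Fintype.card N + 1) ≤ E₂)
    (hΛ : 1 ≤ Λ)
    (H1 : ∀ j X o l, LN j X o l → n ≤ T * l →
      ∃ j' < j, ∃ X' o' l', LN j' X' o' l' ∧ o ≤ o' ∧ o' + l' ≤ o + l ∧ l ≤ Λ * l')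
    (H2 : ∀ j X o l j' o' l', LN j X o l → LN j' X o' l' → o ≤ o' → o' + l' ≤ o + l →
      2 * l ≤ n → E₂ * (l - l') ≤ n)
    (j : ℕ) (X : N) (o l : ℕ) (h : LN j X o l) (hl : n < 2 * l) : False := by
  -- the main induction on the number of labels alive
  have key : ∀ i, i ≤ Fintype.card N → ∀ (Dd : Finset N), Fintype.card N ≤ Dd.card + i →
      ∀ j X o l, LN j X o l → 2 * l ≤ n → n ≤ (2 * Λ) ^ (Fintype.card N + 1 - i) * l →
      (∀ Z ∈ Dd, ∃ jZ oZ lZ, LN jZ Z oZ lZ ∧ oZ ≤ o ∧ o + l ≤ oZ + lZ ∧ 2 * lZ ≤ n ∧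
        n < E₂ * (lZ - l)) → False := by
    intro i
    induction i with
    | zero =>
      intro _ Dd hD j X o l hx _ _ hdead
      have hX : X ∈ Dd := by
        have : Dd = Finset.univ := Finset.eq_univ_of_card _ (le_antisymm (Finset.card_le_univ _) (by simpa using hD))
        rw [this]; exact Finset.mem_univ _
      obtain ⟨jZ, oZ, lZ, h1, h2, h3, h4, h5⟩ := hdead X hX
      have := H2 _ _ _ _ _ _ _ h1 hx h2 h3 h4
      omega
    | succ i ih =>
      intro hi Dd hD j X o l hx h2l hln hdead
      by_cases hX : X ∈ Dd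
      · obtain ⟨jZ, oZ, lZ, h1, h2, h3, h4, h5⟩ := hdead X hX
        have := H2 _ _ _ _ _ _ _ h1 hx h2 h3 h4
        omega
      · -- walk down
        set P := (2 * Λ) ^ (Fintype.card N + 1 - (i + 1)) with hP
        have hPle : P ≤ (2 * Λ) ^ (Fintype.card N + 1) :=
          Nat.pow_le_pow_right (by omega) (by omega)
        have hPi : (2 * Λ) ^ (Fintype.card N + 1 - i) = P * (2 * Λ) := by
          rw [hP, ← pow_succ]; congr 1; omega
        have W : ∀ j' X' o' l', LN j' X' o' l' → o ≤ o' → o' + l' ≤ o + l →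
            E₂ * (l - l') ≤ n → False := by
          intro j'
          induction j' using Nat.strong_induction_on with
          | _ j' ihj =>
          intro X' o' l' hx' ho hol hE
          have hl'l : l' ≤ l := by omega
          have h2P : n ≤ 2 * P * l' := by
            have h1 : 2 * P * (l - l') ≤ n := le_trans (Nat.mul_le_mul_right _ (by omega)) hE
            have h2 : 2 * P * (l - l') + 2 * P * l' = 2 * (P * l) := by
              rw [← Nat.mul_add, Nat.sub_add_cancel hl'l]; ring
            omega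
          have hTl : n ≤ T * l' := le_trans h2P (Nat.mul_le_mul_right _ (by omega))
          obtain ⟨j'', hj'', X'', o'', l'', h1, h2, h3, h4⟩ := H1 _ _ _ _ hx' hTl
          by_cases hE'' : E₂ * (l - l'') ≤ n
          · exact ihj j'' hj'' X'' o'' l'' h1 (by omega) (by omega) hE''
          · have hl''l : l'' ≤ l' := by omega
            refine ih (by omega) (insert X Dd) ?_ j'' X'' o'' l'' h1 (by omega) ?_ ?_
            · rw [Finset.card_insert_of_notMem hX]; omega
            · rw [hPi]
              calc n ≤ 2 * P * l' := h2P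
                _ ≤ 2 * P * (Λ * l'') := Nat.mul_le_mul_left _ h4
                _ = P * (2 * Λ) * l'' := by ring
            · intro Z hZ
              rcases Finset.mem_insert.1 hZ with rfl | hZ
              · exact ⟨j, o, l, hx, by omega, by omega, h2l, by omega⟩
              · obtain ⟨jZ, oZ, lZ, g1, g2, g3, g4, g5⟩ := hdead Z hZ
                refine ⟨jZ, oZ, lZ, g1, by omega, by omega, g4, lt_of_lt_of_le g5 ?_⟩
                exact Nat.mul_le_mul_left _ (by omega)
        exact W j X o l hx le_rfl le_rfl (by simp)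
  -- phase zero
  have hE : ∀ j X o l, LN j X o l → n < 2 * l → False := by
    intro j
    induction j using Nat.strong_induction_on with
    | _ j ihj =>
    intro X o l hx hl
    have h1P : 1 ≤ (2 * Λ) ^ (Fintype.card N + 1) := Nat.one_le_pow _ _ (by omega)
    have hTl : n ≤ T * l := by
      have : 2 * l ≤ T * l := Nat.mul_le_mul_right _ (by omega)
      omega
    obtain ⟨j'', hj'', X'', o'', l'', h1, h2, h3, h4⟩ := H1 _ _ _ _ hx hTl
    by_cases hl'' : n < 2 * l''
    · exact ihj j'' hj'' X'' o'' l'' h1 hl''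
    · refine key (Fintype.card N) le_rfl ∅ (by simp) j'' X'' o'' l'' h1 (by omega) ?_ (by simp)
      have : Fintype.card N + 1 - Fintype.card N = 1 := by omega
      rw [this, pow_one]
      have h5 : 2 * l ≤ 2 * (Λ * l'') := Nat.mul_le_mul_left _ h4
      have h6 : 2 * (Λ * l'') = 2 * Λ * l'' := by ring
      omega
  exact hE j X o l h hl

end Pool.Agent.H39.Indexed
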