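import Pool.Agent.H39.IdxPair

/-!
# The abstract criterion

A language all of whose words have trivial value in a group, and which contains all words of
arbitrarily good grid instances, is not indexed.
-/

set_option autoImplicit false

namespace Pool.Agent.H39.Indexed

open List

open Classical in
theorem exists_good {M m : ℕ} {Code : Type} [Fintype Code] (Bad : Code → (Fin M → Bool) → Prop)
    (hc' : ∀ c (Cl : Finset (Fin M → Bool)), (∀ B ∈ Cl, Bad c B) → Cl.card * 2 ^ m ≤ 2 ^ M)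
    (hcard : Fintype.card Code < 2 ^ m) : ∃ B, ∀ c, ¬ Bad c B := by
  have hc : ∀ c, ((Finset.univ : Finset (Fin M → Bool)).filter (Bad c)).card * 2 ^ m ≤ 2 ^ M :=
    fun c => hc' c _ (fun B hB => (Finset.mem_filter.1 hB).2)
  by_contra hcon
  push Not at hcon
  have h1 : (Finset.univ : Finset (Fin M → Bool)) ⊆
      (Finset.univ : Finset Code).biUnion (fun c => Finset.univ.filter (Bad c)) := by
    intro B _
    obtain ⟨c, hcB⟩ := hcon B
    exact Finset.mem_biUnion.2 ⟨c, Finset.mem_univ _, Finset.mem_filter.2 ⟨Finset.mem_univ _, hcB⟩⟩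
  have h2 := le_trans (Finset.card_le_card h1) Finset.card_biUnion_le
  have h3 : (Finset.univ : Finset (Fin M → Bool)).card = 2 ^ M := by simp
  rw [h3] at h2
  have h4 : 2 ^ M * 2 ^ m ≤ Fintype.card Code * 2 ^ M := by
    calc 2 ^ M * 2 ^ m ≤ (∑ c : Code, ((Finset.univ : Finset (Fin M → Bool)).filter (Bad c)).card) *
          2 ^ m := Nat.mul_le_mul_right _ h2
      _ = ∑ c : Code, ((Finset.univ : Finset (Fin M → Bool)).filter (Bad c)).card * 2 ^ m := by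
          rw [Finset.sum_mul]
      _ ≤ ∑ _c : Code, 2 ^ M := Finset.sum_le_sum (fun c _ => hc c)
      _ = Fintype.card Code * 2 ^ M := by rw [Finset.sum_const]; rfl
  have h5 : 2 ^ m * 2 ^ M ≤ Fintype.card Code * 2 ^ M := by rwa [Nat.mul_comm (2 ^ M)] at h4
  have h6 := Nat.le_of_mul_le_mul_right h5 (by positivity)
  omega

/-- the codes of patterns -/
abbrev Code1 (N : Type) (n E : ℕ) : Type :=
  N × Fin (n + 1) × Fin (n + 1) × (Fin E → Option (N × Fin (n + 1) × Fin (n + 1))) ×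
    (N → Option (Fin (n + 1) × Fin (n + 1)))

/-- the codes of pairs of intervals -/
abbrev Code2 (n : ℕ) : Type := Fin (n + 1) × Fin (n + 1) × Fin (n + 1) × Fin (n + 1)

/-- decoding of a piece -/
def dec {N : Type} {n : ℕ} (z : N × Fin (n + 1) × Fin (n + 1)) : N × ℕ × ℕ :=
  (z.1, (z.2.1 : ℕ), (z.2.2 : ℕ))

/-- the list of a code -/
def Lof {N : Type} {n E : ℕ} (ρ : Fin E → Option (N × Fin (n + 1) × Fin (n + 1))) :
    List (N × ℕ × ℕ) := (List.ofFn ρ).filterMap (fun x => x.map dec)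

theorem Lof_length {N : Type} {n E : ℕ} (ρ : Fin E → Option (N × Fin (n + 1) × Fin (n + 1))) :
    (Lof ρ).length ≤ E := by
  unfold Lof
  refine le_trans (List.length_filterMap_le _ _) ?_
  simp

theorem mem_Lof {N : Type} {n E : ℕ} {ρ : Fin E → Option (N × Fin (n + 1) × Fin (n + 1))}
    {z : N × ℕ × ℕ} : z ∈ Lof ρ ↔ ∃ i, (ρ i).map dec = some z := by
  unfold Lof
  rw [List.mem_filterMap]
  constructor
  · rintro ⟨a, ha, haz⟩
    rw [List.mem_ofFn] at ha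
    obtain ⟨i, rfl⟩ := ha
    exact ⟨i, haz⟩
  · rintro ⟨i, hi⟩
    exact ⟨ρ i, by rw [List.mem_ofFn]; exact ⟨i, rfl⟩, hi⟩

theorem exists_Lof {N : Type} {n E : ℕ} (R : List (N × ℕ × ℕ)) (hR : R.length ≤ E)
    (hb : ∀ z ∈ R, z.2.1 < n + 1 ∧ z.2.2 < n + 1) :
    ∃ ρ : Fin E → Option (N × Fin (n + 1) × Fin (n + 1)), ∀ z, z ∈ R ↔ z ∈ Lof ρ := by
  refine ⟨fun i => (R[(i : ℕ)]?).map (fun z => (z.1, Fin.ofNat (n + 1) z.2.1,
    Fin.ofNat (n + 1) z.2.2)), ?_⟩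
  have hde : ∀ z ∈ R, dec (n := n) (z.1, Fin.ofNat (n + 1) z.2.1, Fin.ofNat (n + 1) z.2.2) = z := by
    intro z hz
    obtain ⟨h1, h2⟩ := hb z hz
    unfold dec
    simp only [Fin.ofNat, Nat.mod_eq_of_lt h1, Nat.mod_eq_of_lt h2]
  intro z
  rw [mem_Lof]
  constructor
  · intro hz
    obtain ⟨i, hi⟩ := List.mem_iff_getElem?.1 hz
    have hiE : i < E := by
      have := (List.getElem?_eq_some_iff.1 hi).1
      omega
    refine ⟨⟨i, hiE⟩, ?_⟩
    simp only [hi, Option.map_some]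
    rw [hde z hz]
  · rintro ⟨i, hi⟩
    cases hz' : R[(i : ℕ)]? with
    | none => rw [hz'] at hi; simp at hi
    | some z' =>
      have hmem : z' ∈ R := List.mem_iff_getElem?.2 ⟨i, hz'⟩
      rw [hz'] at hi
      simp only [Option.map_some, Option.some.injEq] at hi
      rw [hde z' hmem] at hi
      rw [← hi]; exact hmem

theorem card_code1 {N : Type} [Fintype N] [DecidableEq N] {n E : ℕ} (hq : Fintype.card N ≤ n + 1) :
    Fintype.card (Code1 N n E) ≤ (n + 2) ^ (3 + 3 * E + 2 * Fintype.card N) := by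
  have h1 : Fintype.card (Code1 N n E) = Fintype.card N * ((n + 1) * ((n + 1) *
      ((Fintype.card N * ((n + 1) * (n + 1)) + 1) ^ E *
        ((n + 1) * (n + 1) + 1) ^ (Fintype.card N)))) := by
    simp only [Code1, Fintype.card_prod, Fintype.card_fun, Fintype.card_option, Fintype.card_fin]
  rw [h1]
  set q := Fintype.card N with hqdef
  have e1 : q * ((n + 1) * (n + 1)) + 1 ≤ (n + 2) ^ 3 := by
    calc q * ((n + 1) * (n + 1)) + 1 ≤ (n + 1) * ((n + 1) * (n + 1)) + 1 :=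
          Nat.add_le_add_right (Nat.mul_le_mul_right _ hq) _
      _ ≤ (n + 2) ^ 3 := by nlinarith [Nat.zero_le n]
  have e2 : (n + 1) * (n + 1) + 1 ≤ (n + 2) ^ 2 := by nlinarith [Nat.zero_le n]
  calc q * ((n + 1) * ((n + 1) * ((q * ((n + 1) * (n + 1)) + 1) ^ E *
        ((n + 1) * (n + 1) + 1) ^ q)))
      ≤ (n + 2) * ((n + 2) * ((n + 2) * (((n + 2) ^ 3) ^ E * ((n + 2) ^ 2) ^ q))) := by
        refine Nat.mul_le_mul (by omega) (Nat.mul_le_mul (by omega) (Nat.mul_le_mul (by omega)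
          (Nat.mul_le_mul (Nat.pow_le_pow_left e1 _) (Nat.pow_le_pow_left e2 _))))
    _ = (n + 2) ^ (3 + 3 * E + 2 * q) := by
        rw [← pow_mul, ← pow_mul, pow_add, pow_add]; ring

theorem card_code2 {n : ℕ} : Fintype.card (Code2 n) ≤ (n + 2) ^ 4 := by
  have h1 : Fintype.card (Code2 n) = (n + 1) * ((n + 1) * ((n + 1) * (n + 1))) := by
    simp only [Code2, Fintype.card_prod, Fintype.card_fin]
  rw [h1]
  calc (n + 1) * ((n + 1) * ((n + 1) * (n + 1)))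
      ≤ (n + 2) * ((n + 2) * ((n + 2) * (n + 2))) :=
        Nat.mul_le_mul (by omega) (Nat.mul_le_mul (by omega) (Nat.mul_le_mul (by omega) (by omega)))
    _ = (n + 2) ^ 4 := by ring

section

variable {A : Type} {g : IndexedGrammar A}

open Classical in
/-- every bad structure has a code -/
theorem exists_code {w : ℕ → A} {n E E' : ℕ} (hn : 0 < n) {γ : List g.F} {X Y : g.N} {f : g.F}
    {k : ℕ} {φ : List (g.N ⊕ A)} {ys : List (List A)} {o l : ℕ}
    (h1 : Node g w n γ X o l) (h2 : (X, Y, f) ∈ g.pushRule) (h3 : g.S k [f] Y φ)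
    (h4 : Forall₂ (symP (g.Dv γ)) φ ys) (h5 : ys.flatten = sub w o l)
    (h6 : n < E' * (l - relLen E n φ ys)) (h7 : n < E' * (n - (l - relLen E n φ ys))) :
    ∃ (ol : Fin (n + 1) × Fin (n + 1)) (ρ : Fin E → Option (g.N × Fin (n + 1) × Fin (n + 1)))
      (tab : g.N → Option (Fin (n + 1) × Fin (n + 1))),
      HasPat g w n E E' X ol.1 ol.2 (Lof ρ)
        (fun Z => (tab Z).map (fun x => ((x.1 : ℕ), (x.2 : ℕ)))) := by
  have hol := h1.1
  have hlen : ys.flatten.length = l := by rw [h5, sub_length]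
  have hR : (relList E n o φ ys).length ≤ E := by
    have a1 := relList_length E n φ ys o
    have a2 := relLen_le E n φ ys
    rw [hlen] at a2
    have a3 : (relList E n o φ ys).length * n ≤ E * n :=
      le_trans a1 (Nat.mul_le_mul_left _ (by omega))
    exact Nat.le_of_mul_le_mul_right a3 hn
  obtain ⟨ρ, hρ⟩ := exists_Lof (n := n) (E := E) (relList E n o φ ys) hR (by
    intro z hz
    have := relList_bounds hz
    rw [hlen] at this
    omega)
  refine ⟨(⟨o, by omega⟩, ⟨l, by omega⟩), ρ, fun Z => if h : ∃ x : Fin (n + 1) × Fin (n + 1),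
    (∃ y, Piece o φ ys Z x.1 y ∧ y.length = x.2 ∧ E * x.2 < n) then some h.choose else none,
    γ, Y, f, k, φ, ys, h1, h2, h3, h4, h5, h6, h7, hρ, ?_, ?_⟩
  · intro Z o' y hp hE
    have hb := Piece_bounds _ _ _ _ _ _ hp
    simp only at hb
    rw [hlen] at hb
    have hex : ∃ x : Fin (n + 1) × Fin (n + 1),
        (∃ y, Piece o φ ys Z x.1 y ∧ y.length = x.2 ∧ E * x.2 < n) :=
      ⟨(⟨o', by omega⟩, ⟨y.length, by omega⟩), y, hp, rfl, hE⟩
    beta_reduce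
    rw [dif_pos hex]
    exact ⟨_, rfl⟩
  · intro Z x hx
    beta_reduce at hx
    by_cases hex : ∃ x : Fin (n + 1) × Fin (n + 1),
        (∃ y, Piece o φ ys Z x.1 y ∧ y.length = x.2 ∧ E * x.2 < n)
    · rw [dif_pos hex] at hx
      simp only [Option.map_some, Option.some.injEq] at hx
      have := hex.choose_spec
      rw [← hx]
      exact this
    · rw [dif_neg hex] at hx
      simp at hx

end

open Classical in
theorem not_indexed {A : Type} {H : Type} [Group H] (ev : A → H) (𝓛 : Set (List A))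
    (hval : ∀ u ∈ 𝓛, val ev u = 1)
    (hinst : ∀ C : ℕ, 0 < C → ∃ (s b : ℕ) (letter : ℕ → Bool → ℕ → A), C ≤ s ∧ 0 < b ∧
      (2 * (s * s) * b + 2) ^ C < 2 ^ (s * s / C) ∧ Indep ev s b letter ∧
      ∀ B : ℕ → Bool, sub (Wd s b letter B) 0 (2 * (s * s) * b) ∈ 𝓛) : ¬ IsIndexed 𝓛 := by
  rintro ⟨g, rfl⟩
  have := g.finN
  let _ := Fintype.ofFinite g.N
  obtain ⟨K₁, hK₁⟩ := (g.copy_finite.image (fun x => x.2.length)).bddAbove
  obtain ⟨K₂, hK₂⟩ := (g.pop_finite.image (fun x => x.2.2.length)).bddAbove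
  obtain ⟨K, hKdef⟩ : ∃ K, K = K₁ + K₂ := ⟨_, rfl⟩
  have hK : ∀ X β, (X, β) ∈ g.copyRule → β.length ≤ K := by
    intro X β h
    have := hK₁ ⟨(X, β), h, rfl⟩
    simp only at this
    omega
  have hK' : ∀ X f β, (X, f, β) ∈ g.popRule → β.length ≤ K := by
    intro X f β h
    have := hK₂ ⟨(X, f, β), h, rfl⟩
    simp only at this
    omega
  obtain ⟨q, hq⟩ : ∃ q, q = Fintype.card g.N := ⟨_, rfl⟩
  obtain ⟨Λ, hΛ⟩ : ∃ Λ, Λ = K + 2 * q + 4 := ⟨_, rfl⟩
  obtain ⟨P, hP⟩ : ∃ P, P = (2 * Λ) ^ (q + 1) := ⟨_, rfl⟩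
  have hP1 : 1 ≤ P := by rw [hP]; exact Nat.one_le_pow _ _ (by omega)
  obtain ⟨T, hT⟩ : ∃ T, T = 2 * P := ⟨_, rfl⟩
  obtain ⟨E', hE'⟩ : ∃ E', E' = 4 * T := ⟨_, rfl⟩
  obtain ⟨E, hE⟩ : ∃ E, E = (4 * K * T + 1) + 32 * q * E' + 2 * P := ⟨_, rfl⟩
  obtain ⟨C, hC⟩ : ∃ C, C = 64 * E' + 64 * E + E' * (2 + 2 * E) +
    2 * (16 * E' * (2 + 2 * E) + 32 * E' * q) + (6 + 3 * E + 2 * q) + 2 * T * K + q + 1 := ⟨_, rfl⟩
  obtain ⟨s, b, letter, hCs, hb, hpow, hind, hmem⟩ := hinst C (by omega)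
  obtain ⟨n, hn⟩ : ∃ n, n = 2 * (s * s) * b := ⟨_, rfl⟩
  rw [← hn] at hpow hmem
  obtain ⟨m, hm⟩ : ∃ m, m = s * s / C := ⟨_, rfl⟩
  rw [← hm] at hpow
  have hone : ∀ B : ℕ → Bool, val ev (sub (Wd s b letter B) 0 n) = 1 :=
    fun B => hval _ (hmem B)
  have hss : s ≤ s * s := Nat.le_mul_self s
  have hsn : s < n := by
    rw [hn]
    have : 1 * (s * s) ≤ b * (s * s) := Nat.mul_le_mul_right _ hb
    have e : 2 * (s * s) * b = 2 * (b * (s * s)) := by ring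
    omega
  have hmC : C * m ≤ s * s := by rw [hm, Nat.mul_comm]; exact Nat.div_mul_le_self _ _
  have hm1 : 32 * E' * m ≤ s * s := le_trans (Nat.mul_le_mul_right _ (by omega)) hmC
  have hm2 : 32 * E * m ≤ s * s := le_trans (Nat.mul_le_mul_right _ (by omega)) hmC
  have hE'2 : 2 ≤ E' := by omega
  have hE3 : 3 ≤ E := by omega
  -- the bad events
  let Bad : (Code1 g.N n E) ⊕ ((Code2 n) ⊕ (Code2 n)) → (Fin (s * s) → Bool) → Prop := fun c B =>
    match c with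
    | Sum.inl c => HasPat g (Wd s b letter (ext B)) n E E' c.1 c.2.1 c.2.2.1 (Lof c.2.2.2.1)
        (fun Z => (c.2.2.2.2 Z).map (fun x => ((x.1 : ℕ), (x.2 : ℕ))))
    | Sum.inr (Sum.inl c) => ((c.1 : ℕ) ≤ c.2.2.1 ∧ (c.2.2.1 : ℕ) + c.2.2.2 ≤ c.1 + c.2.1 ∧
        (c.1 : ℕ) + c.2.1 ≤ n ∧ 2 * (c.2.1 : ℕ) ≤ n ∧ n < E * ((c.2.1 : ℕ) - c.2.2.2)) ∧
        val ev (sub (Wd s b letter (ext B)) c.1 c.2.1) =
          val ev (sub (Wd s b letter (ext B)) c.2.2.1 c.2.2.2)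
    | Sum.inr (Sum.inr c) => ((c.1 : ℕ) + c.2.1 ≤ c.2.2.1 ∧ (c.2.2.1 : ℕ) + c.2.2.2 ≤ n ∧
        n < E * ((c.2.1 : ℕ) + c.2.2.2) ∧ n < E * (n - ((c.2.1 : ℕ) + c.2.2.2))) ∧
        val ev (sub (Wd s b letter (ext B)) c.1 c.2.1) =
          val ev (sub (Wd s b letter (ext B)) c.2.2.1 c.2.2.2)
  obtain ⟨B, hB⟩ := exists_good (M := s * s) (m := m) Bad (by
    rintro (c | c | c) Cl hCl
    · refine class1_card (g := g) hval hb hind hn hone (L := Lof c.2.2.2.1) (Lof_length _) hE'2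
        (by omega) (by omega) (by rw [← hq]; nlinarith) (by rw [← hq]; omega) hm1 _
        (X := c.1) (o := c.2.1) (l := c.2.2.1)
        (tab := fun Z => (c.2.2.2.2 Z).map (fun x => ((x.1 : ℕ), (x.2 : ℕ)))) hCl
    · by_cases hc : ((c.1 : ℕ) ≤ c.2.2.1 ∧ (c.2.2.1 : ℕ) + c.2.2.2 ≤ c.1 + c.2.1 ∧
        (c.1 : ℕ) + c.2.1 ≤ n ∧ 2 * (c.2.1 : ℕ) ≤ n ∧ n < E * ((c.2.1 : ℕ) - c.2.2.2))
      · obtain ⟨h1, h2, h3, h4, h5⟩ := hc
        exact nested_card hb hind hn hone _ h1 h2 h3 h4 h5 (by omega) hE3 (by omega) hm2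
          (fun B hB => (hCl B hB).2)
      · have : Cl = ∅ := by
          rw [Finset.eq_empty_iff_forall_notMem]
          intro B hB
          exact hc (hCl B hB).1
        rw [this]; simp
    · by_cases hc : ((c.1 : ℕ) + c.2.1 ≤ c.2.2.1 ∧ (c.2.2.1 : ℕ) + c.2.2.2 ≤ n ∧
        n < E * ((c.2.1 : ℕ) + c.2.2.2) ∧ n < E * (n - ((c.2.1 : ℕ) + c.2.2.2)))
      · obtain ⟨h1, h2, h3, h4⟩ := hc
        exact disjoint_card hb hind hn hone _ h1 h2 h3 h4 (by omega) (by omega) (by omega) hm2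
          (fun B hB => (hCl B hB).2)
      · have : Cl = ∅ := by
          rw [Finset.eq_empty_iff_forall_notMem]
          intro B hB
          exact hc (hCl B hB).1
        rw [this]; simp) (by
    refine lt_of_le_of_lt ?_ hpow
    rw [Fintype.card_sum, Fintype.card_sum]
    have c1 := card_code1 (N := g.N) (n := n) (E := E) (by omega)
    have c2 := card_code2 (n := n)
    rw [← hq] at c1
    have hn2 : 1 ≤ n + 2 := by omega
    have d1 : (n + 2) ^ (3 + 3 * E + 2 * q) ≤ (n + 2) ^ (4 + 3 * E + 2 * q) :=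
      Nat.pow_le_pow_right hn2 (by omega)
    have d2 : (n + 2) ^ 4 ≤ (n + 2) ^ (4 + 3 * E + 2 * q) := Nat.pow_le_pow_right hn2 (by omega)
    have d3 : 3 * (n + 2) ^ (4 + 3 * E + 2 * q) ≤ (n + 2) ^ (6 + 3 * E + 2 * q) := by
      calc 3 * (n + 2) ^ (4 + 3 * E + 2 * q) ≤ (n + 2) ^ 2 * (n + 2) ^ (4 + 3 * E + 2 * q) :=
            Nat.mul_le_mul_right _ (by nlinarith [Nat.zero_le n])
        _ = (n + 2) ^ (6 + 3 * E + 2 * q) := by rw [← pow_add]; congr 1; omega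
    have d4 : (n + 2) ^ (6 + 3 * E + 2 * q) ≤ (n + 2) ^ C := Nat.pow_le_pow_right hn2 (by omega)
    omega)
  -- the good word
  have hn0 : 0 < n := by omega
  refine no_good_word (g := g) (w := Wd s b letter (ext B)) (n := n) hval (K := K) (Λ := Λ) (T := T)
    (E := E) (E' := E') (E₂ := E) hK hK' (by omega) (by omega) (by omega)
    (by rw [← hq, ← hP]; omega) (by omega) (by omega) (by omega)
    (by rw [← hq, ← hP]; omega) (by omega) ?_ ?_ ?_ (hmem _)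
  · intro γ X Y f k φ ys o l h1 h2 h3 h4 h5
    by_contra hcon
    push Not at hcon
    obtain ⟨h6, h7⟩ := hcon
    obtain ⟨ol, ρ, tab, hpat⟩ := exists_code hn0 h1 h2 h3 h4 h5 h6 h7
    exact hB (Sum.inl (X, ol.1, ol.2, ρ, tab)) hpat
  · intro o l o' l' h1 h2 h3 h4 h5
    by_contra hcon
    push Not at hcon
    exact hB (Sum.inr (Sum.inl (⟨o, by omega⟩, ⟨l, by omega⟩, ⟨o', by omega⟩, ⟨l', by omega⟩)))
      ⟨⟨h1, h2, h3, h4, hcon⟩, h5⟩
  · intro o l o' l' h1 h2 h3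
    by_contra hcon
    push Not at hcon
    exact hB (Sum.inr (Sum.inr (⟨o, by omega⟩, ⟨l, by omega⟩, ⟨o', by omega⟩, ⟨l', by omega⟩)))
      ⟨⟨h1, h2, hcon.1, hcon.2⟩, h3⟩

end Pool.Agent.H39.Indexed
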