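import Pool.Agent.H39.IdxDef

/-!
# Indexed grammars (Aho)

Definition of indexed grammars and of the language they generate, height-bounded derivations,
and skeletons of derivations.
-/

set_option autoImplicit false

namespace Pool.Agent.H39.Indexed

open List

/-! ### Generic list predicates -/

section generic

theorem forall₂_split {α β : Type} {R : α → β → Prop} : ∀ {u v : List α} {ys : List β},
    Forall₂ R (u ++ v) ys → ∃ y1 y2, Forall₂ R u y1 ∧ Forall₂ R v y2 ∧ ys = y1 ++ y2 := by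
  intro u
  induction u with
  | nil => intro v ys h; exact ⟨[], ys, Forall₂.nil, h, rfl⟩
  | cons a u ih =>
    intro v ys h
    cases h with
    | cons h1 h2 =>
      obtain ⟨y1, y2, h3, h4, rfl⟩ := ih h2
      exact ⟨_ :: y1, y2, Forall₂.cons h1 h3, h4, rfl⟩

variable {N T : Type}

/-- extension of a predicate on nonterminals to symbols -/
def symP (P : N → List T → Prop) : N ⊕ T → List T → Prop
  | Sum.inl X, y => P X y
  | Sum.inr t, y => y = [t]

/-- extension of a predicate on nonterminals to words -/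
def listP (P : N → List T → Prop) (α : List (N ⊕ T)) (w : List T) : Prop :=
  ∃ ys : List (List T), Forall₂ (symP P) α ys ∧ w = ys.flatten

/-- extension of a skeleton predicate to symbols -/
def symS (P : N → List (N ⊕ T) → Prop) : N ⊕ T → List (N ⊕ T) → Prop
  | Sum.inl X, y => P X y
  | Sum.inr t, y => y = [Sum.inr t]

/-- extension of a skeleton predicate to words -/
def listS (P : N → List (N ⊕ T) → Prop) (α : List (N ⊕ T)) (w : List (N ⊕ T)) : Prop :=
  ∃ ys : List (List (N ⊕ T)), Forall₂ (symS P) α ys ∧ w = ys.flatten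

theorem symP_mono {P Q : N → List T → Prop} (h : ∀ X y, P X y → Q X y) :
    ∀ a y, symP P a y → symP Q a y := by
  rintro (X | t) y hy
  · exact h X y hy
  · exact hy

theorem listP_mono {P Q : N → List T → Prop} (h : ∀ X y, P X y → Q X y) {α w}
    (hw : listP P α w) : listP Q α w := by
  obtain ⟨ys, h1, h2⟩ := hw
  exact ⟨ys, h1.imp (fun a y => symP_mono h a y), h2⟩

theorem symS_mono {P Q : N → List (N ⊕ T) → Prop} (h : ∀ X y, P X y → Q X y) :
    ∀ a y, symS P a y → symS Q a y := by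
  rintro (X | t) y hy
  · exact h X y hy
  · exact hy

theorem listS_mono {P Q : N → List (N ⊕ T) → Prop} (h : ∀ X y, P X y → Q X y) {α w}
    (hw : listS P α w) : listS Q α w := by
  obtain ⟨ys, h1, h2⟩ := hw
  exact ⟨ys, h1.imp (fun a y => symS_mono h a y), h2⟩

theorem listP_append {P : N → List T → Prop} {α β : List (N ⊕ T)} {w : List T} :
    listP P (α ++ β) w ↔ ∃ u v, listP P α u ∧ listP P β v ∧ w = u ++ v := by
  constructor
  · rintro ⟨ys, h1, rfl⟩
    obtain ⟨y1, y2, h2, h3, rfl⟩ := forall₂_split h1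
    exact ⟨y1.flatten, y2.flatten, ⟨y1, h2, rfl⟩, ⟨y2, h3, rfl⟩, by simp⟩
  · rintro ⟨u, v, ⟨y1, h1, rfl⟩, ⟨y2, h2, rfl⟩, rfl⟩
    exact ⟨y1 ++ y2, List.rel_append h1 h2, by simp⟩

theorem listP_nil {P : N → List T → Prop} {w : List T} : listP P [] w ↔ w = [] := by
  constructor
  · rintro ⟨ys, h1, rfl⟩
    cases h1; rfl
  · rintro rfl
    exact ⟨[], Forall₂.nil, rfl⟩

theorem listP_cons {P : N → List T → Prop} {a : N ⊕ T} {β : List (N ⊕ T)} {w : List T} :
    listP P (a :: β) w ↔ ∃ u v, symP P a u ∧ listP P β v ∧ w = u ++ v := by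
  constructor
  · rintro ⟨ys, h1, rfl⟩
    cases h1 with
    | cons h2 h3 => exact ⟨_, _, h2, ⟨_, h3, rfl⟩, by simp⟩
  · rintro ⟨u, v, h1, ⟨y2, h2, rfl⟩, rfl⟩
    exact ⟨u :: y2, Forall₂.cons h1 h2, by simp⟩

theorem listP_singleton {P : N → List T → Prop} {a : N ⊕ T} {w : List T} :
    listP P [a] w ↔ symP P a w := by
  rw [listP_cons]
  constructor
  · rintro ⟨u, v, h1, h2, rfl⟩
    rw [listP_nil] at h2
    subst h2; simpa using h1
  · intro h
    exact ⟨w, [], h, listP_nil.2 rfl, by simp⟩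

theorem listS_nil {P : N → List (N ⊕ T) → Prop} {w : List (N ⊕ T)} : listS P [] w ↔ w = [] := by
  constructor
  · rintro ⟨ys, h1, rfl⟩
    cases h1; rfl
  · rintro rfl
    exact ⟨[], Forall₂.nil, rfl⟩

theorem listS_cons {P : N → List (N ⊕ T) → Prop} {a : N ⊕ T} {β w : List (N ⊕ T)} :
    listS P (a :: β) w ↔ ∃ u v, symS P a u ∧ listS P β v ∧ w = u ++ v := by
  constructor
  · rintro ⟨ys, h1, rfl⟩
    cases h1 with
    | cons h2 h3 => exact ⟨_, _, h2, ⟨_, h3, rfl⟩, by simp⟩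
  · rintro ⟨u, v, h1, ⟨y2, h2, rfl⟩, rfl⟩
    exact ⟨u :: y2, Forall₂.cons h1 h2, by simp⟩

theorem listS_append {P : N → List (N ⊕ T) → Prop} {α β w : List (N ⊕ T)} :
    listS P (α ++ β) w ↔ ∃ u v, listS P α u ∧ listS P β v ∧ w = u ++ v := by
  constructor
  · rintro ⟨ys, h1, rfl⟩
    obtain ⟨y1, y2, h2, h3, rfl⟩ := forall₂_split h1
    exact ⟨y1.flatten, y2.flatten, ⟨y1, h2, rfl⟩, ⟨y2, h3, rfl⟩, by simp⟩
  · rintro ⟨u, v, ⟨y1, h1, rfl⟩, ⟨y2, h2, rfl⟩, rfl⟩
    exact ⟨y1 ++ y2, List.rel_append h1 h2, by simp⟩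

/-- composition: if every symbol of `β` that satisfies `P` factors through a skeleton. -/
theorem listP_factor {P Q : N → List T → Prop} {R : N → List (N ⊕ T) → Prop}
    (h : ∀ X y, P X y → ∃ φ, R X φ ∧ listP Q φ y) :
    ∀ {β : List (N ⊕ T)} {w : List T}, listP P β w → ∃ φ, listS R β φ ∧ listP Q φ w := by
  intro β
  induction β with
  | nil => intro w hw; rw [listP_nil] at hw; subst hw; exact ⟨[], listS_nil.2 rfl, listP_nil.2 rfl⟩
  | cons a β ih =>
    intro w hw
    rw [listP_cons] at hw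
    obtain ⟨u, v, h1, h2, rfl⟩ := hw
    obtain ⟨φ, h3, h4⟩ := ih h2
    rcases a with X | t
    · obtain ⟨φ0, h5, h6⟩ := h X u h1
      exact ⟨φ0 ++ φ, listS_cons.2 ⟨φ0, φ, h5, h3, rfl⟩, listP_append.2 ⟨u, v, h6, h4, rfl⟩⟩
    · refine ⟨[Sum.inr t] ++ φ, listS_cons.2 ⟨[Sum.inr t], φ, rfl, h3, rfl⟩,
        listP_append.2 ⟨u, v, listP_singleton.2 h1, h4, rfl⟩⟩

theorem listP_compose {P Q : N → List T → Prop} {R : N → List (N ⊕ T) → Prop}
    (h : ∀ X φ y, R X φ → listP Q φ y → P X y) :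
    ∀ {β φ : List (N ⊕ T)} {w : List T}, listS R β φ → listP Q φ w → listP P β w := by
  intro β
  induction β with
  | nil =>
    intro φ w h1 h2
    rw [listS_nil] at h1; subst h1
    rw [listP_nil] at h2; subst h2
    exact listP_nil.2 rfl
  | cons a β ih =>
    intro φ w h1 h2
    rw [listS_cons] at h1
    obtain ⟨φ0, φ1, h3, h4, rfl⟩ := h1
    rw [listP_append] at h2
    obtain ⟨u, v, h5, h6, rfl⟩ := h2
    rw [listP_cons]
    refine ⟨u, v, ?_, ih h4 h6, rfl⟩
    rcases a with X | t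
    · exact h X φ0 u h3 h5
    · have : φ0 = [Sum.inr t] := h3
      subst this
      have h7 : symP Q (Sum.inr t) u := listP_singleton.1 h5
      exact h7

theorem listS_factor {P Q : N → List (N ⊕ T) → Prop} {R : N → List (N ⊕ T) → Prop}
    (h : ∀ X y, P X y → ∃ φ, R X φ ∧ listS Q φ y) :
    ∀ {β : List (N ⊕ T)} {w : List (N ⊕ T)}, listS P β w → ∃ φ, listS R β φ ∧ listS Q φ w := by
  intro β
  induction β with
  | nil => intro w hw; rw [listS_nil] at hw; subst hw; exact ⟨[], listS_nil.2 rfl, listS_nil.2 rfl⟩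
  | cons a β ih =>
    intro w hw
    rw [listS_cons] at hw
    obtain ⟨u, v, h1, h2, rfl⟩ := hw
    obtain ⟨φ, h3, h4⟩ := ih h2
    rcases a with X | t
    · obtain ⟨φ0, h5, h6⟩ := h X u h1
      exact ⟨φ0 ++ φ, listS_cons.2 ⟨φ0, φ, h5, h3, rfl⟩, listS_append.2 ⟨u, v, h6, h4, rfl⟩⟩
    · refine ⟨[Sum.inr t] ++ φ, listS_cons.2 ⟨[Sum.inr t], φ, rfl, h3, rfl⟩,
        listS_append.2 ⟨u, v, listS_cons.2 ⟨u, [], h1, listS_nil.2 rfl, by simp⟩, h4, rfl⟩⟩

/-- a uniform bound for existential heights -/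
theorem listP_exists_nat {P : ℕ → N → List T → Prop} (hm : ∀ i j X y, i ≤ j → P i X y → P j X y) :
    ∀ {β : List (N ⊕ T)} {w : List T}, listP (fun X y => ∃ k, P k X y) β w →
      ∃ k, listP (P k) β w := by
  intro β
  induction β with
  | nil => intro w hw; rw [listP_nil] at hw; subst hw; exact ⟨0, listP_nil.2 rfl⟩
  | cons a β ih =>
    intro w hw
    rw [listP_cons] at hw
    obtain ⟨u, v, h1, h2, rfl⟩ := hw
    obtain ⟨k, h3⟩ := ih h2
    rcases a with X | t
    · obtain ⟨k', h4⟩ := h1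
      refine ⟨max k k', listP_cons.2 ⟨u, v, hm _ _ _ _ (le_max_right _ _) h4, ?_, rfl⟩⟩
      exact listP_mono (fun X y h => hm _ _ _ _ (le_max_left _ _) h) h3
    · exact ⟨k, listP_cons.2 ⟨u, v, h1, h3, rfl⟩⟩

end generic

namespace IndexedGrammar

variable {T : Type} (g : IndexedGrammar T)

/-- `D k γ X w`: the nonterminal `X` with stack `γ` derives `w` by a derivation tree
of height at most `k`. -/
def D : ℕ → List g.F → g.N → List T → Prop
  | 0, _, _, _ => False
  | k + 1, γ, X, w =>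
      (∃ β, (X, β) ∈ g.copyRule ∧ listP (D k γ) β w) ∨
      (∃ Y f, (X, Y, f) ∈ g.pushRule ∧ D k (f :: γ) Y w) ∨
      (∃ f γ' β, γ = f :: γ' ∧ (X, f, β) ∈ g.popRule ∧ listP (D k γ') β w)

theorem D_succ {k : ℕ} : ∀ {γ X w}, g.D k γ X w → g.D (k + 1) γ X w := by
  induction k with
  | zero => intro γ X w h; exact absurd h (by simp [D])
  | succ k ih =>
    intro γ X w h
    rcases h with ⟨β, h1, h2⟩ | ⟨Y, f, h1, h2⟩ | ⟨f, γ', β, h0, h1, h2⟩
    · exact Or.inl ⟨β, h1, listP_mono (fun X y h => ih h) h2⟩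
    · exact Or.inr (Or.inl ⟨Y, f, h1, ih h2⟩)
    · exact Or.inr (Or.inr ⟨f, γ', β, h0, h1, listP_mono (fun X y h => ih h) h2⟩)

theorem D_mono {k l : ℕ} (hkl : k ≤ l) {γ X w} (h : g.D k γ X w) : g.D l γ X w := by
  induction hkl with
  | refl => exact h
  | step _ ih => exact g.D_succ ih

/-- derivability -/
def Dv (γ : List g.F) (X : g.N) (w : List T) : Prop := ∃ k, g.D k γ X w

theorem Dv_list {γ : List g.F} {β : List (g.N ⊕ T)} {w : List T} (h : listP (g.Dv γ) β w) :
    ∃ k, listP (g.D k γ) β w :=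
  listP_exists_nat (P := fun k X y => g.D k γ X y) (fun _ _ _ _ hij h => g.D_mono hij h) h

theorem Dv_copy {γ : List g.F} {X : g.N} {β : List (g.N ⊕ T)} {w : List T}
    (h : (X, β) ∈ g.copyRule) (hw : listP (g.Dv γ) β w) : g.Dv γ X w := by
  obtain ⟨k, hk⟩ := g.Dv_list hw
  exact ⟨k + 1, Or.inl ⟨β, h, hk⟩⟩

theorem Dv_push {γ : List g.F} {X Y : g.N} {f : g.F} {w : List T}
    (h : (X, Y, f) ∈ g.pushRule) (hw : g.Dv (f :: γ) Y w) : g.Dv γ X w := by
  obtain ⟨k, hk⟩ := hw
  exact ⟨k + 1, Or.inr (Or.inl ⟨Y, f, h, hk⟩)⟩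

theorem Dv_pop {γ : List g.F} {X : g.N} {f : g.F} {β : List (g.N ⊕ T)} {w : List T}
    (h : (X, f, β) ∈ g.popRule) (hw : listP (g.Dv γ) β w) : g.Dv (f :: γ) X w := by
  obtain ⟨k, hk⟩ := g.Dv_list hw
  exact ⟨k + 1, Or.inr (Or.inr ⟨f, γ, β, rfl, h, hk⟩)⟩

/-! ### Equivalence with the rewriting definition -/

theorem Step.append {s t : List ((g.N × List g.F) ⊕ T)} (h : g.Step s t)
    (p q : List ((g.N × List g.F) ⊕ T)) : g.Step (p ++ s ++ q) (p ++ t ++ q) := by
  cases h with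
  | copy X α h u v γ =>
    have := Step.copy (g := g) X α h (p ++ u) (v ++ q) γ
    simpa [List.append_assoc] using this
  | push X Y f h u v γ =>
    have := Step.push (g := g) X Y f h (p ++ u) (v ++ q) γ
    simpa [List.append_assoc] using this
  | pop X f α h u v γ =>
    have := Step.pop (g := g) X f α h (p ++ u) (v ++ q) γ
    simpa [List.append_assoc] using this

theorem steps_append {s t : List ((g.N × List g.F) ⊕ T)} (h : Relation.ReflTransGen g.Step s t)
    (p q : List ((g.N × List g.F) ⊕ T)) :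
    Relation.ReflTransGen g.Step (p ++ s ++ q) (p ++ t ++ q) := by
  induction h with
  | refl => exact Relation.ReflTransGen.refl
  | tail _ h2 ih => exact ih.tail (Step.append g h2 p q)

theorem steps_mul {s t s' t' : List ((g.N × List g.F) ⊕ T)}
    (h : Relation.ReflTransGen g.Step s t) (h' : Relation.ReflTransGen g.Step s' t') :
    Relation.ReflTransGen g.Step (s ++ s') (t ++ t') := by
  have h1 := g.steps_append h [] s'
  have h2 := g.steps_append h' t []
  simp only [List.nil_append, List.append_nil] at h1 h2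
  exact h1.trans h2

theorem steps_of_listP {P : g.N → List T → Prop} {γ : List g.F}
    (h : ∀ X y, P X y → Relation.ReflTransGen g.Step [Sum.inl (X, γ)] (y.map Sum.inr)) :
    ∀ {β : List (g.N ⊕ T)} {w : List T}, listP P β w →
      Relation.ReflTransGen g.Step (β.map (g.attach γ)) (w.map Sum.inr) := by
  intro β
  induction β with
  | nil => intro w hw; rw [listP_nil] at hw; subst hw; exact Relation.ReflTransGen.refl
  | cons a β ih =>
    intro w hw
    rw [listP_cons] at hw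
    obtain ⟨u, v, h1, h2, rfl⟩ := hw
    rw [List.map_cons, List.map_append]
    have h3 := ih h2
    have h4 : Relation.ReflTransGen g.Step [g.attach γ a] (u.map Sum.inr) := by
      rcases a with X | t
      · exact h X u h1
      · have : u = [t] := h1
        subst this
        exact Relation.ReflTransGen.refl
    exact g.steps_mul h4 h3

theorem steps_of_D {k : ℕ} : ∀ {γ : List g.F} {X : g.N} {w : List T}, g.D k γ X w →
    Relation.ReflTransGen g.Step [Sum.inl (X, γ)] (w.map Sum.inr) := by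
  induction k with
  | zero => intro γ X w h; exact absurd h (by simp [D])
  | succ k ih =>
    intro γ X w h
    rcases h with ⟨β, h1, h2⟩ | ⟨Y, f, h1, h2⟩ | ⟨f, γ', β, rfl, h1, h2⟩
    · have h3 := g.steps_of_listP (fun X y h => ih h) h2
      have h4 := Step.copy (g := g) X β h1 [] [] γ
      simp only [List.nil_append, List.append_nil] at h4
      exact h3.head h4
    · have h4 := Step.push (g := g) X Y f h1 [] [] γ
      simp only [List.nil_append, List.append_nil] at h4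
      exact (ih h2).head h4
    · have h3 := g.steps_of_listP (fun X y h => ih h) h2
      have h4 := Step.pop (g := g) X f β h1 [] [] γ'
      simp only [List.nil_append, List.append_nil] at h4
      exact h3.head h4

/-- derivability of a symbol of a sentential form -/
def SD : (g.N × List g.F) ⊕ T → List T → Prop
  | Sum.inl (X, γ), y => g.Dv γ X y
  | Sum.inr t, y => y = [t]

theorem forall₂_attach {γ : List g.F} {α : List (g.N ⊕ T)} {ys : List (List T)} :
    Forall₂ g.SD (α.map (g.attach γ)) ys ↔ Forall₂ (symP (g.Dv γ)) α ys := by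
  rw [List.forall₂_map_left_iff]
  constructor
  · intro h
    refine h.imp ?_
    rintro (X | t) y hy
    · exact hy
    · exact hy
  · intro h
    refine h.imp ?_
    rintro (X | t) y hy
    · exact hy
    · exact hy

theorem SD_step {s s' : List ((g.N × List g.F) ⊕ T)} (h : g.Step s s') {w : List T}
    (hw : ∃ ys, Forall₂ g.SD s' ys ∧ w = ys.flatten) :
    ∃ ys, Forall₂ g.SD s ys ∧ w = ys.flatten := by
  obtain ⟨ys, h1, rfl⟩ := hw
  cases h with
  | copy X α h u v γ =>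
    obtain ⟨y12, y3, h12, h3, rfl⟩ := forall₂_split h1
    obtain ⟨y1, y2, h0, h2, rfl⟩ := forall₂_split h12
    refine ⟨y1 ++ [y2.flatten] ++ y3, ?_, by simp⟩
    refine List.rel_append (List.rel_append h0 (Forall₂.cons ?_ Forall₂.nil)) h3
    exact g.Dv_copy h ⟨y2, g.forall₂_attach.1 h2, rfl⟩
  | push X Y f h u v γ =>
    obtain ⟨y12, y3, h12, h3, rfl⟩ := forall₂_split h1
    obtain ⟨y1, y2, h0, h2, rfl⟩ := forall₂_split h12
    refine ⟨y1 ++ [y2.flatten] ++ y3, ?_, by simp⟩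
    refine List.rel_append (List.rel_append h0 (Forall₂.cons ?_ Forall₂.nil)) h3
    cases h2 with
    | cons h4 h5 =>
      cases h5
      have h6 : g.Dv (f :: γ) Y _ := h4
      have h7 := g.Dv_push h h6
      rw [List.flatten_cons, List.flatten_nil, List.append_nil]
      exact h7
  | pop X f α h u v γ =>
    obtain ⟨y12, y3, h12, h3, rfl⟩ := forall₂_split h1
    obtain ⟨y1, y2, h0, h2, rfl⟩ := forall₂_split h12
    refine ⟨y1 ++ [y2.flatten] ++ y3, ?_, by simp⟩
    refine List.rel_append (List.rel_append h0 (Forall₂.cons ?_ Forall₂.nil)) h3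
    exact g.Dv_pop h ⟨y2, g.forall₂_attach.1 h2, rfl⟩

theorem SD_of_steps {s : List ((g.N × List g.F) ⊕ T)} {w : List T}
    (h : Relation.ReflTransGen g.Step s (w.map Sum.inr)) :
    ∃ ys, Forall₂ g.SD s ys ∧ w = ys.flatten := by
  induction h using Relation.ReflTransGen.head_induction_on with
  | refl =>
    refine ⟨w.map (fun t => [t]), ?_, ?_⟩
    · rw [List.forall₂_map_left_iff, List.forall₂_map_right_iff]
      exact List.forall₂_same.2 (fun t _ => rfl)
    · induction w with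
      | nil => rfl
      | cons t w ih => simp [← ih]
  | head h1 _ ih => exact g.SD_step h1 ih

theorem mem_language_iff {w : List T} : w ∈ g.language ↔ g.Dv [] g.start w := by
  constructor
  · intro h
    obtain ⟨ys, h1, h2⟩ := g.SD_of_steps h
    cases h1 with
    | cons h3 h4 =>
      cases h4
      have h5 : g.Dv [] g.start _ := h3
      subst h2
      simpa using h5
  · rintro ⟨k, hk⟩
    exact g.steps_of_D hk

/-! ### Skeletons -/

/-- `S k σ X φ`: for every stack `δ`, the nonterminal `X` with stack `σ ++ δ` derives `φ` (with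
stack `δ` on its nonterminals) by a derivation in which `σ` is popped, by a tree of height at
most `k`. -/
def S : ℕ → List g.F → g.N → List (g.N ⊕ T) → Prop
  | 0, σ, X, φ => σ = [] ∧ φ = [Sum.inl X]
  | k + 1, σ, X, φ =>
      (σ = [] ∧ φ = [Sum.inl X]) ∨
      (σ ≠ [] ∧
        ((∃ β, (X, β) ∈ g.copyRule ∧ listS (S k σ) β φ) ∨
        (∃ Y f, (X, Y, f) ∈ g.pushRule ∧ S k (f :: σ) Y φ) ∨
        (∃ f σ' β, σ = f :: σ' ∧ (X, f, β) ∈ g.popRule ∧ listS (S k σ') β φ)))

theorem S_succ {k : ℕ} : ∀ {σ X φ}, g.S k σ X φ → g.S (k + 1) σ X φ := by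
  induction k with
  | zero => intro σ X φ h; exact Or.inl h
  | succ k ih =>
    intro σ X φ h
    rcases h with h | ⟨hσ, ⟨β, h1, h2⟩ | ⟨Y, f, h1, h2⟩ | ⟨f, γ', β, h0, h1, h2⟩⟩
    · exact Or.inl h
    · exact Or.inr ⟨hσ, Or.inl ⟨β, h1, listS_mono (fun X y h => ih h) h2⟩⟩
    · exact Or.inr ⟨hσ, Or.inr (Or.inl ⟨Y, f, h1, ih h2⟩)⟩
    · exact Or.inr ⟨hσ, Or.inr (Or.inr ⟨f, γ', β, h0, h1, listS_mono (fun X y h => ih h) h2⟩)⟩

theorem S_mono {k l : ℕ} (hkl : k ≤ l) {σ X φ} (h : g.S k σ X φ) : g.S l σ X φ := by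
  induction hkl with
  | refl => exact h
  | step _ ih => exact g.S_succ ih

/-- every derivation factors through a skeleton -/
theorem D_factor {k : ℕ} : ∀ {σ γ : List g.F} {X : g.N} {w : List T}, g.D k (σ ++ γ) X w →
    ∃ φ, g.S k σ X φ ∧ listP (g.D k γ) φ w := by
  induction k with
  | zero => intro σ γ X w h; exact absurd h (by simp [D])
  | succ k ih =>
    intro σ γ X w h
    by_cases hσ : σ = []
    · subst hσ
      exact ⟨[Sum.inl X], Or.inl ⟨rfl, rfl⟩, listP_singleton.2 h⟩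
    · have hmono : ∀ X y, g.D k γ X y → g.D (k + 1) γ X y := fun X y h => g.D_succ h
      rcases h with ⟨β, h1, h2⟩ | ⟨Y, f, h1, h2⟩ | ⟨f, γ', β, h0, h1, h2⟩
      · obtain ⟨φ, h3, h4⟩ := listP_factor (fun X y h => ih h) h2
        exact ⟨φ, Or.inr ⟨hσ, Or.inl ⟨β, h1, h3⟩⟩, listP_mono hmono h4⟩
      · have h2' : g.D k ((f :: σ) ++ γ) Y w := h2
        obtain ⟨φ, h3, h4⟩ := ih h2'
        exact ⟨φ, Or.inr ⟨hσ, Or.inr (Or.inl ⟨Y, f, h1, h3⟩)⟩, listP_mono hmono h4⟩
      · cases σ with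
        | nil => exact absurd rfl hσ
        | cons f' σ' =>
          rw [List.cons_append, List.cons.injEq] at h0
          obtain ⟨rfl, rfl⟩ := h0
          obtain ⟨φ, h3, h4⟩ := listP_factor (fun X y h => ih h) h2
          exact ⟨φ, Or.inr ⟨hσ, Or.inr (Or.inr ⟨f', σ', β, rfl, h1, h3⟩)⟩, listP_mono hmono h4⟩

/-- skeletons can be completed over any stack -/
theorem Dv_of_S {k : ℕ} : ∀ {σ δ : List g.F} {X : g.N} {φ : List (g.N ⊕ T)} {w : List T},
    g.S k σ X φ → listP (g.Dv δ) φ w → g.Dv (σ ++ δ) X w := by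
  induction k with
  | zero =>
    rintro σ δ X φ w ⟨rfl, rfl⟩ h2
    exact listP_singleton.1 h2
  | succ k ih =>
    intro σ δ X φ w h1 h2
    rcases h1 with ⟨rfl, rfl⟩ | ⟨hσ, ⟨β, h3, h4⟩ | ⟨Y, f, h3, h4⟩ | ⟨f, σ', β, rfl, h3, h4⟩⟩
    · exact listP_singleton.1 h2
    · exact g.Dv_copy h3 (listP_compose (P := g.Dv (σ ++ δ)) (fun X φ y h5 h6 => ih h5 h6) h4 h2)
    · exact g.Dv_push h3 (ih (σ := f :: σ) h4 h2)
    · exact g.Dv_pop h3 (listP_compose (P := g.Dv (σ' ++ δ)) (fun X φ y h5 h6 => ih h5 h6) h4 h2)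

/-- skeletons of skeletons -/
theorem S_factor {k : ℕ} : ∀ {σ τ : List g.F} {X : g.N} {φ : List (g.N ⊕ T)},
    g.S k (σ ++ τ) X φ → ∃ ψ, g.S k σ X ψ ∧ listS (g.S k τ) ψ φ := by
  induction k with
  | zero =>
    rintro σ τ X φ ⟨h1, rfl⟩
    obtain ⟨rfl, rfl⟩ := List.append_eq_nil_iff.1 h1
    exact ⟨[Sum.inl X], ⟨rfl, rfl⟩, listS_cons.2 ⟨[Sum.inl X], [], ⟨rfl, rfl⟩, listS_nil.2 rfl, rfl⟩⟩
  | succ k ih =>
    intro σ τ X φ h
    by_cases hσ : σ = []
    · subst hσ
      exact ⟨[Sum.inl X], Or.inl ⟨rfl, rfl⟩, listS_cons.2 ⟨φ, [], h, listS_nil.2 rfl, by simp⟩⟩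
    · have hmono : ∀ X y, g.S k τ X y → g.S (k + 1) τ X y := fun X y h => g.S_succ h
      rcases h with ⟨h1, rfl⟩ | ⟨hne, ⟨β, h1, h2⟩ | ⟨Y, f, h1, h2⟩ | ⟨f, γ', β, h0, h1, h2⟩⟩
      · exact absurd (List.append_eq_nil_iff.1 h1).1 hσ
      · obtain ⟨ψ, h3, h4⟩ := listS_factor (fun X y h => ih h) h2
        exact ⟨ψ, Or.inr ⟨hσ, Or.inl ⟨β, h1, h3⟩⟩, listS_mono hmono h4⟩
      · have h2' : g.S k ((f :: σ) ++ τ) Y φ := h2
        obtain ⟨ψ, h3, h4⟩ := ih h2'
        exact ⟨ψ, Or.inr ⟨hσ, Or.inr (Or.inl ⟨Y, f, h1, h3⟩)⟩, listS_mono hmono h4⟩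
      · cases σ with
        | nil => exact absurd rfl hσ
        | cons f' σ' =>
          rw [List.cons_append, List.cons.injEq] at h0
          obtain ⟨rfl, rfl⟩ := h0
          obtain ⟨ψ, h3, h4⟩ := listS_factor (fun X y h => ih h) h2
          exact ⟨ψ, Or.inr ⟨hσ, Or.inr (Or.inr ⟨f', σ', β, rfl, h1, h3⟩)⟩, listS_mono hmono h4⟩

end IndexedGrammar

end Pool.Agent.H39.Indexed
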