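import Pool.Agent.H39.IdxFinal

/-!
# Instances from commuting families
-/

set_option autoImplicit false

namespace Pool.Agent.H39.Indexed

open List

section inst

variable {A H : Type} [Group H] (ev : A → H)

theorem val_blocks {b : ℕ} (hb : 0 < b) (blk : ℕ → Bool → List A)
    (hlen : ∀ t β, (blk t β).length = b) (d : A) (c : ℕ → Bool) (N : ℕ) :
    val ev (sub (fun p => (blk (p / b) (c (p / b))).getD (p % b) d) 0 (N * b)) =
      ((List.range N).map (fun t => val ev (blk t (c t)))).prod := by
  induction N with
  | zero => simp [sub, val]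
  | succ N ih =>
    rw [Nat.add_mul, Nat.one_mul, sub_add, val_append, ih, List.range_succ, List.map_append,
      List.prod_append, List.map_singleton, List.prod_singleton, Nat.zero_add]
    congr 2
    apply List.ext_getElem
    · rw [sub_length, hlen]
    · intro k hk1 hk2
      rw [sub_length] at hk1
      simp only [sub, List.getElem_map, List.getElem_range', Nat.one_mul]
      have e1 : (N * b + k) / b = N := by
        rw [Nat.add_comm, Nat.add_mul_div_right _ _ hb, Nat.div_eq_of_lt hk1, Nat.zero_add]
      have e2 : (N * b + k) % b = k := by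
        rw [Nat.add_comm, Nat.add_mul_mod_self_right, Nat.mod_eq_of_lt hk1]
      simp only [e1, e2]
      rw [List.getD_eq_getElem _ _ hk2]

/-- the value of a block -/
def bv (s : ℕ) (h : ℕ → H) (t : ℕ) (β : Bool) : H :=
  if β then (if t < s * s then h (cellOf s t) else (h (cellOf s t))⁻¹) else 1

/-- the exponent of a block -/
def ex (s t : ℕ) (β : Bool) : ℤ := if β then (if t < s * s then 1 else -1) else 0

variable {X Ω : Type}

theorem act_bv {s : ℕ} {h : ℕ → H} (f : H →* Equiv.Perm Ω) {i : ℕ} {ι : X → Ω} {y : Equiv.Perm X}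
    (h1 : ∀ k < s * s, k ≠ i → ∀ x, f (h k) (ι x) = ι x) (h2 : ∀ x, f (h i) (ι x) = ι (y x))
    {t : ℕ} (ht : t < 2 * (s * s)) (β : Bool) (x : X) :
    f (bv s h t β) (ι x) = ι ((y ^ (if cellOf s t = i then ex s t β else 0)) x) := by
  unfold bv ex
  have hc := cellOf_lt ht
  cases β with
  | false => simp
  | true =>
    simp only [if_true]
    by_cases ht' : t < s * s
    · rw [if_pos ht', if_pos ht']
      by_cases hi : cellOf s t = i
      · rw [if_pos hi, hi, h2, zpow_one]
      · rw [if_neg hi, h1 _ hc hi, zpow_zero]; rfl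
    · rw [if_neg ht', if_neg ht']
      by_cases hi : cellOf s t = i
      · rw [if_pos hi, hi, map_inv, zpow_neg, zpow_one, Equiv.Perm.inv_eq_iff_eq, h2,
          ← Equiv.Perm.mul_apply, mul_inv_cancel, Equiv.Perm.one_apply]
      · rw [if_neg hi, map_inv, Equiv.Perm.inv_eq_iff_eq, h1 _ hc hi, zpow_zero]; rfl

theorem act_prod {s : ℕ} {h : ℕ → H} (f : H →* Equiv.Perm Ω) {i : ℕ} {ι : X → Ω} {y : Equiv.Perm X}
    (h1 : ∀ k < s * s, k ≠ i → ∀ x, f (h k) (ι x) = ι x) (h2 : ∀ x, f (h i) (ι x) = ι (y x))
    (c : ℕ → Bool) : ∀ N, N ≤ 2 * (s * s) → ∀ x,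
    f (((List.range N).map (fun t => bv s h t (c t))).prod) (ι x) =
      ι ((y ^ (∑ t ∈ Finset.range N, if cellOf s t = i then ex s t (c t) else 0)) x) := by
  intro N
  induction N with
  | zero => intro _ x; simp
  | succ N ih =>
    intro hN x
    rw [List.range_succ, List.map_append, List.prod_append, List.map_singleton, List.prod_singleton,
      map_mul, Equiv.Perm.mul_apply, act_bv f h1 h2 (by omega), ih (by omega), Finset.sum_range_succ,
      zpow_add, Equiv.Perm.mul_apply]

theorem cellOf_inj1 {s a b : ℕ} (ha : a < s * s) (hb : b < s * s) (h : cellOf s a = cellOf s b) :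
    a = b := by
  unfold cellOf at h
  rwa [if_pos ha, if_pos hb] at h

theorem cellOf_inj2 {s a b : ℕ} (ha : ¬ a < s * s) (hb : ¬ b < s * s) (ha2 : a < 2 * (s * s))
    (hb2 : b < 2 * (s * s)) (h : cellOf s a = cellOf s b) : a = b := by
  have hs : 0 < s := by
    rcases Nat.eq_zero_or_pos s with h0 | h0
    · subst h0; omega
    · exact h0
  unfold cellOf at h
  rw [if_neg ha, if_neg hb] at h
  have h3 : (a - s * s) / s < s := Nat.div_lt_of_lt_mul (by omega)
  have h4 : (b - s * s) / s < s := Nat.div_lt_of_lt_mul (by omega)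
  have e1 : ((a - s * s) % s * s + (a - s * s) / s) / s = (a - s * s) % s := by
    rw [Nat.add_comm, Nat.add_mul_div_right _ _ hs, Nat.div_eq_of_lt h3, Nat.zero_add]
  have e2 : ((b - s * s) % s * s + (b - s * s) / s) / s = (b - s * s) % s := by
    rw [Nat.add_comm, Nat.add_mul_div_right _ _ hs, Nat.div_eq_of_lt h4, Nat.zero_add]
  have e3 : (a - s * s) % s = (b - s * s) % s := by rw [← e1, ← e2, h]
  have e4 : (a - s * s) / s = (b - s * s) / s := by rw [e3] at h; omega
  have e5 := Nat.div_add_mod (a - s * s) s
  have e6 := Nat.div_add_mod (b - s * s) s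
  rw [e3, e4, e6] at e5
  omega

theorem indep_of_act {s : ℕ} {h : ℕ → H} (f : H →* Equiv.Perm Ω) {ι : ℕ → X → Ω} {y : Equiv.Perm X}
    (hy : y ≠ 1) (hι : ∀ i < s * s, Function.Injective (ι i))
    (h1 : ∀ i < s * s, ∀ k < s * s, k ≠ i → ∀ x, f (h k) (ι i x) = ι i x)
    (h2 : ∀ i < s * s, ∀ x, f (h i) (ι i x) = ι i (y x)) (c : ℕ → Bool)
    (hc : ((List.range (2 * (s * s))).map (fun t => bv s h t (c t))).prod = 1) :
    ∀ t < 2 * (s * s), ∀ t' < 2 * (s * s), cellOf s t = cellOf s t' → c t = c t' := by
  -- the main case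
  have key : ∀ t < s * s, ∀ t' < 2 * (s * s), ¬ t' < s * s → cellOf s t = cellOf s t' →
      c t = c t' := by
    intro t ht t' ht' ht'' hcell
    have hi : cellOf s t < s * s := cellOf_lt (by omega)
    have hprod := act_prod f (h1 _ hi) (h2 _ hi) c (2 * (s * s)) le_rfl
    rw [hc] at hprod
    have hpow : y ^ (∑ u ∈ Finset.range (2 * (s * s)),
        if cellOf s u = cellOf s t then ex s u (c u) else 0) = 1 := by
      ext x
      have := hprod x
      rw [map_one, Equiv.Perm.one_apply] at this
      rw [← hι _ hi this, Equiv.Perm.one_apply]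
    have hne : t ≠ t' := by omega
    have hsum : (∑ u ∈ Finset.range (2 * (s * s)),
        if cellOf s u = cellOf s t then ex s u (c u) else 0) = ex s t (c t) + ex s t' (c t') := by
      rw [← Finset.sum_subset (s₁ := {t, t'})]
      · rw [Finset.sum_pair hne, if_pos rfl, if_pos hcell.symm]
      · intro u hu
        rw [Finset.mem_insert, Finset.mem_singleton] at hu
        rw [Finset.mem_range]
        omega
      · intro u hu hu'
        rw [Finset.mem_range] at hu
        rw [if_neg]
        intro hcu
        apply hu'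
        rw [Finset.mem_insert, Finset.mem_singleton]
        exact two_blocks (by omega) ht' hu hcell hcu hne
    rw [hsum] at hpow
    unfold ex at hpow
    rw [if_pos ht, if_neg ht''] at hpow
    cases h5 : c t <;> cases h6 : c t'
    · rfl
    · rw [h5, h6] at hpow
      simp at hpow
      exact absurd hpow hy
    · rw [h5, h6] at hpow
      simp at hpow
      exact absurd hpow hy
    · rfl
  intro t ht t' ht' hcell
  by_cases c1 : t < s * s <;> by_cases c2 : t' < s * s
  · rw [cellOf_inj1 c1 c2 hcell]
  · exact key t c1 t' ht' c2 hcell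
  · exact (key t' c2 t ht c1 hcell.symm).symm
  · rw [cellOf_inj2 c1 c2 ht ht' hcell]

theorem perm_cells {s : ℕ} (hs : 0 < s) :
    (List.range (s * s)).map (fun t => cellOf s (s * s + t)) ~ List.range (s * s) := by
  rw [List.perm_ext_iff_of_nodup]
  · intro i
    rw [List.mem_map, List.mem_range]
    constructor
    · rintro ⟨t, ht, rfl⟩
      rw [List.mem_range] at ht
      exact cellOf_lt (by omega)
    · intro hi
      have hx : i / s < s := Nat.div_lt_of_lt_mul hi
      have hy : i % s < s := Nat.mod_lt _ hs
      refine ⟨(i % s) * s + i / s, ?_, ?_⟩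
      · rw [List.mem_range]
        calc i % s * s + i / s < i % s * s + s := by omega
          _ = (i % s + 1) * s := by ring
          _ ≤ s * s := Nat.mul_le_mul_right _ hy
      · rw [cellOf_col hx, Nat.mul_comm]
        exact Nat.div_add_mod i s
  · rw [List.nodup_map_iff_inj_on List.nodup_range]
    intro a ha b hb hab
    rw [List.mem_range] at ha hb
    have := cellOf_inj2 (s := s) (a := s * s + a) (b := s * s + b) (by omega) (by omega) (by omega)
      (by omega) hab
    omega
  · exact List.nodup_range

theorem prod_consistent {s : ℕ} (hs : 0 < s) {h : ℕ → H}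
    (hcomm : ∀ i < s * s, ∀ j < s * s, Commute (h i) (h j)) (B : ℕ → Bool) :
    ((List.range (2 * (s * s))).map (fun t => bv s h t (B (cellOf s t)))).prod = 1 := by
  set x : ℕ → H := fun i => if B i then h i else 1 with hx
  have hxc : ∀ i < s * s, ∀ j < s * s, Commute (x i) (x j) := by
    intro i hi j hj
    simp only [hx]
    split_ifs
    · exact hcomm i hi j hj
    · exact Commute.one_right _
    · exact Commute.one_left _
    · exact Commute.one_left _
  have e0 : List.range (2 * (s * s)) = List.range (s * s) ++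
      (List.range (s * s)).map (fun t => s * s + t) := by
    rw [Nat.two_mul, List.range_add]
  rw [e0, List.map_append, List.prod_append, List.map_map]
  have e1 : (List.range (s * s)).map (fun t => bv s h t (B (cellOf s t))) =
      (List.range (s * s)).map x := by
    apply List.map_congr_left
    intro t ht
    rw [List.mem_range] at ht
    have : cellOf s t = t := by unfold cellOf; rw [if_pos ht]
    simp only [bv, hx, this, if_pos ht]
  have e2 : (List.range (s * s)).map ((fun t => bv s h t (B (cellOf s t))) ∘ fun t => s * s + t) =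
      ((List.range (s * s)).map (fun t => cellOf s (s * s + t))).map (fun i => (x i)⁻¹) := by
    rw [List.map_map]
    apply List.map_congr_left
    intro t ht
    have : ¬ (s * s + t < s * s) := by omega
    simp only [Function.comp, bv, hx, if_neg this]
    split_ifs <;> simp
  rw [e1, e2]
  have hp : (((List.range (s * s)).map (fun t => cellOf s (s * s + t))).map (fun i => (x i)⁻¹)).prod =
      (((List.range (s * s)).map (fun i => (x i)⁻¹)).reverse).prod := by
    apply List.Perm.prod_eq'
    · exact ((perm_cells hs).map _).trans (List.reverse_perm _).symm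
    · rw [List.pairwise_map]
      refine List.Pairwise.imp_of_mem ?_ (List.pairwise_of_forall (fun _ _ => trivial))
      intro a b ha hb _
      rw [List.mem_map] at ha hb
      obtain ⟨a', ha', rfl⟩ := ha
      obtain ⟨b', hb', rfl⟩ := hb
      rw [List.mem_range] at ha' hb'
      exact (hxc _ (cellOf_lt (by omega)) _ (cellOf_lt (by omega))).inv_inv
  rw [hp]
  have e3 : ((List.range (s * s)).map (fun i => (x i)⁻¹)).reverse.prod =
      (((List.range (s * s)).map x).prod)⁻¹ := by
    rw [List.prod_inv_reverse, List.map_map]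
    rfl
  rw [e3, mul_inv_cancel]

/-- The criterion in terms of commuting families. -/
theorem not_indexed_of_family (𝓛 : Set (List A))
    (hL : ∀ u, u ∈ 𝓛 ↔ val ev u = 1) (f : H →* Equiv.Perm Ω) (y : Equiv.Perm X) (hy : y ≠ 1)
    (hfam : ∀ C : ℕ, 0 < C → ∃ (s b : ℕ) (U V : ℕ → List A) (E : List A) (h : ℕ → H)
      (ι : ℕ → X → Ω), C ≤ s ∧ 0 < b ∧ (2 * (s * s) * b + 2) ^ C < 2 ^ (s * s / C) ∧
      (∀ i, (U i).length = b ∧ val ev (U i) = h i ∧ (V i).length = b ∧ val ev (V i) = (h i)⁻¹) ∧
      E.length = b ∧ val ev E = 1 ∧ (∀ i < s * s, ∀ j < s * s, Commute (h i) (h j)) ∧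
      (∀ i < s * s, Function.Injective (ι i)) ∧
      (∀ i < s * s, ∀ k < s * s, k ≠ i → ∀ x, f (h k) (ι i x) = ι i x) ∧
      (∀ i < s * s, ∀ x, f (h i) (ι i x) = ι i (y x))) : ¬ IsIndexed 𝓛 := by
  refine not_indexed ev 𝓛 (fun u hu => (hL u).1 hu) ?_
  intro C hC
  obtain ⟨s, b, U, V, E, h, ι, h1, h2, h3, h4, h5, h6, h7, h8, h9, h10⟩ := hfam C hC
  have hs : 0 < s := by omega
  have hE0 : 0 < E.length := by omega
  let blk : ℕ → Bool → List A := fun t β =>
    if β then (if t < s * s then U (cellOf s t) else V (cellOf s t)) else E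
  have hlen : ∀ t β, (blk t β).length = b := by
    intro t β
    simp only [blk]
    split_ifs
    · exact (h4 _).1
    · exact (h4 _).2.2.1
    · exact h5
  have hv : ∀ t β, val ev (blk t β) = bv s h t β := by
    intro t β
    simp only [blk, bv]
    split_ifs
    · exact (h4 _).2.1
    · exact (h4 _).2.2.2
    · exact h6
  refine ⟨s, b, fun t β k => (blk t β).getD k E[0], h1, h2, h3, ?_, ?_⟩
  · intro c hc
    rw [val_blocks ev h2 blk hlen E[0] c (2 * (s * s))] at hc
    simp only [hv] at hc
    exact indep_of_act f hy h8 h9 h10 c hc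
  · intro B
    rw [hL]
    have := val_blocks ev h2 blk hlen E[0] (fun t => B (cellOf s t)) (2 * (s * s))
    simp only [hv] at this
    rw [prod_consistent hs h7 B] at this
    exact this

end inst

end Pool.Agent.H39.Indexed
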