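import Pool.Agent.H39.IdxBad

/-!
# Pairs of intervals with the same value
-/

set_option autoImplicit false

namespace Pool.Agent.H39.Indexed

open List

theorem split_num {S E v k z₁ z₂ m : ℕ} (a1 : S ≤ 8 * E * v) (a2 : v ≤ k + 4) (a3 : k ≤ z₁ + z₂)
    (a4 : 64 * E ≤ S) (a5 : 32 * E * m ≤ S) (hE : 0 < E) : m ≤ z₁ ∨ m ≤ z₂ := by
  by_contra hcon
  push Not at hcon
  obtain ⟨h1, h2⟩ := hcon
  have h3 : v ≤ 2 * m + 2 := by omega
  have h4 : S ≤ 8 * E * (2 * m + 2) := le_trans a1 (Nat.mul_le_mul_left _ h3)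
  have h5 : 8 * E * (2 * m + 2) = 16 * E * m + 16 * E := by ring
  have h6 : 32 * E * m = 2 * (16 * E * m) := by ring
  omega

open Classical in
theorem split_card {s b : ℕ} (hb : 0 < b) {n : ℕ} (hn : n = 2 * (s * s) * b) {P : Finset ℕ}
    {D : ℕ → Prop} (hP : P.card ≤ 4) (hD : ChangesAt D P) {E₂ m : ℕ} (hs : E₂ * 4 ≤ s)
    (hE : 2 ≤ E₂) (hss : 64 * E₂ ≤ s * s) (hm : 32 * E₂ * m ≤ s * s)
    (h1 : n < E₂ * ((Finset.range n).filter D).card)
    (h2 : n < E₂ * ((Finset.range n).filter (fun p => ¬ D p)).card)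
    (Z₁ Z₂ : Finset ℕ) (hcover : Vset s b D \ cutCells s b P ⊆ Z₁ ∪ Z₂) {c R : ℕ}
    (c1 : c * 2 ^ Z₁.card ≤ R) (c2 : c * 2 ^ Z₂.card ≤ R) : c * 2 ^ m ≤ R := by
  have hgrid := grid (s := s) (b := b) (r := 4) (E' := E₂) (Q := D) (E := P) hb hP hD hs hE
    (by rw [← hn]; exact h1) (by rw [← hn]; exact h2)
  have hcutc : (cutCells s b P).card ≤ 4 := le_trans Finset.card_image_le hP
  have hVW := Finset.le_card_sdiff (cutCells s b P) (Vset s b D)
  have hun : (Vset s b D \ cutCells s b P).card ≤ Z₁.card + Z₂.card :=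
    le_trans (Finset.card_le_card hcover) (Finset.card_union_le _ _)
  rcases split_num (z₁ := Z₁.card) (z₂ := Z₂.card) hgrid
      (by omega : _ ≤ (Vset s b D \ cutCells s b P).card + 4) hun hss hm (by omega) with h | h
  · exact le_trans (Nat.mul_le_mul_left _ (Nat.pow_le_pow_right (by norm_num) h)) c1
  · exact le_trans (Nat.mul_le_mul_left _ (Nat.pow_le_pow_right (by norm_num) h)) c2

theorem Iv_changes {o l : ℕ} {P : Finset ℕ} (h1 : o ∈ P) (h2 : o + l ∈ P) :
    ChangesAt (Iv o l) P := by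
  intro p hp
  have e1 : p + 1 ≠ o := fun h => hp (h ▸ h1)
  have e2 : p + 1 ≠ o + l := fun h => hp (h ▸ h2)
  unfold Iv
  omega

theorem BIn_or_BOut {Q : ℕ → Prop} {P : Finset ℕ} {s b t : ℕ} (hb : 0 < b) (h : ChangesAt Q P)
    (h1 : cellOf s t ∉ cutCells s b P) : BIn Q b t ∨ BOut Q b t := by
  by_contra hcon
  push Not at hcon
  exact h1 (cut_mem hb h hcon.1 hcon.2)

section pairs

variable {A : Type} {H : Type} [Group H] {ev : A → H}

/-- The cells of a set which have a block inside `Q₁` and a block inside `Q₂`. -/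
noncomputable def ZZ (s b : ℕ) (V : Finset ℕ) (Q₁ Q₂ : ℕ → Prop) : Finset ℕ := by
  classical
  exact V.filter (fun i => ∃ t t', t < 2 * (s * s) ∧ t' < 2 * (s * s) ∧
    cellOf s t = i ∧ cellOf s t' = i ∧ BIn Q₁ b t ∧ BIn Q₂ b t')

theorem mem_ZZ {s b : ℕ} {V : Finset ℕ} {Q₁ Q₂ : ℕ → Prop} {i : ℕ} : i ∈ ZZ s b V Q₁ Q₂ ↔
    i ∈ V ∧ ∃ t t', t < 2 * (s * s) ∧ t' < 2 * (s * s) ∧
    cellOf s t = i ∧ cellOf s t' = i ∧ BIn Q₁ b t ∧ BIn Q₂ b t' := by
  classical
  unfold ZZ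
  simp [Finset.mem_filter]

theorem ZZ_avoid {s b : ℕ} (hb : 0 < b) {V : Finset ℕ} {Q₁ Q₂ Q : ℕ → Prop}
    (h12 : ∀ p, Q₁ p → ¬ Q₂ p) (h1 : ∀ p, Q₁ p → ¬ Q p) (h2 : ∀ p, Q₂ p → ¬ Q p) :
    ∀ i ∈ ZZ s b V Q₁ Q₂, ∀ t < 2 * (s * s), cellOf s t = i → BOut Q b t := by
  intro i hi t ht hti
  rw [mem_ZZ] at hi
  obtain ⟨_, t1, t2, a1, a2, a3, a4, a5, a6⟩ := hi
  have hne : t1 ≠ t2 := by
    rintro rfl
    have e : t1 * b / b = t1 := Nat.mul_div_cancel _ hb
    exact h12 _ (a5 _ e) (a6 _ e)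
  rcases two_blocks a1 a2 ht (a3.trans a4.symm) (hti.trans a3.symm) hne with rfl | rfl
  · intro p hp; exact h1 p (a5 p hp)
  · intro p hp; exact h2 p (a6 p hp)

theorem ZZ_Vset {s b : ℕ} {V : Finset ℕ} {Q₁ Q₂ Q : ℕ → Prop}
    (h1 : ∀ p, Q₁ p → Q p) (h2 : ∀ p, Q₂ p → ¬ Q p) : ZZ s b V Q₁ Q₂ ⊆ Vset s b Q := by
  intro i hi
  rw [mem_ZZ] at hi
  obtain ⟨_, t1, t2, a1, a2, a3, a4, a5, a6⟩ := hi
  rw [mem_Vset]
  exact ⟨a3 ▸ cellOf_lt a1, t1, t2, a1, a2, a3, a4, fun p hp => h1 p (a5 p hp),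
    fun p hp => h2 p (a6 p hp)⟩

open Classical in
theorem nested_card {s b : ℕ}
    {letter : ℕ → Bool → ℕ → A} (hb : 0 < b) (hind : Indep ev s b letter) {n : ℕ}
    (hn : n = 2 * (s * s) * b)
    (hone : ∀ B : ℕ → Bool, val ev (sub (Wd s b letter B) 0 n) = 1)
    (Cl : Finset (Fin (s * s) → Bool)) {o l o' l' E₂ m : ℕ} (h1 : o ≤ o') (h2 : o' + l' ≤ o + l)
    (h3 : o + l ≤ n) (h4 : 2 * l ≤ n) (h5 : n < E₂ * (l - l')) (hs : E₂ * 4 ≤ s)
    (hE : 3 ≤ E₂) (hss : 64 * E₂ ≤ s * s) (hm : 32 * E₂ * m ≤ s * s)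
    (hCl : ∀ B ∈ Cl, val ev (sub (Wd s b letter (ext B)) o l) =
      val ev (sub (Wd s b letter (ext B)) o' l')) :
    Cl.card * 2 ^ m ≤ 2 ^ (s * s) := by
  set P : Finset ℕ := {o, o', o' + l', o + l} with hP
  have hPc : P.card ≤ 4 := Finset.card_le_four
  have ch1 : ChangesAt (Iv o l) P := Iv_changes (by simp [hP]) (by simp [hP])
  have ch2 : ChangesAt (Iv o' l') P := Iv_changes (by simp [hP]) (by simp [hP])
  obtain ⟨D, hDdef⟩ : ∃ D : ℕ → Prop, ∀ p, D p ↔ (Iv o l p ∧ ¬ Iv o' l' p) := ⟨_, fun _ => Iff.rfl⟩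
  have chD : ChangesAt D P := by
    intro p hp
    rw [hDdef, hDdef, ch1 p hp, ch2 p hp]
  set V := Vset s b D \ cutCells s b P with hV
  have hn0 : 0 < n := by
    rcases Nat.eq_zero_or_pos n with h0 | h0
    · rw [h0] at h3 h5
      have : l - l' = 0 := by omega
      rw [this] at h5
      omega
    · exact h0
  have hDeq : (Finset.range n).filter D = Finset.Ico o (o + l) \ Finset.Ico o' (o' + l') := by
    ext p
    rw [Finset.mem_filter, Finset.mem_range, Finset.mem_sdiff, Finset.mem_Ico, Finset.mem_Ico,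
      hDdef]
    constructor
    · rintro ⟨_, a, b⟩; exact ⟨a, b⟩
    · rintro ⟨a, b⟩; exact ⟨by omega, a, b⟩
  have hDc : ((Finset.range n).filter D).card = l - l' := by
    rw [hDeq, Finset.card_sdiff_of_subset, Nat.card_Ico, Nat.card_Ico]
    · omega
    · intro p hp
      rw [Finset.mem_Ico] at hp ⊢
      omega
  have hDc' : ((Finset.range n).filter (fun p => ¬ D p)).card = n - (l - l') := by
    have := Finset.card_filter_add_card_filter_not (s := Finset.range n) D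
    rw [Finset.card_range, hDc] at this
    omega
  have hVcut : ∀ i ∈ V, i ∉ cutCells s b P := fun i hi => (Finset.mem_sdiff.1 hi).2
  refine split_card hb hn hPc chD hs (by omega) hss hm (by rw [hDc]; exact h5)
    (by
      rw [hDc']
      have : 3 * (n - (l - l')) ≤ E₂ * (n - (l - l')) := Nat.mul_le_mul_right _ hE
      omega)
    (ZZ s b V D (fun p => ¬ Iv o l p)) (ZZ s b V (Iv o' l') D) ?_ ?_ ?_
  · -- cover
    intro i hi
    have hic := hVcut i hi
    obtain ⟨_, t, t', a1, a2, a3, a4, a5, a6⟩ := mem_Vset.1 (Finset.mem_sdiff.1 hi).1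
    rw [Finset.mem_union, mem_ZZ, mem_ZZ]
    rcases BIn_or_BOut hb ch1 (t := t') (s := s) (by rw [a4]; exact hic) with h6 | h6
    · right
      refine ⟨hi, t', t, a2, a1, a4, a3, ?_, a5⟩
      intro p hp
      by_contra h7
      exact a6 p hp ((hDdef p).2 ⟨h6 p hp, h7⟩)
    · left
      exact ⟨hi, t, t', a1, a2, a3, a4, a5, h6⟩
  · -- first kind
    refine class2 hb hind hn hone Cl h3 _
      (ZZ_Vset (fun p hp => ((hDdef p).1 hp).1) (fun p hp => hp)) ?_ ?_
    · intro i hi t ht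
      exact BIn_or_BOut hb ch1 (s := s) (by rw [ht]; exact hVcut i (mem_ZZ.1 hi).1)
    · intro B hB B' hB' hag
      rw [hCl B hB, hCl B' hB']
      rw [unaffected (Q := Iv o' l') hb hn (ZZ_avoid hb (fun p hp h => h ((hDdef p).1 hp).1)
        (fun p hp h => ((hDdef p).1 hp).2 h)
        (fun p hp h => hp ⟨by have := h.1; omega, by have := h.2; omega⟩)) hag
        (by omega) (fun p hp1 hp2 => ⟨hp1, hp2⟩)]
  · -- second kind
    refine class2 hb hind hn hone Cl (by omega) _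
      (ZZ_Vset (fun p hp => hp) (fun p hp => ((hDdef p).1 hp).2)) ?_ ?_
    · intro i hi t ht
      exact BIn_or_BOut hb ch2 (s := s) (by rw [ht]; exact hVcut i (mem_ZZ.1 hi).1)
    · intro B hB B' hB' hag
      rw [← hCl B hB, ← hCl B' hB']
      have hav := ZZ_avoid (s := s) (b := b) (V := V) (Q₁ := Iv o' l') (Q₂ := D)
        (Q := fun p => ¬ Iv o l p) hb (fun p hp h => ((hDdef p).1 h).2 hp)
        (fun p hp h => h ⟨by have := hp.1; omega, by have := hp.2; omega⟩)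
        (fun p hp h => h ((hDdef p).1 hp).1)
      have u1 := unaffected (letter := letter) hb hn hav hag (o := 0) (l := o) (by omega)
        (fun p _ hp2 h => by have := h.1; omega)
      have u2 := unaffected (letter := letter) hb hn hav hag (o := o + l) (l := n - (o + l))
        (by omega) (fun p hp1 _ h => by have := h.2; omega)
      have en : n = o + (l + (n - (o + l))) := by omega
      have o1 := hone (ext B)
      have o2 := hone (ext B')
      rw [en, sub_add, sub_add, Nat.zero_add, val_append, val_append] at o1 o2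
      rw [u1, u2] at o1
      have := o1.trans o2.symm
      exact mul_right_cancel (mul_left_cancel this)

open Classical in
theorem disjoint_card {s b : ℕ}
    {letter : ℕ → Bool → ℕ → A} (hb : 0 < b) (hind : Indep ev s b letter) {n : ℕ}
    (hn : n = 2 * (s * s) * b)
    (hone : ∀ B : ℕ → Bool, val ev (sub (Wd s b letter B) 0 n) = 1)
    (Cl : Finset (Fin (s * s) → Bool)) {o l o' l' E₂ m : ℕ} (h1 : o + l ≤ o') (h2 : o' + l' ≤ n)
    (h5 : n < E₂ * (l + l')) (h6 : n < E₂ * (n - (l + l'))) (hs : E₂ * 4 ≤ s)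
    (hE : 2 ≤ E₂) (hss : 64 * E₂ ≤ s * s) (hm : 32 * E₂ * m ≤ s * s)
    (hCl : ∀ B ∈ Cl, val ev (sub (Wd s b letter (ext B)) o l) =
      val ev (sub (Wd s b letter (ext B)) o' l')) :
    Cl.card * 2 ^ m ≤ 2 ^ (s * s) := by
  set P : Finset ℕ := {o, o', o' + l', o + l} with hP
  have hPc : P.card ≤ 4 := Finset.card_le_four
  have ch1 : ChangesAt (Iv o l) P := Iv_changes (by simp [hP]) (by simp [hP])
  have ch2 : ChangesAt (Iv o' l') P := Iv_changes (by simp [hP]) (by simp [hP])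
  obtain ⟨D, hDdef⟩ : ∃ D : ℕ → Prop, ∀ p, D p ↔ (Iv o l p ∨ Iv o' l' p) := ⟨_, fun _ => Iff.rfl⟩
  have chD : ChangesAt D P := by
    intro p hp
    rw [hDdef, hDdef, ch1 p hp, ch2 p hp]
  set V := Vset s b D \ cutCells s b P with hV
  have hDeq : (Finset.range n).filter D = Finset.Ico o (o + l) ∪ Finset.Ico o' (o' + l') := by
    ext p
    rw [Finset.mem_filter, Finset.mem_range, Finset.mem_union, Finset.mem_Ico, Finset.mem_Ico,
      hDdef]
    constructor
    · rintro ⟨_, h⟩; exact h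
    · intro h; exact ⟨by omega, h⟩
  have hDc : ((Finset.range n).filter D).card = l + l' := by
    rw [hDeq, Finset.card_union_of_disjoint, Nat.card_Ico, Nat.card_Ico]
    · omega
    · rw [Finset.disjoint_left]
      intro p hp hp'
      rw [Finset.mem_Ico] at hp hp'
      omega
  have hDc' : ((Finset.range n).filter (fun p => ¬ D p)).card = n - (l + l') := by
    have := Finset.card_filter_add_card_filter_not (s := Finset.range n) D
    rw [Finset.card_range, hDc] at this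
    omega
  have hVcut : ∀ i ∈ V, i ∉ cutCells s b P := fun i hi => (Finset.mem_sdiff.1 hi).2
  refine split_card hb hn hPc chD hs hE hss hm (by rw [hDc]; exact h5)
    (by rw [hDc']; exact h6)
    (ZZ s b V (Iv o l) (fun p => ¬ D p)) (ZZ s b V (Iv o' l') (fun p => ¬ D p)) ?_ ?_ ?_
  · -- cover
    intro i hi
    have hic := hVcut i hi
    obtain ⟨_, t, t', a1, a2, a3, a4, a5, a6⟩ := mem_Vset.1 (Finset.mem_sdiff.1 hi).1
    rw [Finset.mem_union, mem_ZZ, mem_ZZ]
    rcases BIn_or_BOut hb ch1 (t := t) (s := s) (by rw [a3]; exact hic) with h6 | h6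
    · left
      exact ⟨hi, t, t', a1, a2, a3, a4, h6, a6⟩
    · right
      refine ⟨hi, t, t', a1, a2, a3, a4, ?_, a6⟩
      intro p hp
      rcases (hDdef p).1 (a5 p hp) with h7 | h7
      · exact absurd h7 (h6 p hp)
      · exact h7
  · -- first kind
    refine class2 hb hind hn hone Cl (by omega) _
      (ZZ_Vset (fun p hp => hp) (fun p hp h => hp ((hDdef p).2 (Or.inl h)))) ?_ ?_
    · intro i hi t ht
      exact BIn_or_BOut hb ch1 (s := s) (by rw [ht]; exact hVcut i (mem_ZZ.1 hi).1)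
    · intro B hB B' hB' hag
      rw [hCl B hB, hCl B' hB']
      rw [unaffected (Q := Iv o' l') hb hn (ZZ_avoid hb (fun p hp h => h ((hDdef p).2 (Or.inl hp)))
        (fun p hp h => by have := hp.2; have := h.1; omega)
        (fun p hp h => hp ((hDdef p).2 (Or.inr h)))) hag
        (by omega) (fun p hp1 hp2 => ⟨hp1, hp2⟩)]
  · -- second kind
    refine class2 hb hind hn hone Cl h2 _
      (ZZ_Vset (fun p hp => hp) (fun p hp h => hp ((hDdef p).2 (Or.inr h)))) ?_ ?_
    · intro i hi t ht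
      exact BIn_or_BOut hb ch2 (s := s) (by rw [ht]; exact hVcut i (mem_ZZ.1 hi).1)
    · intro B hB B' hB' hag
      rw [← hCl B hB, ← hCl B' hB']
      rw [unaffected (Q := Iv o l) hb hn (ZZ_avoid hb (fun p hp h => h ((hDdef p).2 (Or.inr hp)))
        (fun p hp h => by have := hp.1; have := h.2; omega)
        (fun p hp h => hp ((hDdef p).2 (Or.inl h)))) hag
        (by omega) (fun p hp1 hp2 => ⟨hp1, hp2⟩)]

end pairs

end Pool.Agent.H39.Indexed
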