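import Pool.Agent.H39.IdxGrammar
import Pool.Agent.H39.IdxExhaust

/-!
# Structure of derivations of a single word

The deterministic part: a word `w` of length `n` in the language of an indexed grammar, such that
the yields of its nodes satisfy the two dichotomies `Good1` and `Good2`, cannot exist.
-/

set_option autoImplicit false

namespace Pool.Agent.H39.Indexed

open List

section sub

variable {A : Type}

/-- the subword of `w` at offset `o` of length `l` -/
def sub (w : ℕ → A) (o l : ℕ) : List A := (List.range' o l).map w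

@[simp] theorem sub_length (w : ℕ → A) (o l : ℕ) : (sub w o l).length = l := by simp [sub]

theorem sub_add (w : ℕ → A) (o l l' : ℕ) : sub w o (l + l') = sub w o l ++ sub w (o + l) l' := by
  unfold sub
  rw [← List.map_append, ← List.range'_append_1]

theorem sub_congr {w w' : ℕ → A} {o l : ℕ} (h : ∀ p, o ≤ p → p < o + l → w p = w' p) :
    sub w o l = sub w' o l := by
  unfold sub
  apply List.map_congr_left
  intro p hp
  rw [List.mem_range'_1] at hp
  exact h p hp.1 hp.2

theorem sub_zero (w : ℕ → A) (o : ℕ) : sub w o 0 = [] := rfl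

theorem sub_one (w : ℕ → A) (o : ℕ) : sub w o 1 = [w o] := rfl

/-- value of a word in a group -/
def val {H : Type} [Group H] (ev : A → H) (xs : List A) : H := (xs.map ev).prod

theorem val_append {H : Type} [Group H] (ev : A → H) (xs ys : List A) :
    val ev (xs ++ ys) = val ev xs * val ev ys := by
  simp [val]

end sub

section pieces

variable {N T : Type}

/-- `Piece o φ ys Z o' y`: the nonterminal `Z` occurs in `φ` and its yield (according to `ys`)
is `y`, at offset `o'`, if the whole starts at offset `o`. -/
def Piece : ℕ → List (N ⊕ T) → List (List T) → N → ℕ → List T → Prop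
  | o, Sum.inl X :: φ, y :: ys, Z, o', y' => (X = Z ∧ o' = o ∧ y' = y) ∨ Piece (o + y.length) φ ys Z o' y'
  | o, Sum.inr _ :: φ, y :: ys, Z, o', y' => Piece (o + y.length) φ ys Z o' y'
  | _, _, _, _, _, _ => False

/-- total length of the macroscopic (length at least `n / E`) nonterminal pieces -/
def relLen (E n : ℕ) : List (N ⊕ T) → List (List T) → ℕ
  | Sum.inl _ :: φ, y :: ys => (if n ≤ E * y.length then y.length else 0) + relLen E n φ ys
  | Sum.inr _ :: φ, _ :: ys => relLen E n φ ys
  | _, _ => 0

/-- list of the macroscopic pieces: label, offset, length -/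
def relList (E n : ℕ) : ℕ → List (N ⊕ T) → List (List T) → List (N × ℕ × ℕ)
  | o, Sum.inl X :: φ, y :: ys =>
      (if n ≤ E * y.length then [(X, o, y.length)] else []) ++ relList E n (o + y.length) φ ys
  | o, Sum.inr _ :: φ, y :: ys => relList E n (o + y.length) φ ys
  | _, _, _ => []

theorem relList_sum (E n : ℕ) : ∀ (φ : List (N ⊕ T)) (ys : List (List T)) (o : ℕ),
    ((relList E n o φ ys).map (fun z => z.2.2)).sum = relLen E n φ ys := by
  intro φ
  induction φ with
  | nil => intro ys o; simp [relList, relLen]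
  | cons a φ ih =>
    intro ys o
    cases ys with
    | nil => rcases a with X | t <;> simp [relList, relLen]
    | cons y ys =>
      rcases a with X | t
      · simp only [relList, relLen, List.map_append, List.sum_append, ih]
        by_cases h : n ≤ E * y.length
        · simp [h]
        · simp [h]
      · simp only [relList, relLen, ih]

theorem mem_relList (E n : ℕ) : ∀ (φ : List (N ⊕ T)) (ys : List (List T)) (o : ℕ) (Z : N) (o' l' : ℕ),
    (Z, o', l') ∈ relList E n o φ ys ↔ ∃ y, Piece o φ ys Z o' y ∧ y.length = l' ∧ n ≤ E * l' := by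
  intro φ
  induction φ with
  | nil => intro ys o Z o' l'; simp [relList, Piece]
  | cons a φ ih =>
    intro ys o Z o' l'
    cases ys with
    | nil => rcases a with X | t <;> simp [relList, Piece]
    | cons y ys =>
      rcases a with X | t
      · simp only [relList, Piece, List.mem_append, ih]
        constructor
        · rintro (h | ⟨y', h1, h2, h3⟩)
          · by_cases hn : n ≤ E * y.length
            · rw [if_pos hn, List.mem_singleton, Prod.mk.injEq, Prod.mk.injEq] at h
              obtain ⟨rfl, rfl, rfl⟩ := h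
              exact ⟨y, Or.inl ⟨rfl, rfl, rfl⟩, rfl, hn⟩
            · rw [if_neg hn] at h; cases h
          · exact ⟨y', Or.inr h1, h2, h3⟩
        · rintro ⟨y', (⟨rfl, rfl, rfl⟩ | h1), h2, h3⟩
          · left
            subst h2
            rw [if_pos h3, List.mem_singleton]
          · exact Or.inr ⟨y', h1, h2, h3⟩
      · simp only [relList, Piece, ih]

theorem Piece_bounds : ∀ (φ : List (N ⊕ T)) (ys : List (List T)) (o : ℕ) (Z : N) (o' : ℕ)
    (y : List T), Piece o φ ys Z o' y → o ≤ o' ∧ o' + y.length ≤ o + ys.flatten.length := by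
  intro φ
  induction φ with
  | nil => intro ys o Z o' y h; simp [Piece] at h
  | cons a φ ih =>
    intro ys o Z o' y h
    cases ys with
    | nil => rcases a with X | t <;> simp [Piece] at h
    | cons y0 ys =>
      rw [List.flatten_cons, List.length_append]
      rcases a with X | t
      · rcases h with ⟨rfl, rfl, rfl⟩ | h
        · omega
        · have := ih ys _ Z o' y h; omega
      · have := ih ys _ Z o' y h; omega

theorem relList_pairwise (E n : ℕ) : ∀ (φ : List (N ⊕ T)) (ys : List (List T)) (o : ℕ),
    (relList E n o φ ys).Pairwise (fun a b => a.2.1 + a.2.2 ≤ b.2.1) := by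
  intro φ
  induction φ with
  | nil => intro ys o; simp [relList]
  | cons a φ ih =>
    intro ys o
    cases ys with
    | nil => rcases a with X | t <;> simp [relList]
    | cons y ys =>
      rcases a with X | t
      · simp only [relList]
        by_cases hn : n ≤ E * y.length
        · rw [if_pos hn, List.singleton_append, List.pairwise_cons]
          refine ⟨?_, ih ys _⟩
          rintro ⟨Z, o', l'⟩ hz
          rw [mem_relList] at hz
          obtain ⟨y', h1, h2, h3⟩ := hz
          exact (Piece_bounds _ _ _ _ _ _ h1).1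
        · rw [if_neg hn, List.nil_append]; exact ih ys _
      · simp only [relList]; exact ih ys _

theorem relLen_append (E n : ℕ) : ∀ (φ : List (N ⊕ T)) (ys : List (List T))
    (φ' : List (N ⊕ T)) (ys' : List (List T)), φ.length = ys.length →
    relLen E n (φ ++ φ') (ys ++ ys') = relLen E n φ ys + relLen E n φ' ys' := by
  intro φ
  induction φ with
  | nil =>
    intro ys φ' ys' h
    cases ys with
    | nil => simp [relLen]
    | cons y ys => simp at h
  | cons a φ ih =>
    intro ys φ' ys' h
    cases ys with
    | nil => simp at h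
    | cons y ys =>
      have h' : φ.length = ys.length := by simpa using h
      rcases a with X | t
      · simp only [List.cons_append, relLen, ih ys φ' ys' h']; ring
      · simp only [List.cons_append, relLen, ih ys φ' ys' h']

theorem relLen_le (E n : ℕ) : ∀ (φ : List (N ⊕ T)) (ys : List (List T)),
    relLen E n φ ys ≤ ys.flatten.length := by
  intro φ
  induction φ with
  | nil => intro ys; simp [relLen]
  | cons a φ ih =>
    intro ys
    cases ys with
    | nil => rcases a with X | t <;> simp [relLen]
    | cons y ys =>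
      rw [List.flatten_cons, List.length_append]
      rcases a with X | t
      · simp only [relLen]
        have := ih ys
        split_ifs <;> omega
      · simp only [relLen]
        have := ih ys
        omega

/-- non-macroscopic part of a short word -/
theorem irr_bound (E n : ℕ) {P : N → List T → Prop} : ∀ (φ : List (N ⊕ T)) (ys : List (List T)),
    Forall₂ (symP P) φ ys → E * ys.flatten.length ≤ E * relLen E n φ ys + φ.length * (n + E) := by
  intro φ
  induction φ with
  | nil => intro ys h; cases h; simp
  | cons a φ ih =>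
    intro ys h
    cases h with
    | @cons _ y _ ys h1 h2 =>
      have h3 := ih ys h2
      rw [List.flatten_cons, List.length_append, List.length_cons]
      rcases a with X | t
      · simp only [relLen]
        by_cases hn : n ≤ E * y.length
        · rw [if_pos hn]; nlinarith
        · rw [if_neg hn]; push Not at hn; nlinarith
      · have : y = [t] := h1
        subst this
        simp only [relLen, List.length_singleton]
        nlinarith

theorem Piece_split {P : N → List T → Prop} : ∀ (φ : List (N ⊕ T)) (ys : List (List T)) (o : ℕ)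
    (Z : N) (o' : ℕ) (y : List T), Forall₂ (symP P) φ ys → Piece o φ ys Z o' y →
    ∃ u v, ys.flatten = u ++ y ++ v ∧ o' = o + u.length ∧ P Z y ∧
      ∀ x, P Z x → listP P φ (u ++ x ++ v) := by
  intro φ
  induction φ with
  | nil => intro ys o Z o' y _ h; simp [Piece] at h
  | cons a φ ih =>
    intro ys o Z o' y hf h
    cases hf with
    | @cons _ y0 _ ys h1 h2 =>
      rcases a with X | t
      · rcases h with ⟨rfl, rfl, rfl⟩ | h
        · refine ⟨[], ys.flatten, by simp, by simp, h1, ?_⟩
          intro x hx
          exact listP_cons.2 ⟨x, ys.flatten, hx, ⟨ys, h2, rfl⟩, by simp⟩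
        · obtain ⟨u, v, h3, h4, h5, h6⟩ := ih ys _ Z o' y h2 h
          refine ⟨y0 ++ u, v, by simp [h3], by simp [h4]; omega, h5, ?_⟩
          intro x hx
          exact listP_cons.2 ⟨y0, u ++ x ++ v, h1, h6 x hx, by simp⟩
      · obtain ⟨u, v, h3, h4, h5, h6⟩ := ih ys _ Z o' y h2 h
        refine ⟨y0 ++ u, v, by simp [h3], by simp [h4]; omega, h5, ?_⟩
        intro x hx
        exact listP_cons.2 ⟨y0, u ++ x ++ v, h1, h6 x hx, by simp⟩

/-- pieces of a subword are subwords -/
theorem sub_split {w : ℕ → T} {o l : ℕ} {u y v : List T} (h : u ++ y ++ v = sub w o l) :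
    u = sub w o u.length ∧ y = sub w (o + u.length) y.length ∧
    v = sub w (o + u.length + y.length) v.length ∧ l = u.length + y.length + v.length := by
  have hl : l = u.length + y.length + v.length := by
    have := congrArg List.length h
    simp at this; omega
  rw [hl, sub_add, sub_add] at h
  have h1 := List.append_inj h (by simp)
  have h2 := List.append_inj h1.1 (by simp)
  refine ⟨h2.1, h2.2, ?_, hl⟩
  rw [h1.2, sub_length, Nat.add_assoc]

end pieces

section nodes

variable {A : Type} (g : IndexedGrammar A) (w : ℕ → A) (n : ℕ)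

/-- `X` with stack `γ` is a node of a derivation of the word `sub w 0 n`, with yield
at offset `o` of length `l`. -/
def Node (γ : List g.F) (X : g.N) (o l : ℕ) : Prop :=
  o + l ≤ n ∧ g.Dv γ X (sub w o l) ∧
    ∀ x, g.Dv γ X x → sub w 0 o ++ x ++ sub w (o + l) (n - (o + l)) ∈ g.language

/-- the same for a word `φ` of symbols, all with the stack `γ`, with yields `ys` -/
def LNode (γ : List g.F) (φ : List (g.N ⊕ A)) (ys : List (List A)) (o l : ℕ) : Prop :=
  o + l ≤ n ∧ Forall₂ (symP (g.Dv γ)) φ ys ∧ ys.flatten = sub w o l ∧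
    ∀ x, listP (g.Dv γ) φ x → sub w 0 o ++ x ++ sub w (o + l) (n - (o + l)) ∈ g.language

variable {g w n}

theorem LNode.piece {γ : List g.F} {φ : List (g.N ⊕ A)} {ys : List (List A)} {o l : ℕ}
    (h : LNode g w n γ φ ys o l) {Z : g.N} {o' : ℕ} {y : List A} (hp : Piece o φ ys Z o' y) :
    Node g w n γ Z o' y.length ∧ y = sub w o' y.length ∧ o ≤ o' ∧ o' + y.length ≤ o + l := by
  obtain ⟨h1, h2, h3, h4⟩ := h
  obtain ⟨u, v, h5, rfl, h6, h7⟩ := Piece_split φ ys o Z o' y h2 hp
  rw [h3] at h5
  obtain ⟨hu, hy, hv, hl⟩ := sub_split h5.symm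
  refine ⟨⟨by omega, by rwa [← hy], ?_⟩, hy, by omega, by omega⟩
  intro x hx
  have h8 := h4 _ (h7 x hx)
  have e1 : sub w 0 (o + u.length) = sub w 0 o ++ u := by rw [sub_add, Nat.zero_add, ← hu]
  have e2 : n - (o + u.length + y.length) = v.length + (n - (o + l)) := by omega
  have e3 : sub w (o + u.length + y.length) (n - (o + u.length + y.length)) =
      v ++ sub w (o + l) (n - (o + l)) := by
    rw [e2, sub_add, ← hv]
    congr 2
    omega
  rw [e1, e3]
  simpa [List.append_assoc] using h8

theorem Node.copy {γ : List g.F} {X : g.N} {o l : ℕ} (h : Node g w n γ X o l)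
    {β : List (g.N ⊕ A)} (hβ : (X, β) ∈ g.copyRule) {ys : List (List A)}
    (h1 : Forall₂ (symP (g.Dv γ)) β ys) (h2 : ys.flatten = sub w o l) :
    LNode g w n γ β ys o l :=
  ⟨h.1, h1, h2, fun x hx => h.2.2 x (g.Dv_copy hβ hx)⟩

theorem Node.push {γ : List g.F} {X : g.N} {o l : ℕ} (h : Node g w n γ X o l)
    {Y : g.N} {f : g.F} (hY : (X, Y, f) ∈ g.pushRule) (hD : g.Dv (f :: γ) Y (sub w o l)) :
    Node g w n (f :: γ) Y o l :=
  ⟨h.1, hD, fun x hx => h.2.2 x (g.Dv_push hY hx)⟩

theorem Node.skel {γ : List g.F} {X : g.N} {o l : ℕ} {f : g.F} (h : Node g w n (f :: γ) X o l)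
    {k : ℕ} {φ : List (g.N ⊕ A)} (hS : g.S k [f] X φ) {ys : List (List A)}
    (h1 : Forall₂ (symP (g.Dv γ)) φ ys) (h2 : ys.flatten = sub w o l) :
    LNode g w n γ φ ys o l :=
  ⟨h.1, h1, h2, fun x hx => h.2.2 x (g.Dv_of_S hS hx)⟩

theorem Node.val_eq {H : Type} [Group H] {ev : A → H} (hev : ∀ u ∈ g.language, val ev u = 1)
    {γ : List g.F} {X : g.N} {o l : ℕ} (h : Node g w n γ X o l) {x : List A} (hx : g.Dv γ X x) :
    val ev x = val ev (sub w o l) := by
  have h1 := hev _ (h.2.2 x hx)
  have h2 := hev _ (h.2.2 _ h.2.1)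
  rw [val_append, val_append] at h1 h2
  have h3 := h1.trans h2.symm
  exact mul_left_cancel (mul_right_cancel h3)

/-- grouping of a skeleton over a level -/
theorem group_level {γ : List g.F} {f : g.F} {j : ℕ} {P : List (g.N ⊕ A) → List (List A) → Prop}
    (hP : ∀ φ₁ φ₂ ys₁ ys₂, φ₁.length = ys₁.length → P (φ₁ ++ φ₂) (ys₁ ++ ys₂) → P φ₁ ys₁ ∧ P φ₂ ys₂) :
    ∀ (ψ φ : List (g.N ⊕ A)) (ys : List (List A)), listS (g.S j [f]) ψ φ →
      Forall₂ (symP (g.Dv γ)) φ ys → P φ ys →
      ∃ ys', Forall₂ (symP (g.Dv (f :: γ))) ψ ys' ∧ ys'.flatten = ys.flatten ∧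
        ∀ o Z o' y, Piece o ψ ys' Z o' y → ∃ φ' ys'', g.S j [f] Z φ' ∧
          Forall₂ (symP (g.Dv γ)) φ' ys'' ∧ ys''.flatten = y ∧ P φ' ys'' := by
  intro ψ
  induction ψ with
  | nil =>
    intro φ ys h1 h2 _
    rw [listS_nil] at h1
    subst h1
    cases h2
    exact ⟨[], Forall₂.nil, rfl, fun o Z o' y h => by simp [Piece] at h⟩
  | cons a ψ ih =>
    intro φ ys h1 h2 h3
    rw [listS_cons] at h1
    obtain ⟨φ₁, φ₂, h4, h5, rfl⟩ := h1
    obtain ⟨ys₁, ys₂, h6, h7, rfl⟩ := forall₂_split h2
    obtain ⟨hP1, hP2⟩ := hP φ₁ φ₂ ys₁ ys₂ h6.length_eq h3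
    obtain ⟨ys', h8, h9, h10⟩ := ih φ₂ ys₂ h5 h7 hP2
    refine ⟨ys₁.flatten :: ys', Forall₂.cons ?_ h8, by simp [h9], ?_⟩
    · rcases a with X | t
      · exact g.Dv_of_S (σ := [f]) h4 ⟨ys₁, h6, rfl⟩
      · have : φ₁ = [Sum.inr t] := h4
        subst this
        cases h6 with
        | cons h11 h12 =>
          cases h12
          have h13 : _ = [t] := h11
          show List.flatten _ = [t]
          simp [h13]
    · intro o Z o' y hp
      rcases a with X | t
      · rcases hp with ⟨rfl, rfl, rfl⟩ | hp
        · exact ⟨φ₁, ys₁, h4, h6, rfl, hP1⟩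
        · exact h10 _ _ _ _ hp
      · exact h10 _ _ _ _ hp

end nodes

end Pool.Agent.H39.Indexed
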